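import Pool.Agent.J4H79.PC.Cell2

/-!
# Averages of floor functions and a geometric sum
-/

set_option autoImplicit false

open MeasureTheory Set Filter Topology
open scoped ENNReal NNReal

namespace Pool.Agent.J4H79.PC

open Pool.Agent.R972.PC (leb)

lemma fract_avg (N : ℕ) (a b : ℝ) :
    ∫ θ in (0 : ℝ)..1, Int.fract ((N : ℝ) * (a - θ)) = ∫ θ in (0 : ℝ)..1, Int.fract ((N : ℝ) * (b - θ)) := by
  have hper : Function.Periodic (fun t : ℝ => Int.fract ((N : ℝ) * t)) 1 := by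
    intro t
    simp only
    rw [mul_add, mul_one, Int.fract_add_natCast]
  have h : ∀ c : ℝ, ∫ θ in (0 : ℝ)..1, Int.fract ((N : ℝ) * (c - θ)) =
      ∫ t in (0 : ℝ)..(0 + 1), Int.fract ((N : ℝ) * t) := by
    intro c
    rw [intervalIntegral.integral_comp_sub_left (fun t => Int.fract ((N : ℝ) * t)) c]
    have := hper.intervalIntegral_add_eq (c - 1) 0
    rw [show c - 1 + 1 = c - 0 by ring] at this
    exact this
  rw [h a, h b]

lemma fract_int (N : ℕ) (a : ℝ) :
    IntervalIntegrable (fun θ : ℝ => Int.fract ((N : ℝ) * (a - θ))) volume 0 1 := by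
  rw [intervalIntegrable_iff_integrableOn_Icc_of_le zero_le_one]
  have hm : Measurable fun θ : ℝ => Int.fract ((N : ℝ) * (a - θ)) := by fun_prop
  apply Measure.integrableOn_of_bounded (M := 1) (by simp) hm.aestronglyMeasurable
  apply Eventually.of_forall
  intro θ
  rw [Real.norm_eq_abs, abs_of_nonneg (Int.fract_nonneg _)]
  exact (Int.fract_lt_one _).le

lemma floor_avg_le (N : ℕ) {a b : ℝ} (hab : b ≤ a) :
    ∫⁻ θ, ENNReal.ofReal |(⌊(N : ℝ) * (a - θ)⌋ : ℝ) - (⌊(N : ℝ) * (b - θ)⌋ : ℝ)| ∂leb ≤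
      ENNReal.ofReal (N * |a - b|) := by
  have e : ∀ θ : ℝ, |(⌊(N : ℝ) * (a - θ)⌋ : ℝ) - (⌊(N : ℝ) * (b - θ)⌋ : ℝ)| =
      N * (a - b) - (Int.fract ((N : ℝ) * (a - θ)) - Int.fract ((N : ℝ) * (b - θ))) := by
    intro θ
    have h1 : (⌊(N : ℝ) * (b - θ)⌋ : ℝ) ≤ (⌊(N : ℝ) * (a - θ)⌋ : ℝ) := by
      have : ⌊(N : ℝ) * (b - θ)⌋ ≤ ⌊(N : ℝ) * (a - θ)⌋ := by
        apply Int.floor_le_floor
        gcongr
      exact_mod_cast this
    rw [abs_of_nonneg (by linarith)]
    have h2 := Int.floor_add_fract ((N : ℝ) * (a - θ))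
    have h3 := Int.floor_add_fract ((N : ℝ) * (b - θ))
    linarith
  simp_rw [e]
  have hint : Integrable (fun θ : ℝ => (N : ℝ) * (a - b) -
      (Int.fract ((N : ℝ) * (a - θ)) - Int.fract ((N : ℝ) * (b - θ)))) leb := by
    have i1 := (intervalIntegrable_iff_integrableOn_Icc_of_le zero_le_one).mp (fract_int N a)
    have i2 := (intervalIntegrable_iff_integrableOn_Icc_of_le zero_le_one).mp (fract_int N b)
    have i0 : Integrable (fun _ : ℝ => (N : ℝ) * (a - b)) leb := by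
      rw [Pool.Agent.R972.PC.leb]; exact integrable_const _
    exact i0.sub (i1.sub i2)
  rw [← ofReal_integral_eq_lintegral_ofReal hint]
  · apply ENNReal.ofReal_le_ofReal
    rw [Pool.Agent.R972.PC.leb, integral_Icc_eq_integral_Ioc,
      ← intervalIntegral.integral_of_le zero_le_one]
    rw [intervalIntegral.integral_sub (by simp) ((fract_int N a).sub (fract_int N b)),
      intervalIntegral.integral_sub (fract_int N a) (fract_int N b), fract_avg N a b]
    simp only [intervalIntegral.integral_const, sub_self, sub_zero, smul_eq_mul, one_mul]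
    rw [abs_of_nonneg (by linarith)]
  · apply Eventually.of_forall
    intro θ
    simp only [Pi.zero_apply]
    rw [← e θ]; exact abs_nonneg _

lemma floor_avg (N : ℕ) (a b : ℝ) :
    ∫⁻ θ, ENNReal.ofReal |(⌊(N : ℝ) * (a - θ)⌋ : ℝ) - (⌊(N : ℝ) * (b - θ)⌋ : ℝ)| ∂leb ≤
      ENNReal.ofReal (N * |a - b|) := by
  rcases le_total b a with h | h
  · exact floor_avg_le N h
  · have := floor_avg_le N h
    rw [abs_sub_comm b a] at this
    refine le_trans (le_of_eq ?_) this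
    exact lintegral_congr fun θ => by rw [abs_sub_comm]

/-- the geometric sum -/
lemma geom_bound {A B d q : ℝ} (hq0 : 0 < q) (hA : 2 ≤ A) (hB : 2 / q * (1 - B⁻¹) ≥ 1) (hB0 : 0 < B)
    (hd0 : 0 ≤ d) (K : ℕ) (n : ℕ) :
    ∑ j ∈ Finset.range n, min ((B⁻¹) ^ j) (A ^ j * d) ≤ d * A ^ K + 2 / q * (B⁻¹) ^ K := by
  have hBi : 0 < B⁻¹ := by positivity
  -- up to `K`
  have h1 : ∀ n, ∑ j ∈ Finset.range n, min ((B⁻¹) ^ j) (A ^ j * d) ≤ d * A ^ n := by
    intro n
    induction n with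
    | zero => simpa using hd0
    | succ n ih =>
      rw [Finset.sum_range_succ, pow_succ]
      have e1 : min ((B⁻¹) ^ n) (A ^ n * d) ≤ A ^ n * d := min_le_right _ _
      have e2 : 0 ≤ d * A ^ n := by positivity
      nlinarith
  have h2 : ∀ m, ∑ j ∈ Finset.range (K + m), min ((B⁻¹) ^ j) (A ^ j * d) ≤
      d * A ^ K + 2 / q * ((B⁻¹) ^ K - (B⁻¹) ^ (K + m)) := by
    intro m
    induction m with
    | zero => simpa using h1 K
    | succ m ih =>
      rw [← add_assoc, Finset.sum_range_succ]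
      have e1 : min ((B⁻¹) ^ (K + m)) (A ^ (K + m) * d) ≤ (B⁻¹) ^ (K + m) := min_le_left _ _
      have e2 : 0 ≤ (B⁻¹) ^ (K + m) := by positivity
      have e3 : (B⁻¹) ^ (K + m + 1) = (B⁻¹) ^ (K + m) * B⁻¹ := pow_succ _ _
      rw [e3]
      have e4 : (B⁻¹) ^ (K + m) * 1 ≤ (B⁻¹) ^ (K + m) * (2 / q * (1 - B⁻¹)) :=
        mul_le_mul_of_nonneg_left hB e2
      nlinarith
  have hmono : ∑ j ∈ Finset.range n, min ((B⁻¹) ^ j) (A ^ j * d) ≤
      ∑ j ∈ Finset.range (K + n), min ((B⁻¹) ^ j) (A ^ j * d) := by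
    apply Finset.sum_le_sum_of_subset_of_nonneg
    · intro x hx
      simp only [Finset.mem_range] at hx ⊢
      omega
    · intro i _ _
      positivity
  have h3 := h2 n
  have h4 : 0 ≤ 2 / q * (B⁻¹) ^ (K + n) := by positivity
  linarith [mul_sub (2 / q) ((B⁻¹) ^ K) ((B⁻¹) ^ (K + n))]

end Pool.Agent.J4H79.PC
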