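import Pool.Agent.J4H79.PC.Fixed
import Pool.Agent.J4H79.PC.Floor

/-!
# Averaging over the grids
-/

set_option autoImplicit false

open MeasureTheory Set Filter Topology
open scoped ENNReal NNReal

namespace Pool.Agent.J4H79.PC

open Pool.Agent.R972.PC (leb)

/-! ### joint measurability -/

lemma nnR_joint (L j : ℕ) {α : Type*} [MeasurableSpace α] {f g : α → ℝ} (hf : Measurable f)
    (hg : Measurable g) : Measurable fun a => (nn L j (f a) (g a) : ℝ) := by
  have h := (nn_meas L j).comp (hf.prodMk hg)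
  simp only [Function.comp_def] at h
  exact (measurable_from_top (f := fun n : ℤ => (n : ℝ))).comp h

lemma aa_joint (L j : ℕ) {α : Type*} [MeasurableSpace α] {f g : α → ℝ} (hf : Measurable f)
    (hg : Measurable g) : Measurable fun a => aa L j (f a) (g a) := by
  have h := (aa_meas L j).comp (hf.prodMk hg)
  simpa only [Function.comp_def] using h

lemma Hf_joint (L j : ℕ) {α : Type*} [MeasurableSpace α] {f g : α → ℝ} (hf : Measurable f)
    (hg : Measurable g) : Measurable fun a => Hf L j (f a) (g a) := by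
  have h := (Hf_meas L j).comp (hf.prodMk hg)
  simpa only [Function.comp_def] using h

lemma wt_joint (L j : ℕ) (q : ℝ) {α : Type*} [MeasurableSpace α] {f g : α → ℝ}
    (hf : Measurable f) (hg : Measurable g) : Measurable fun a => wt L j q (f a) (g a) := by
  have h := aa_joint L 0 hf hg
  unfold wt; fun_prop

lemma hh_joint (L j : ℕ) {α : Type*} [MeasurableSpace α] {f g : α → ℝ} (hf : Measurable f)
    (hg : Measurable g) : Measurable fun a => hh L j (f a) (g a) := by
  have h := nnR_joint L j hf hg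
  unfold hh
  exact (sg_meas.comp hg).mul h

lemma hr_joint (L : ℕ) (q : ℝ) {α : Type*} [MeasurableSpace α] {f g : α → ℝ} (hf : Measurable f)
    (hg : Measurable g) : Measurable fun a => hr L q (f a) (g a) := by
  have h := aa_joint L 0 hf hg
  unfold hr
  exact (sg_meas.comp hg).mul (h.pow_const q)

lemma g1_joint (L j : ℕ) (q : ℝ) : Measurable fun t : ℝ × (ℝ × ℝ) => g1 L j q t.1 t.2 := by
  have m1 : Measurable fun t : ℝ × (ℝ × ℝ) => t.2.1 := by fun_prop
  have m2 : Measurable fun t : ℝ × (ℝ × ℝ) => t.2.2 := by fun_prop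
  have a := wt_joint L (j + 1) q (measurable_fst (α := ℝ) (β := ℝ × ℝ)) m1
  have b := hh_joint L (j + 1) (measurable_fst (α := ℝ) (β := ℝ × ℝ)) m1
  have c := hh_joint L (j + 1) (measurable_fst (α := ℝ) (β := ℝ × ℝ)) m2
  unfold g1
  fun_prop

lemma g2_joint (L j : ℕ) (q : ℝ) : Measurable fun t : ℝ × (ℝ × ℝ) => g2 L j q t.1 t.2 := by
  have m1 : Measurable fun t : ℝ × (ℝ × ℝ) => t.2.1 := by fun_prop
  have m2 : Measurable fun t : ℝ × (ℝ × ℝ) => t.2.2 := by fun_prop
  have a := wt_joint L (j + 1) q (measurable_fst (α := ℝ) (β := ℝ × ℝ)) m1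
  have b := wt_joint L (j + 1) q (measurable_fst (α := ℝ) (β := ℝ × ℝ)) m2
  have s := sg_meas
  unfold g2
  fun_prop

lemma SmJ (L j : ℕ) : MeasurableSet {t : ℝ × (ℝ × ℝ) | t.2 ∈ Sm L j t.1} := by
  have m1 : Measurable fun t : ℝ × (ℝ × ℝ) => t.2.1 := by fun_prop
  have m2 : Measurable fun t : ℝ × (ℝ × ℝ) => t.2.2 := by fun_prop
  exact measurableSet_eq_fun (Hf_joint L j measurable_fst m1) (Hf_joint L j measurable_fst m2)

lemma term_joint (L j : ℕ) (q : ℝ) : Measurable fun t : ℝ × (ℝ × ℝ) =>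
    ((Sm L j t.1).indicator (g1 L j q t.1) t.2 + (Sm L j t.1)ᶜ.indicator (g2 L j q t.1) t.2) := by
  have a := (g1_joint L j q).indicator (SmJ L j)
  have b := (g2_joint L j q).indicator (SmJ L j).compl
  have e : (fun t : ℝ × (ℝ × ℝ) => ((Sm L j t.1).indicator (g1 L j q t.1) t.2 +
      (Sm L j t.1)ᶜ.indicator (g2 L j q t.1) t.2)) = fun t =>
      {t : ℝ × (ℝ × ℝ) | t.2 ∈ Sm L j t.1}.indicator (fun t => g1 L j q t.1 t.2) t +
      {t : ℝ × (ℝ × ℝ) | t.2 ∈ Sm L j t.1}ᶜ.indicator (fun t => g2 L j q t.1 t.2) t := by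
    funext t
    by_cases ht : t.2 ∈ Sm L j t.1
    · have ht2 : t ∈ {t : ℝ × (ℝ × ℝ) | t.2 ∈ Sm L j t.1} := ht
      rw [indicator_of_mem ht, indicator_of_mem ht2, indicator_of_notMem (by simpa using ht),
        indicator_of_notMem (by simpa using ht)]
    · have ht2 : t ∉ {t : ℝ × (ℝ × ℝ) | t.2 ∈ Sm L j t.1} := ht
      rw [indicator_of_notMem ht, indicator_of_notMem ht2, indicator_of_mem (by simpa using ht),
        indicator_of_mem (by simpa using ht)]
  rw [e]
  exact a.add b

lemma GG_joint (L : ℕ) (q : ℝ) : Measurable fun t : ℝ × (ℝ × ℝ) => GG L q t.1 t.2 := by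
  have m1 : Measurable fun t : ℝ × (ℝ × ℝ) => t.2.1 := by fun_prop
  have m2 : Measurable fun t : ℝ × (ℝ × ℝ) => t.2.2 := by fun_prop
  have a := hr_joint L q (measurable_fst (α := ℝ) (β := ℝ × ℝ)) m1
  have b := hr_joint L q (measurable_fst (α := ℝ) (β := ℝ × ℝ)) m2
  unfold GG
  have h1 : Measurable fun t : ℝ × (ℝ × ℝ) =>
      ENNReal.ofReal ((8 / q) * |hr L q t.1 t.2.1 - hr L q t.1 t.2.2|) := by fun_prop
  exact h1.add (Measurable.tsum fun j => term_joint L j q)

/-! ### pointwise and averaged bounds -/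

/-- the logarithmic coordinate -/
noncomputable abbrev ph (x : ℝ) : ℝ := Real.logb 2 |x|

/-- the truncated logarithmic distance -/
noncomputable def dd (x y : ℝ) : ℝ :=
  if sg x = sg y then min 1 |ph x - ph y| else 1

lemma dd_nonneg (x y : ℝ) : 0 ≤ dd x y := by
  unfold dd; split_ifs
  · exact le_min zero_le_one (abs_nonneg _)
  · exact zero_le_one

lemma dd_le_one (x y : ℝ) : dd x y ≤ 1 := by
  unfold dd; split_ifs
  · exact min_le_left _ _
  · exact le_rfl

section

variable {L : ℕ} (hL : 2 ≤ L)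

include hL in
lemma one_le_Lj (j : ℕ) : (1 : ℝ) ≤ (L : ℝ) ^ j := by
  have : (1 : ℝ) ≤ L := by exact_mod_cast (show 1 ≤ L by omega)
  exact one_le_pow₀ this

lemma nn_avg (j : ℕ) (x y : ℝ) :
    ∫⁻ θ, ENNReal.ofReal |(nn L j θ x : ℝ) - nn L j θ y| ∂leb ≤
      ENNReal.ofReal ((L : ℝ) ^ j * |ph x - ph y|) := by
  have := floor_avg (L ^ j) (Real.logb 2 |x|) (Real.logb 2 |y|)
  unfold nn
  push_cast at this
  exact this

include hL in
/-- the probability of being separated -/
lemma sep_prob (j : ℕ) (x y : ℝ) :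
    ∫⁻ θ, (Sm L j θ)ᶜ.indicator 1 (x, y) ∂leb ≤ ENNReal.ofReal (min 1 ((L : ℝ) ^ j * dd x y)) := by
  have hone : ∫⁻ θ, (Sm L j θ)ᶜ.indicator 1 (x, y) ∂leb ≤ 1 := by
    calc ∫⁻ θ, (Sm L j θ)ᶜ.indicator 1 (x, y) ∂leb ≤ ∫⁻ _, 1 ∂leb := by
          apply lintegral_mono
          intro θ
          beta_reduce
          by_cases h : (x, y) ∈ (Sm L j θ)ᶜ
          · rw [indicator_of_mem h]; simp
          · rw [indicator_of_notMem h]; simp
      _ = 1 := by simp
  have hL1 := one_le_Lj hL j
  rw [ENNReal.ofReal_min, ENNReal.ofReal_one]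
  refine le_min hone ?_
  unfold dd
  split_ifs with hs
  · rw [mul_min_of_nonneg _ _ (by linarith), ENNReal.ofReal_min]
    refine le_min ?_ ?_
    · refine hone.trans ?_
      rw [← ENNReal.ofReal_one]
      apply ENNReal.ofReal_le_ofReal; linarith
    · refine le_trans ?_ (nn_avg j x y)
      apply lintegral_mono
      intro θ
      beta_reduce
      by_cases h : (x, y) ∈ (Sm L j θ)ᶜ
      · rw [indicator_of_mem h]
        simp only [Pi.one_apply]
        have hne : nn L j θ x ≠ nn L j θ y := by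
          intro hn
          exact h ((Hf_eq_iff hL j θ x y).mpr ⟨hs, Or.inr hn⟩)
        rw [← ENNReal.ofReal_one]
        apply ENNReal.ofReal_le_ofReal
        have h3 : (1 : ℤ) ≤ |nn L j θ x - nn L j θ y| := Int.one_le_abs (sub_ne_zero.mpr hne)
        exact_mod_cast h3
      · rw [indicator_of_notMem h]; exact zero_le
  · refine hone.trans ?_
    rw [← ENNReal.ofReal_one]
    apply ENNReal.ofReal_le_ofReal; linarith

include hL in
lemma wt_le {q : ℝ} (hq0 : 0 < q) (i : ℕ) (θ : ℝ) {x : ℝ} (hx : x ≠ 0) :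
    wt L i q θ x ≤ 4 * (|x| / (L : ℝ) ^ i) ^ q := by
  unfold wt
  have h1 := aa_le hL 0 θ hx
  have h2 := aa_pos L 0 θ x
  have h3 := Lj_pos hL i
  gcongr

include hL in
lemma g1_avg {q : ℝ} (hq0 : 0 < q) (j : ℕ) (x y : ℝ) :
    ∫⁻ θ, (Sm L j θ).indicator (g1 L j q θ) (x, y) ∂leb ≤
      ENNReal.ofReal (4 * (|x| / (L : ℝ) ^ (j + 1)) ^ q * min (L : ℝ) ((L : ℝ) ^ (j + 1) * dd x y)) := by
  have hL0 := Lj_pos hL (j + 1)
  have hL1 := one_le_Lj hL j
  have hLr : (1 : ℝ) ≤ L := by exact_mod_cast (show 1 ≤ L by omega)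
  have hc0 : 0 ≤ 4 * (|x| / (L : ℝ) ^ (j + 1)) ^ q := by positivity
  by_cases hs : sg x = sg y
  · by_cases hx : x = 0
    · have hy : y = 0 := by rw [← sg_eq_zero, ← hs, sg_eq_zero]; exact hx
      subst hx; subst hy
      have : ∀ θ, (Sm L j θ).indicator (g1 L j q θ) (0, 0) = 0 := by
        intro θ
        apply indicator_apply_eq_zero.mpr
        intro _
        unfold g1; simp
      simp only [this, lintegral_zero]; exact zero_le
    · -- the two bounds
      have hb : ∀ θ, (Sm L j θ).indicator (g1 L j q θ) (x, y) ≤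
          ENNReal.ofReal (4 * (|x| / (L : ℝ) ^ (j + 1)) ^ q) *
            min (ENNReal.ofReal L) (ENNReal.ofReal |(nn L (j + 1) θ x : ℝ) - nn L (j + 1) θ y|) := by
        intro θ
        by_cases h : (x, y) ∈ Sm L j θ
        · rw [indicator_of_mem h]
          unfold g1
          simp only
          have e1 : |hh L (j + 1) θ x - hh L (j + 1) θ y| ≤
              |(nn L (j + 1) θ x : ℝ) - nn L (j + 1) θ y| := by
            unfold hh
            rw [← hs, ← mul_sub, abs_mul]
            have := sg_le x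
            have h8 := abs_nonneg ((nn L (j + 1) θ x : ℝ) - nn L (j + 1) θ y)
            nlinarith
          have e2 : |hh L (j + 1) θ x - hh L (j + 1) θ y| ≤ L := by
            refine e1.trans ?_
            have hn : nn L j θ x = nn L j θ y := by
              rcases ((Hf_eq_iff hL j θ x y).mp h).2 with h4 | h4
              · exact absurd h4 hx
              · exact h4
            have b1 := nn_bounds hL j θ x
            have b2 := nn_bounds hL j θ y
            rw [← hn] at b2
            rw [abs_le]; constructor <;> linarith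
          rw [ENNReal.ofReal_mul (wt_nonneg _ _ _ _)]
          gcongr
          · exact wt_le hL hq0 (j + 1) θ hx
          · rw [← ENNReal.ofReal_min]
            exact ENNReal.ofReal_le_ofReal (le_min e2 e1)
        · rw [indicator_of_notMem h]; exact zero_le
      refine (lintegral_mono hb).trans ?_
      rw [lintegral_const_mul' _ _ ENNReal.ofReal_ne_top, ENNReal.ofReal_mul hc0]
      gcongr
      rw [ENNReal.ofReal_min]
      unfold dd
      rw [if_pos hs]
      refine le_min ?_ ?_
      · calc _ ≤ ∫⁻ _, ENNReal.ofReal L ∂leb := lintegral_mono fun θ => min_le_left _ _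
          _ = _ := by simp
      · rw [mul_min_of_nonneg _ _ hL0.le, ENNReal.ofReal_min]
        refine le_min ?_ ?_
        · calc _ ≤ ∫⁻ _, ENNReal.ofReal L ∂leb := lintegral_mono fun θ => min_le_left _ _
            _ = ENNReal.ofReal L := by simp
            _ ≤ _ := by
              apply ENNReal.ofReal_le_ofReal
              rw [pow_succ, mul_one]; nlinarith
        · exact (lintegral_mono fun θ => min_le_right _ _).trans (nn_avg (j + 1) x y)
  · have : ∀ θ, (Sm L j θ).indicator (g1 L j q θ) (x, y) = 0 := by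
      intro θ
      apply indicator_apply_eq_zero.mpr
      intro h
      exact absurd ((Hf_eq_iff hL j θ x y).mp h).1 hs
    simp only [this, lintegral_zero]; exact zero_le

include hL in
lemma g2_avg {q : ℝ} (hq0 : 0 < q) (j : ℕ) (x y : ℝ) :
    ∫⁻ θ, (Sm L j θ)ᶜ.indicator (g2 L j q θ) (x, y) ∂leb ≤
      ENNReal.ofReal (8 * ((|x| / (L : ℝ) ^ (j + 1)) ^ q + (|y| / (L : ℝ) ^ (j + 1)) ^ q) *
        min (L : ℝ) ((L : ℝ) ^ (j + 1) * dd x y)) := by
  have hLr : (1 : ℝ) ≤ L := by exact_mod_cast (show 1 ≤ L by omega)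
  have hw : ∀ (θ z : ℝ), 2 * ENNReal.ofReal (L * |sg z| * wt L (j + 1) q θ z) ≤
      ENNReal.ofReal (8 * (|z| / (L : ℝ) ^ (j + 1)) ^ q * L) := by
    intro θ z
    rw [show (2 : ℝ≥0∞) = ENNReal.ofReal 2 by simp, ← ENNReal.ofReal_mul (by norm_num)]
    apply ENNReal.ofReal_le_ofReal
    by_cases hz : z = 0
    · have : sg z = 0 := sg_eq_zero.mpr hz
      rw [this, abs_zero, mul_zero, zero_mul, mul_zero]
      positivity
    · have h1 := wt_le hL hq0 (j + 1) θ hz
      have h2 := sg_le z
      have h3 := wt_nonneg (L := L) (j + 1) q θ z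
      have h4 : |sg z| * wt L (j + 1) q θ z ≤ 4 * (|z| / (L : ℝ) ^ (j + 1)) ^ q := by
        have := abs_nonneg (sg z)
        nlinarith
      nlinarith
  have hb : ∀ θ, (Sm L j θ)ᶜ.indicator (g2 L j q θ) (x, y) ≤
      ENNReal.ofReal (8 * ((|x| / (L : ℝ) ^ (j + 1)) ^ q + (|y| / (L : ℝ) ^ (j + 1)) ^ q) * L) *
        (Sm L j θ)ᶜ.indicator 1 (x, y) := by
    intro θ
    by_cases h : (x, y) ∈ (Sm L j θ)ᶜ
    · rw [indicator_of_mem h, indicator_of_mem h, Pi.one_apply, mul_one]
      unfold g2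
      simp only
      refine (add_le_add (hw θ x) (hw θ y)).trans (le_of_eq ?_)
      rw [← ENNReal.ofReal_add (by positivity) (by positivity)]
      congr 1; ring
    · rw [indicator_of_notMem h]; exact zero_le
  refine (lintegral_mono hb).trans ?_
  rw [lintegral_const_mul' _ _ ENNReal.ofReal_ne_top]
  refine (mul_le_mul_right (sep_prob hL j x y) _).trans (le_of_eq ?_)
  rw [← ENNReal.ofReal_mul (by positivity)]
  congr 1
  rw [mul_assoc, mul_min_of_nonneg _ _ (by linarith)]
  congr 2
  · ring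
  · rw [pow_succ]; ring

end

end Pool.Agent.J4H79.PC
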