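import Pool.Agent.J4H79.PC.Step

/-!
# One refinement step for a pair
-/

set_option autoImplicit false

open MeasureTheory Set Filter Topology
open scoped ENNReal NNReal

namespace Pool.Agent.J4H79.PC

open Pool.Agent.R972.PC (leb)

section

variable {L : ℕ} (hL : 2 ≤ L)

include hL in
lemma cell_wt {j : ℕ} {q θ z x : ℝ} (i : ℕ) (h : Hf L j θ x = Hf L j θ z) :
    wt L i q θ x = wt L i q θ z := by
  by_cases hx : x = 0
  · have h1 := ((Hf_eq_iff hL _ _ _ _).mp h).1
    have hz : z = 0 := by rw [← sg_eq_zero, ← h1, sg_eq_zero]; exact hx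
    rw [hx, hz]
  · unfold wt; rw [aa0_eq hL h hx]

lemma wt_nonneg (i : ℕ) (q θ x : ℝ) : 0 ≤ wt L i q θ x := by
  unfold wt
  have := aa_pos L 0 θ x
  positivity

lemma hh_meas1 (j : ℕ) (θ : ℝ) : Measurable (hh L j θ) := by
  unfold hh
  have h2 : Measurable fun x : ℝ => nn L j θ x := by
    have := (nn_meas L j).comp (measurable_const (a := θ) |>.prodMk measurable_id)
    simpa only [Function.comp_def, id] using this
  exact sg_meas.mul ((measurable_from_top (f := fun n : ℤ => (n : ℝ))).comp h2)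

lemma wt_meas1 (i : ℕ) (q θ : ℝ) : Measurable (wt L i q θ) := by
  have h2 : Measurable fun x : ℝ => aa L 0 θ x := by
    have := (aa_meas L 0).comp (measurable_const (a := θ) |>.prodMk measurable_id)
    simpa only [Function.comp_def, id] using this
  unfold wt
  fun_prop

include hL in
/-- bounds of the index in a cell of the previous depth -/
lemma nn_bounds (j : ℕ) (θ x : ℝ) : (L : ℝ) * nn L j θ x ≤ nn L (j + 1) θ x ∧
    (nn L (j + 1) θ x : ℝ) ≤ L * nn L j θ x + L := by
  have hLZ : (0 : ℤ) < L := by exact_mod_cast (show 0 < L by omega)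
  have e1 := nn_nest hL j θ x
  have f1 := Int.emod_nonneg (nn L (j + 1) θ x) hLZ.ne'
  have f2 := Int.emod_lt_of_pos (nn L (j + 1) θ x) hLZ
  have f3 := Int.mul_ediv_add_emod (nn L (j + 1) θ x) (L : ℤ)
  rw [← e1] at f3
  constructor
  · have : (L : ℤ) * nn L j θ x ≤ nn L (j + 1) θ x := by linarith
    exact_mod_cast this
  · have : nn L (j + 1) θ x ≤ (L : ℤ) * nn L j θ x + L := by linarith
    exact_mod_cast this

include hL in
/-- the estimate in one cell -/
lemma cell_step (P Q : Measure ℝ) [IsProbabilityMeasure P] [IsProbabilityMeasure Q]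
    (π ν : Measure (ℝ × ℝ)) [IsProbabilityMeasure π]
    (h1 : π.map Prod.fst = P) (h2 : π.map Prod.snd = Q)
    (n1 : ν.map Prod.fst = P) (n2 : ν.map Prod.snd = Q) (j : ℕ) (q θ z : ℝ) :
    ∫⁻ p in {x | Hf L j θ x = Hf L j θ z} ×ˢ {x | Hf L j θ x = Hf L j θ z},
      (∫⁻ f, ENNReal.ofReal (wt L (j + 1) q θ (st L j P θ p.1 f) *
        |hh L (j + 1) θ (st L j P θ p.1 f) - hh L (j + 1) θ (st L j Q θ p.2 f)|) ∂leb) ∂ν ≤
    ∫⁻ p in {x | Hf L j θ x = Hf L j θ z} ×ˢ {x | Hf L j θ x = Hf L j θ z},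
      ENNReal.ofReal (wt L (j + 1) q θ p.1 *
        |hh L (j + 1) θ p.1 - hh L (j + 1) θ p.2|) ∂π +
    2 * ENNReal.ofReal (L * |sg z| * wt L (j + 1) q θ z) *
      (π ({x | Hf L j θ x = Hf L j θ z} ×ˢ {x | Hf L j θ x = Hf L j θ z}ᶜ) +
        π ({x | Hf L j θ x = Hf L j θ z}ᶜ ×ˢ {x | Hf L j θ x = Hf L j θ z})) := by
  set c := {x | Hf L j θ x = Hf L j θ z} with hcd
  have hc : Upt L j θ z \ Bel L j θ z = c := Upt_diff L j θ z
  have hcm : MeasurableSet c := Hf_meas1 L j θ (measurableSet_singleton _)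
  have e1 : ∀ p ∈ c ×ˢ c, (∫⁻ f, ENNReal.ofReal (wt L (j + 1) q θ (st L j P θ p.1 f) *
        |hh L (j + 1) θ (st L j P θ p.1 f) - hh L (j + 1) θ (st L j Q θ p.2 f)|) ∂leb) =
      ∫⁻ f, ENNReal.ofReal (wt L (j + 1) q θ (st L j P θ z f) *
        |hh L (j + 1) θ (st L j P θ z f) - hh L (j + 1) θ (st L j Q θ z f)|) ∂leb := by
    rintro p ⟨hp1, hp2⟩
    rw [st_congr L j P (show Hf L j θ p.1 = Hf L j θ z from hp1),
      st_congr L j Q (show Hf L j θ p.2 = Hf L j θ z from hp2)]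
  rw [setLIntegral_congr_fun (hcm.prod hcm) e1, lintegral_const, Measure.restrict_apply_univ]
  have m1 : ν (c ×ˢ c) ≤ P c := by
    rw [← n1, Measure.map_apply measurable_fst hcm]
    exact measure_mono fun p hp => hp.1
  have m2 : ν (c ×ˢ c) ≤ Q c := by
    rw [← n2, Measure.map_apply measurable_snd hcm]
    exact measure_mono fun p hp => hp.2
  by_cases hP0 : P c = 0
  · rw [le_antisymm (m1.trans hP0.le) zero_le, mul_zero]; exact zero_le
  by_cases hQ0 : Q c = 0
  · rw [le_antisymm (m2.trans hQ0.le) zero_le, mul_zero]; exact zero_le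
  have hmP : 0 < P.real c := ENNReal.toReal_pos hP0 (measure_ne_top _ _)
  have hmQ : 0 < Q.real c := ENNReal.toReal_pos hQ0 (measure_ne_top _ _)
  have m3 : ν (c ×ˢ c) ≤ ENNReal.ofReal (min (P.real c) (Q.real c)) := by
    rw [ENNReal.ofReal_min, ofReal_measureReal, ofReal_measureReal]
    exact le_min m1 m2
  set w := wt L (j + 1) q θ z with hw
  have hw0 : 0 ≤ w := wt_nonneg _ _ _ _
  set h : ℝ → ℝ := fun x => w * hh L (j + 1) θ x with hhd
  have hhm : Measurable h := (hh_meas1 (j + 1) θ).const_mul w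
  have hmono : MonotoneOn h c := by
    intro x hx y hy hxy
    have hs : sg x = sg y := by
      have a := ((Hf_eq_iff hL _ _ _ _).mp hx).1
      have b := ((Hf_eq_iff hL _ _ _ _).mp hy).1
      rw [a, b]
    apply mul_le_mul_of_nonneg_left _ hw0
    unfold hh
    rw [← hs]
    rcases sg_cases x with ⟨c1, e1⟩ | ⟨c1, e1⟩ | ⟨c1, e1⟩ <;>
    rcases sg_cases y with ⟨c2, e2⟩ | ⟨c2, e2⟩ | ⟨c2, e2⟩ <;> rw [e1, e2] at hs <;> rw [e1] <;>
      first
        | (exfalso; linarith)
        | skip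
    · have := nn_mono (L := L) (j + 1) θ (x := y) (y := x) c2.ne
        (by rw [abs_of_neg c1, abs_of_neg c2]; linarith)
      have h3 : (nn L (j + 1) θ y : ℝ) ≤ nn L (j + 1) θ x := by exact_mod_cast this
      linarith
    · simp
    · have := nn_mono (L := L) (j + 1) θ (x := x) (y := y) c1.ne'
        (by rw [abs_of_pos c1, abs_of_pos c2]; linarith)
      have h3 : (nn L (j + 1) θ x : ℝ) ≤ nn L (j + 1) θ y := by exact_mod_cast this
      linarith
  -- the range
  obtain ⟨J, hJ, hab, hvol⟩ : ∃ J : Set ℝ, MeasurableSet J ∧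
      (∀ x ∈ c, ∀ y ∈ c, Ioc (h x) (h y) ⊆ J) ∧ volume J ≤ ENNReal.ofReal (L * |sg z| * w) := by
    by_cases hz : z = 0
    · refine ⟨∅, MeasurableSet.empty, ?_, by simp⟩
      intro x hx y hy
      have a := ((Hf_eq_iff hL _ _ _ _).mp hx).1
      have b := ((Hf_eq_iff hL _ _ _ _).mp hy).1
      have hx0 : x = 0 := by rw [← sg_eq_zero, a, sg_eq_zero]; exact hz
      have hy0 : y = 0 := by rw [← sg_eq_zero, b, sg_eq_zero]; exact hz
      rw [hx0, hy0]; simp
    · have hlab : ∀ x ∈ c, sg x = sg z ∧ nn L j θ x = nn L j θ z := by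
        intro x hx
        have a := (Hf_eq_iff hL _ _ _ _).mp hx
        refine ⟨a.1, ?_⟩
        rcases a.2 with h3 | h3
        · exfalso; apply hz; rw [← sg_eq_zero, ← a.1, sg_eq_zero]; exact h3
        · exact h3
      obtain ⟨a, b, hab, hba⟩ : ∃ a b : ℝ, (∀ x ∈ c, a ≤ hh L (j + 1) θ x ∧
          hh L (j + 1) θ x ≤ b) ∧ b - a = L * |sg z| := by
        rcases sg_cases z with ⟨c1, e1⟩ | ⟨c1, e1⟩ | ⟨c1, e1⟩
        · refine ⟨-(L * nn L j θ z + L), -(L * nn L j θ z), ?_, by rw [e1]; norm_num⟩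
          intro x hx
          have h3 := hlab x hx
          have h4 := nn_bounds hL j θ x
          unfold hh
          rw [h3.1, e1]; rw [h3.2] at h4
          constructor <;> linarith
        · exact absurd c1 hz
        · refine ⟨(L * nn L j θ z), (L * nn L j θ z + L), ?_, by rw [e1]; norm_num⟩
          intro x hx
          have h3 := hlab x hx
          have h4 := nn_bounds hL j θ x
          unfold hh
          rw [h3.1, e1]; rw [h3.2] at h4
          constructor <;> linarith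
      refine ⟨Ioc (w * a) (w * b), measurableSet_Ioc, ?_, ?_⟩
      · intro x hx y hy
        apply Ioc_subset_Ioc
        · exact mul_le_mul_of_nonneg_left (hab x hx).1 hw0
        · exact mul_le_mul_of_nonneg_left (hab y hy).2 hw0
      · rw [Real.volume_Ioc, ← mul_sub, hba, mul_comm]
  have hnode := node P Q π h1 h2 (Bel_lower L j θ z) (Upt_lower L j θ z) (Bel_sub L j θ z)
    (by rw [hc]; exact hmP) (by rw [hc]; exact hmQ) hhm (by rw [hc]; exact hmono) hJ
    (by rw [hc]; exact hab)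
  rw [hc] at hnode
  -- rewrite the left side
  have e2 : ∫⁻ f, ENNReal.ofReal (wt L (j + 1) q θ (st L j P θ z f) *
        |hh L (j + 1) θ (st L j P θ z f) - hh L (j + 1) θ (st L j Q θ z f)|) ∂leb =
      ∫⁻ f in Ioo 0 1, ENNReal.ofReal |h (rs P (Bel L j θ z) (Upt L j θ z) f) -
        h (rs Q (Bel L j θ z) (Upt L j θ z) f)| := by
    rw [Pool.Agent.R972.PC.leb, ← setLIntegral_congr Ioo_ae_eq_Icc]
    apply setLIntegral_congr_fun measurableSet_Ioo
    intro f hf
    have k1 := rs_cell P (Bel_lower L j θ z) (Upt_lower L j θ z) (Bel_sub L j θ z) hf.1 hf.2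
      (by rw [hc]; exact hmP)
    rw [hc] at k1
    simp only
    congr 1
    have k2 : wt L (j + 1) q θ (st L j P θ z f) = w := cell_wt hL (j + 1) k1
    rw [k2, hhd]
    simp only
    rw [← mul_sub, abs_mul, abs_of_nonneg hw0]
    rfl
  have e3 : ∫⁻ p in c ×ˢ c, ENNReal.ofReal |h p.1 - h p.2| ∂π =
      ∫⁻ p in c ×ˢ c, ENNReal.ofReal (wt L (j + 1) q θ p.1 *
        |hh L (j + 1) θ p.1 - hh L (j + 1) θ p.2|) ∂π := by
    apply setLIntegral_congr_fun (hcm.prod hcm)
    rintro p ⟨hp1, hp2⟩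
    simp only
    congr 1
    rw [cell_wt hL (j + 1) (show Hf L j θ p.1 = Hf L j θ z from hp1), hhd]
    simp only
    rw [← mul_sub, abs_mul, abs_of_nonneg hw0]
  rw [e2, mul_comm]
  rw [e3] at hnode
  refine (mul_le_mul_left m3 _).trans (hnode.trans ?_)
  gcongr

end

end Pool.Agent.J4H79.PC
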