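import Pool.Agent.J4H79.PC.Node

/-!
# The multiplicative grids
-/

set_option autoImplicit false

open MeasureTheory Set Filter Topology
open scoped ENNReal NNReal

namespace Pool.Agent.J4H79.PC

/-- the index of `x` in the grid of depth `j` -/
noncomputable def nn (L j : ℕ) (θ x : ℝ) : ℤ := ⌊(L : ℝ) ^ j * (Real.logb 2 |x| - θ)⌋

/-- the inner end point of the cell of `x` -/
noncomputable def aa (L j : ℕ) (θ x : ℝ) : ℝ := (2 : ℝ) ^ ((nn L j θ x : ℝ) / (L : ℝ) ^ j + θ)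

/-- the sign -/
noncomputable def sg (x : ℝ) : ℝ := if x < 0 then -1 else if 0 < x then 1 else 0

/-- the label of the cell -/
noncomputable def Hf (L j : ℕ) (θ x : ℝ) : ℝ := sg x * aa L j θ x

lemma sg_cases (x : ℝ) : (x < 0 ∧ sg x = -1) ∨ (x = 0 ∧ sg x = 0) ∨ (0 < x ∧ sg x = 1) := by
  unfold sg
  rcases lt_trichotomy x 0 with h | h | h
  · left; exact ⟨h, if_pos h⟩
  · right; left; subst h; simp
  · right; right; refine ⟨h, ?_⟩; rw [if_neg (not_lt.mpr h.le), if_pos h]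

lemma aa_pos (L j : ℕ) (θ x : ℝ) : 0 < aa L j θ x := Real.rpow_pos_of_pos (by norm_num) _

section

variable {L : ℕ} (hL : 2 ≤ L)

include hL in
lemma Lj_pos (j : ℕ) : (0 : ℝ) < (L : ℝ) ^ j := by
  have : (0 : ℝ) < L := by exact_mod_cast (show 0 < L by omega)
  positivity

include hL in
lemma aa_le (j : ℕ) (θ : ℝ) {x : ℝ} (hx : x ≠ 0) : aa L j θ x ≤ |x| := by
  have h0 := Lj_pos hL j
  have hx' : 0 < |x| := abs_pos.mpr hx
  rw [aa, ← Real.le_logb_iff_rpow_le (by norm_num) hx']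
  have h1 : (nn L j θ x : ℝ) ≤ (L : ℝ) ^ j * (Real.logb 2 |x| - θ) := Int.floor_le _
  have h2 : (nn L j θ x : ℝ) / (L : ℝ) ^ j ≤ Real.logb 2 |x| - θ := by
    rw [div_le_iff₀ h0]; linarith
  linarith

include hL in
lemma lt_aa (j : ℕ) (θ : ℝ) {x : ℝ} (hx : x ≠ 0) :
    |x| < (2 : ℝ) ^ (((nn L j θ x : ℝ) + 1) / (L : ℝ) ^ j + θ) := by
  have h0 := Lj_pos hL j
  have hx' : 0 < |x| := abs_pos.mpr hx
  rw [← Real.logb_lt_iff_lt_rpow (by norm_num) hx']
  have h1 : (L : ℝ) ^ j * (Real.logb 2 |x| - θ) < (nn L j θ x : ℝ) + 1 := Int.lt_floor_add_one _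
  have h2 : Real.logb 2 |x| - θ < ((nn L j θ x : ℝ) + 1) / (L : ℝ) ^ j := by
    rw [lt_div_iff₀ h0]; linarith
  linarith

lemma nn_mono (j : ℕ) (θ : ℝ) {x y : ℝ} (hx : x ≠ 0) (h : |x| ≤ |y|) :
    nn L j θ x ≤ nn L j θ y := by
  apply Int.floor_le_floor
  have hx' : 0 < |x| := abs_pos.mpr hx
  have := Real.logb_le_logb_of_le (b := 2) (by norm_num) hx' h
  have h0 : (0 : ℝ) ≤ (L : ℝ) ^ j := by positivity
  nlinarith

lemma aa_mono (j : ℕ) (θ : ℝ) {x y : ℝ} (hx : x ≠ 0) (h : |x| ≤ |y|) :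
    aa L j θ x ≤ aa L j θ y := by
  unfold aa
  apply Real.rpow_le_rpow_of_exponent_le (by norm_num)
  have h1 : (nn L j θ x : ℝ) ≤ nn L j θ y := by exact_mod_cast nn_mono j θ hx h
  have : (nn L j θ x : ℝ) / (L : ℝ) ^ j ≤ (nn L j θ y : ℝ) / (L : ℝ) ^ j := by gcongr
  linarith

lemma Hf_mono (j : ℕ) (θ : ℝ) : Monotone (Hf L j θ) := by
  intro x y hxy
  have ax := aa_pos L j θ x
  have ay := aa_pos L j θ y
  unfold Hf
  rcases sg_cases x with ⟨h1, e1⟩ | ⟨h1, e1⟩ | ⟨h1, e1⟩ <;>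
  rcases sg_cases y with ⟨h2, e2⟩ | ⟨h2, e2⟩ | ⟨h2, e2⟩ <;> rw [e1, e2]
  · have := aa_mono (L := L) j θ (x := y) (y := x) h2.ne
      (by rw [abs_of_neg h1, abs_of_neg h2]; linarith)
    linarith
  · linarith
  · linarith
  · linarith
  · linarith
  · linarith
  · linarith
  · linarith
  · have := aa_mono (L := L) j θ (x := x) (y := y) h1.ne'
      (by rw [abs_of_pos h1, abs_of_pos h2]; linarith)
    linarith

include hL in
lemma aa_inj (j : ℕ) (θ : ℝ) {x y : ℝ} (h : aa L j θ x = aa L j θ y) :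
    nn L j θ x = nn L j θ y := by
  unfold aa at h
  have h0 := Lj_pos hL j
  have h1 : (nn L j θ x : ℝ) / (L : ℝ) ^ j + θ = (nn L j θ y : ℝ) / (L : ℝ) ^ j + θ := by
    have := congrArg (Real.logb 2) h
    rwa [Real.logb_rpow (by norm_num) (by norm_num), Real.logb_rpow (by norm_num) (by norm_num)]
      at this
  have h2 : (nn L j θ x : ℝ) = nn L j θ y := by
    have h3 : (nn L j θ x : ℝ) / (L : ℝ) ^ j = (nn L j θ y : ℝ) / (L : ℝ) ^ j := by linarith
    field_simp at h3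
    exact h3
  exact_mod_cast h2

include hL in
/-- equality of labels -/
lemma Hf_eq_iff (j : ℕ) (θ : ℝ) (x y : ℝ) : Hf L j θ x = Hf L j θ y ↔
    sg x = sg y ∧ (x = 0 ∨ nn L j θ x = nn L j θ y) := by
  have ax := aa_pos L j θ x
  have ay := aa_pos L j θ y
  constructor
  · intro h
    unfold Hf at h
    rcases sg_cases x with ⟨h1, e1⟩ | ⟨h1, e1⟩ | ⟨h1, e1⟩ <;>
    rcases sg_cases y with ⟨h2, e2⟩ | ⟨h2, e2⟩ | ⟨h2, e2⟩ <;> rw [e1, e2] at h <;>
      first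
        | (exfalso; linarith)
        | exact ⟨by rw [e1, e2], Or.inr (aa_inj hL j θ (by linarith))⟩
        | exact ⟨by rw [e1, e2], Or.inl h1⟩
  · rintro ⟨h1, h2⟩
    unfold Hf
    rcases h2 with h2 | h2
    · subst h2
      have : sg (0 : ℝ) = 0 := by unfold sg; simp
      rw [← h1, this]; simp
    · rw [h1]; unfold aa; rw [h2]

include hL in
lemma nn_nest (j : ℕ) (θ x : ℝ) : nn L j θ x = nn L (j + 1) θ x / (L : ℤ) := by
  unfold nn
  rw [show (L : ℝ) ^ (j + 1) * (Real.logb 2 |x| - θ) = (L : ℝ) *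
    ((L : ℝ) ^ j * (Real.logb 2 |x| - θ)) by ring]
  rw [Int.natCast_mul_floor_div_cancel (by omega)]

include hL in
lemma Hf_nest (j : ℕ) (θ : ℝ) {x y : ℝ} (h : Hf L (j + 1) θ x = Hf L (j + 1) θ y) :
    Hf L j θ x = Hf L j θ y := by
  rw [Hf_eq_iff hL] at h ⊢
  refine ⟨h.1, ?_⟩
  rcases h.2 with h2 | h2
  · exact Or.inl h2
  · right; rw [nn_nest hL j θ x, nn_nest hL j θ y, h2]

include hL in
lemma Hf_nest_le {i j : ℕ} (hij : i ≤ j) (θ : ℝ) {x y : ℝ} (h : Hf L j θ x = Hf L j θ y) :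
    Hf L i θ x = Hf L i θ y := by
  induction j, hij using Nat.le_induction with
  | base => exact h
  | succ j hij ih => exact ih (Hf_nest hL j θ h)

lemma sg_abs (x : ℝ) : sg x * |x| = x := by
  rcases sg_cases x with ⟨h1, e1⟩ | ⟨h1, e1⟩ | ⟨h1, e1⟩ <;> rw [e1]
  · rw [abs_of_neg h1]; ring
  · rw [h1]; simp
  · rw [abs_of_pos h1]; ring

lemma sg_le (x : ℝ) : |sg x| ≤ 1 := by
  rcases sg_cases x with ⟨h1, e1⟩ | ⟨h1, e1⟩ | ⟨h1, e1⟩ <;> rw [e1] <;> norm_num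

lemma sg_eq_zero {x : ℝ} : sg x = 0 ↔ x = 0 := by
  rcases sg_cases x with ⟨h1, e1⟩ | ⟨h1, e1⟩ | ⟨h1, e1⟩ <;> rw [e1]
  · constructor
    · intro h; norm_num at h
    · intro h; linarith
  · simp [h1]
  · constructor
    · intro h; norm_num at h
    · intro h; linarith

/-! ### measurability -/

lemma sg_meas : Measurable sg := by
  unfold sg
  exact Measurable.ite measurableSet_Iio measurable_const
    (Measurable.ite measurableSet_Ioi measurable_const measurable_const)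

lemma nn_meas (L j : ℕ) : Measurable fun p : ℝ × ℝ => nn L j p.1 p.2 := by
  unfold nn
  apply Measurable.floor
  unfold Real.logb
  fun_prop

lemma aa_meas (L j : ℕ) : Measurable fun p : ℝ × ℝ => aa L j p.1 p.2 := by
  unfold aa
  have h := nn_meas L j
  have h2 : Measurable fun p : ℝ × ℝ => (nn L j p.1 p.2 : ℝ) := by
    exact (measurable_from_top (f := fun n : ℤ => (n : ℝ))).comp h
  fun_prop

lemma Hf_meas (L j : ℕ) : Measurable fun p : ℝ × ℝ => Hf L j p.1 p.2 := by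
  unfold Hf
  exact (sg_meas.comp measurable_snd).mul (aa_meas L j)

/-! ### bounds -/

/-- `2^t ≤ 1 + t` on `[0,1]` -/
lemma two_rpow_le {t : ℝ} (h0 : 0 ≤ t) (h1 : t ≤ 1) : (2 : ℝ) ^ t ≤ 1 + t := by
  have := rpow_one_add_le_one_add_mul_self (s := 1) (by norm_num) h0 h1
  norm_num at this
  linarith

include hL in
lemma nn_zero_le (j : ℕ) (θ x : ℝ) : (nn L 0 θ x : ℝ) ≤ (nn L j θ x : ℝ) / (L : ℝ) ^ j := by
  have h0 := Lj_pos hL j
  rw [le_div_iff₀ h0]
  have h1 : nn L 0 θ x * (L : ℤ) ^ j ≤ nn L j θ x := by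
    unfold nn
    apply Int.le_floor.mpr
    push_cast
    have := Int.floor_le ((L : ℝ) ^ 0 * (Real.logb 2 |x| - θ))
    rw [pow_zero, one_mul] at this
    rw [pow_zero, one_mul]
    nlinarith
  exact_mod_cast h1

include hL in
lemma aa_zero_le (j : ℕ) (θ x : ℝ) : aa L 0 θ x ≤ aa L j θ x := by
  unfold aa
  apply Real.rpow_le_rpow_of_exponent_le (by norm_num)
  have := nn_zero_le hL j θ x
  rw [pow_zero, div_one]; linarith

include hL in
lemma lt_two_aa (θ : ℝ) {x : ℝ} (hx : x ≠ 0) : |x| < 2 * aa L 0 θ x := by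
  have := lt_aa hL 0 θ hx
  unfold aa
  rw [pow_zero, div_one] at this ⊢
  rw [show (nn L 0 θ x : ℝ) + 1 + θ = 1 + ((nn L 0 θ x : ℝ) + θ) by ring,
    Real.rpow_add (by norm_num), Real.rpow_one] at this
  exact this

include hL in
lemma lt_aa' (j : ℕ) (θ : ℝ) {x : ℝ} (hx : x ≠ 0) :
    |x| < aa L j θ x * (2 : ℝ) ^ (1 / (L : ℝ) ^ j) := by
  have := lt_aa hL j θ hx
  unfold aa
  rw [← Real.rpow_add (by norm_num)]
  convert this using 2
  ring

include hL in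
lemma one_div_Lj (j : ℕ) : 0 ≤ 1 / (L : ℝ) ^ j ∧ 1 / (L : ℝ) ^ j ≤ 1 := by
  have h0 := Lj_pos hL j
  refine ⟨by positivity, ?_⟩
  rw [div_le_one h0]
  have : (1 : ℝ) ≤ L := by exact_mod_cast (show 1 ≤ L by omega)
  exact one_le_pow₀ this

include hL in
lemma same_cell (j : ℕ) (θ : ℝ) {x y : ℝ} (h : Hf L j θ x = Hf L j θ y) :
    |x - y| ≤ |x| / (L : ℝ) ^ j := by
  have h0 := Lj_pos hL j
  rw [Hf_eq_iff hL] at h
  by_cases hx : x = 0
  · have : sg y = 0 := by rw [← h.1, sg_eq_zero]; exact hx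
    rw [sg_eq_zero] at this
    rw [hx, this]; simp
  · have hy : y ≠ 0 := by
      intro hy; apply hx; rw [← sg_eq_zero, h.1, sg_eq_zero]; exact hy
    have hn : nn L j θ x = nn L j θ y := by
      rcases h.2 with h2 | h2
      · exact absurd h2 hx
      · exact h2
    have ha : aa L j θ y = aa L j θ x := by unfold aa; rw [hn]
    have h1 := aa_le hL j θ hx
    have h2 := aa_le hL j θ hy
    have h3 := lt_aa' hL j θ hx
    have h4 := lt_aa' hL j θ hy
    rw [ha] at h2 h4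
    have h5 := two_rpow_le (one_div_Lj hL j).1 (one_div_Lj hL j).2
    have h6 : x - y = sg x * (|x| - |y|) := by
      rw [mul_sub, sg_abs]; rw [h.1, sg_abs]
    have h7 : |x - y| ≤ |(|x| - |y|)| := by
      rw [h6, abs_mul]
      have := sg_le x
      have h8 := abs_nonneg (|x| - |y|)
      nlinarith
    have ha0 := aa_pos L j θ x
    have h8 : aa L j θ x * (2 : ℝ) ^ (1 / (L : ℝ) ^ j) ≤ aa L j θ x * (1 + 1 / (L : ℝ) ^ j) :=
      mul_le_mul_of_nonneg_left h5 ha0.le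
    have h9 : aa L j θ x * (1 / (L : ℝ) ^ j) ≤ |x| * (1 / (L : ℝ) ^ j) :=
      mul_le_mul_of_nonneg_right h1 (one_div_Lj hL j).1
    have h10 : |(|x| - |y|)| ≤ aa L j θ x * (1 / (L : ℝ) ^ j) := by
      rw [abs_le]; constructor <;> nlinarith
    calc |x - y| ≤ |x| * (1 / (L : ℝ) ^ j) := by linarith
      _ = _ := by ring

include hL in
lemma zero_cell (θ : ℝ) {x y : ℝ} (h : Hf L 0 θ x = Hf L 0 θ y) : |y| ≤ 2 * |x| := by
  have := same_cell hL 0 θ h
  rw [pow_zero, div_one] at this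
  have h2 := abs_sub_abs_le_abs_sub y x
  rw [abs_sub_comm] at h2
  linarith

end

end Pool.Agent.J4H79.PC
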