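import Pool.Agent.J4H79.PC.Path

/-!
# The refinement chain
-/

set_option autoImplicit false

open MeasureTheory Set Filter Topology
open scoped ENNReal NNReal

namespace Pool.Agent.J4H79.PC

open Pool.Agent.R972.PC (leb)

instance : IsProbabilityMeasure leb := by
  constructor
  rw [Pool.Agent.R972.PC.leb, Measure.restrict_apply_univ, Real.volume_Icc]
  norm_num

lemma exists_D : ∃ D : ℝ → ℝ × ℝ, Measurable D ∧ leb.map D = leb.prod leb := by
  obtain ⟨f, hf, hfm⟩ := Measure.exists_measurable_map_eq (leb.prod leb)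
  have hp : Measurable (projIcc (0 : ℝ) 1 zero_le_one) := continuous_projIcc.measurable
  refine ⟨f ∘ projIcc 0 1 zero_le_one, hf.comp hp, ?_⟩
  have h1 : leb = (volume : Measure unitInterval).map Subtype.val := by
    rw [Pool.Agent.R972.PC.leb]
    exact (map_comap_subtype_coe measurableSet_Icc _).symm
  rw [h1, Measure.map_map (hf.comp hp) measurable_subtype_coe, ← h1]
  have h2 : (f ∘ projIcc 0 1 zero_le_one) ∘ (Subtype.val : unitInterval → ℝ) = f := by
    ext1 x
    simp only [Function.comp_apply]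
    rw [projIcc_val]
  rw [h2, hfm]

/-- a measurable map splitting one uniform variable into two -/
noncomputable def DD : ℝ → ℝ × ℝ := exists_D.choose

lemma DD_meas : Measurable DD := exists_D.choose_spec.1
lemma DD_map : leb.map DD = leb.prod leb := exists_D.choose_spec.2

/-- the remaining randomness after `j` steps -/
noncomputable def rr : ℕ → ℝ → ℝ
  | 0 => fun r => r
  | j + 1 => fun r => (DD (rr j r)).2

/-- the fresh uniform variable of step `j` -/
noncomputable def ff (j : ℕ) (r : ℝ) : ℝ := (DD (rr j r)).1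

lemma rr_meas (j : ℕ) : Measurable (rr j) := by
  induction j with
  | zero => exact measurable_id
  | succ j ih => exact measurable_snd.comp (DD_meas.comp ih)

lemma ff_meas (j : ℕ) : Measurable (ff j) := measurable_fst.comp (DD_meas.comp (rr_meas j))

/-- splitting off a fresh uniform variable -/
lemma split_law {S : Type*} [MeasurableSpace S] {μ : Measure S} [IsProbabilityMeasure μ]
    {s : ℝ → S} {r' : ℝ → ℝ} (hs : Measurable s) (hr : Measurable r')
    (h : leb.map (fun r => (s r, r' r)) = μ.prod leb) :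
    leb.map (fun r => ((s r, (DD (r' r)).1), (DD (r' r)).2)) = (μ.prod leb).prod leb := by
  have e1 : leb.map (fun r => (s r, DD (r' r))) = μ.prod (leb.prod leb) := by
    have : (fun r => (s r, DD (r' r))) = (Prod.map id DD) ∘ (fun r => (s r, r' r)) := rfl
    rw [this, ← Measure.map_map (measurable_id.prodMap DD_meas) (hs.prodMk hr), h,
      ← Measure.map_prod_map _ _ measurable_id DD_meas, Measure.map_id, DD_map]
  have e2 : (fun r => ((s r, (DD (r' r)).1), (DD (r' r)).2)) =
      MeasurableEquiv.prodAssoc.symm ∘ (fun r => (s r, DD (r' r))) := rfl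
  have hm : Measurable (fun r => (s r, DD (r' r))) := hs.prodMk (DD_meas.comp hr)
  rw [e2, ← Measure.map_map MeasurableEquiv.prodAssoc.symm.measurable hm, e1,
    ← Measure.prodAssoc_prod,
    Measure.map_map MeasurableEquiv.prodAssoc.symm.measurable MeasurableEquiv.prodAssoc.measurable]
  simp

/-- one step of a chain driven by fresh uniform variables -/
lemma step_law {S S' : Type*} [MeasurableSpace S] [MeasurableSpace S'] {μ : Measure S}
    [IsProbabilityMeasure μ] {s : ℝ → S} {r' : ℝ → ℝ} (hs : Measurable s) (hr : Measurable r')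
    (h : leb.map (fun r => (s r, r' r)) = μ.prod leb) {T : S × ℝ → S'} (hT : Measurable T) :
    leb.map (fun r => (T (s r, (DD (r' r)).1), (DD (r' r)).2)) =
      ((μ.prod leb).map T).prod leb := by
  have e := split_law hs hr h
  have : (fun r => (T (s r, (DD (r' r)).1), (DD (r' r)).2)) =
      (Prod.map T id) ∘ (fun r => ((s r, (DD (r' r)).1), (DD (r' r)).2)) := rfl
  have hm : Measurable (fun r => ((s r, (DD (r' r)).1), (DD (r' r)).2)) :=
    (hs.prodMk (measurable_fst.comp (DD_meas.comp hr))).prodMk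
      (measurable_snd.comp (DD_meas.comp hr))
  rw [this, ← Measure.map_map (hT.prodMap measurable_id) hm, e,
    ← Measure.map_prod_map _ _ hT measurable_id, Measure.map_id]

lemma fresh_law {S : Type*} [MeasurableSpace S] {μ : Measure S} [IsProbabilityMeasure μ]
    {s : ℝ → S} {r' : ℝ → ℝ} (hs : Measurable s) (hr : Measurable r')
    (h : leb.map (fun r => (s r, r' r)) = μ.prod leb) :
    leb.map (fun r => (s r, (DD (r' r)).1)) = μ.prod leb := by
  have e := split_law hs hr h
  have e2 : (fun r => (s r, (DD (r' r)).1)) =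
    Prod.fst ∘ (fun r => ((s r, (DD (r' r)).1), (DD (r' r)).2)) := rfl
  have hm : Measurable (fun r => ((s r, (DD (r' r)).1), (DD (r' r)).2)) :=
    (hs.prodMk (measurable_fst.comp (DD_meas.comp hr))).prodMk
      (measurable_snd.comp (DD_meas.comp hr))
  rw [e2, ← Measure.map_map measurable_fst hm, e]
  simp

/-! ### the steps -/

/-- points with smaller label -/
def Bel (L j : ℕ) (θ z : ℝ) : Set ℝ := {x | Hf L j θ x < Hf L j θ z}
/-- points with label at most that of `z` -/
def Upt (L j : ℕ) (θ z : ℝ) : Set ℝ := {x | Hf L j θ x ≤ Hf L j θ z}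

lemma Bel_lower (L j : ℕ) (θ z : ℝ) : IsLowerSet (Bel L j θ z) :=
  fun _ _ h hx => lt_of_le_of_lt (Hf_mono j θ h) hx
lemma Upt_lower (L j : ℕ) (θ z : ℝ) : IsLowerSet (Upt L j θ z) :=
  fun _ _ h hx => (Hf_mono j θ h).trans hx
lemma Bel_sub (L j : ℕ) (θ z : ℝ) : Bel L j θ z ⊆ Upt L j θ z := fun _ hx => le_of_lt (show Hf L j θ _ < Hf L j θ z from hx)
lemma Upt_diff (L j : ℕ) (θ z : ℝ) : Upt L j θ z \ Bel L j θ z = {x | Hf L j θ x = Hf L j θ z} := by
  ext x
  simp only [Upt, Bel, Set.mem_sdiff, mem_ofPred_eq, not_lt]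
  constructor
  · rintro ⟨h1, h2⟩; exact le_antisymm h1 h2
  · intro h; exact ⟨h.le, h.ge⟩

/-- one refinement step -/
noncomputable def st (L j : ℕ) (P : Measure ℝ) (θ z f : ℝ) : ℝ :=
  rs P (Bel L j θ z) (Upt L j θ z) f

lemma belR_meas (L j : ℕ) (P : Measure ℝ) [IsProbabilityMeasure P] :
    Measurable fun p : ℝ × ℝ => P.real (Bel L j p.1 p.2) := by
  have hH := Hf_meas L j
  have e1 : Measurable fun p : (ℝ × ℝ) × ℝ => (p.1.1, p.2) := by fun_prop
  have h3 : Measurable fun p : (ℝ × ℝ) × ℝ => Hf L j p.1.1 p.2 := hH.comp e1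
  have h4 : Measurable fun p : (ℝ × ℝ) × ℝ => Hf L j p.1.1 p.1.2 := hH.comp measurable_fst
  have hs : MeasurableSet {p : (ℝ × ℝ) × ℝ | Hf L j p.1.1 p.2 < Hf L j p.1.1 p.1.2} :=
    measurableSet_lt h3 h4
  have h5 := measurable_measure_prodMk_left (ν := P) hs
  exact h5.ennreal_toReal

lemma celR_meas (L j : ℕ) (P : Measure ℝ) [IsProbabilityMeasure P] :
    Measurable fun p : ℝ × ℝ => P.real {x | Hf L j p.1 x = Hf L j p.1 p.2} := by
  have hH := Hf_meas L j
  have e1 : Measurable fun p : (ℝ × ℝ) × ℝ => (p.1.1, p.2) := by fun_prop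
  have h3 : Measurable fun p : (ℝ × ℝ) × ℝ => Hf L j p.1.1 p.2 := hH.comp e1
  have h4 : Measurable fun p : (ℝ × ℝ) × ℝ => Hf L j p.1.1 p.1.2 := hH.comp measurable_fst
  have hs : MeasurableSet {p : (ℝ × ℝ) × ℝ | Hf L j p.1.1 p.2 = Hf L j p.1.1 p.1.2} :=
    measurableSet_eq_fun h3 h4
  have h5 := measurable_measure_prodMk_left (ν := P) hs
  exact h5.ennreal_toReal

lemma st_eq (L j : ℕ) (P : Measure ℝ) (θ z f : ℝ) : st L j P θ z f =
    zq P (P.real (Bel L j θ z) + f * P.real {x | Hf L j θ x = Hf L j θ z}) := by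
  unfold st rs; rw [Upt_diff]

lemma st_meas1 (L j : ℕ) (P : Measure ℝ) [IsProbabilityMeasure P] :
    Measurable fun p : ℝ × ℝ × ℝ => P.real (Bel L j p.1 p.2.1) := by
  have e : Measurable fun p : ℝ × ℝ × ℝ => (p.1, p.2.1) := by fun_prop
  have h := (belR_meas L j P).comp e
  simpa only [Function.comp_def] using h

lemma st_meas2 (L j : ℕ) (P : Measure ℝ) [IsProbabilityMeasure P] :
    Measurable fun p : ℝ × ℝ × ℝ => P.real {x | Hf L j p.1 x = Hf L j p.1 p.2.1} := by
  have e : Measurable fun p : ℝ × ℝ × ℝ => (p.1, p.2.1) := by fun_prop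
  have h := (celR_meas L j P).comp e
  simpa only [Function.comp_def] using h

lemma st_meas (L j : ℕ) (P : Measure ℝ) [IsProbabilityMeasure P] :
    Measurable fun p : ℝ × ℝ × ℝ => st L j P p.1 p.2.1 p.2.2 := by
  simp only [st_eq]
  have e : Measurable fun p : ℝ × ℝ × ℝ => p.2.2 := by fun_prop
  have h := (zq_measurable P).comp ((st_meas1 L j P).add (e.mul (st_meas2 L j P)))
  simpa only [Function.comp_def, Pi.add_apply, Pi.mul_apply] using h

/-- the chain -/
noncomputable def zz (L : ℕ) (P : Measure ℝ) : ℕ → ℝ → ℝ → ℝ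
  | 0 => fun _ r => zq P (ff 0 r)
  | j + 1 => fun θ r => st L j P θ (zz L P j θ r) (ff (j + 1) r)

lemma zz_succ (L : ℕ) (P : Measure ℝ) (j : ℕ) (θ r : ℝ) :
    zz L P (j + 1) θ r = st L j P θ (zz L P j θ r) (ff (j + 1) r) := rfl

lemma zz_zero (L : ℕ) (P : Measure ℝ) (θ r : ℝ) : zz L P 0 θ r = zq P (ff 0 r) := rfl

lemma zz_meas (L : ℕ) (P : Measure ℝ) [IsProbabilityMeasure P] (j : ℕ) :
    Measurable fun p : ℝ × ℝ => zz L P j p.1 p.2 := by
  induction j with
  | zero => exact (zq_measurable P).comp ((ff_meas 0).comp measurable_snd)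
  | succ j ih =>
    have h1 : Measurable fun p : ℝ × ℝ => (p.1, zz L P j p.1 p.2, ff (j + 1) p.2) :=
      measurable_fst.prodMk (ih.prodMk ((ff_meas (j + 1)).comp measurable_snd))
    have h2 := (st_meas L j P).comp h1
    simp only [zz_succ]
    simpa only [Function.comp_def] using h2

end Pool.Agent.J4H79.PC
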