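import Pool.Agent.J4H79.PC.Avg

/-!
# The coupling
-/

set_option autoImplicit false

open MeasureTheory Set Filter Topology
open scoped ENNReal NNReal

namespace Pool.Agent.J4H79.PC

open Pool.Agent.R972.PC (leb)

lemma dist_dd {q : ℝ} (hq0 : 0 < q) (hq1 : q < 1) (x y : ℝ) :
    (|x| ^ q + |y| ^ q) * (dd x y) ^ q ≤ 4 * |x - y| ^ q := by
  have hd0 := dd_nonneg x y
  have hd1 := dd_le_one x y
  have key : max |x| |y| * dd x y ≤ 2 * |x - y| := by
    by_cases hs : sg x = sg y
    · have hab : |(|x| - |y|)| ≤ |x - y| := abs_abs_sub_abs_le x y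
      by_cases hx : x = 0
      · have hy : y = 0 := by rw [← sg_eq_zero, ← hs, sg_eq_zero]; exact hx
        subst hx; subst hy; simp
      · have hy : y ≠ 0 := by
          intro hy; apply hx; rw [← sg_eq_zero, hs, sg_eq_zero]; exact hy
        have hx' : 0 < |x| := abs_pos.mpr hx
        have hy' : 0 < |y| := abs_pos.mpr hy
        have main : ∀ a b : ℝ, 0 < a → 0 < b → a ≤ b →
            b * min 1 |Real.logb 2 a - Real.logb 2 b| ≤ 2 * (b - a) := by
          intro a b ha hb hab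
          have h1 : Real.logb 2 a ≤ Real.logb 2 b := Real.logb_le_logb_of_le (by norm_num) ha hab
          set δ := Real.logb 2 b - Real.logb 2 a with hδ
          have h2 : |Real.logb 2 a - Real.logb 2 b| = δ := by
            rw [abs_sub_comm, abs_of_nonneg (by linarith)]
          rw [h2]
          have h3 : a = b * 2 ^ (-δ) := by
            have e1 : (2 : ℝ) ^ (Real.logb 2 a) = a := Real.rpow_logb (by norm_num) (by norm_num) ha
            have e2 : (2 : ℝ) ^ (Real.logb 2 b) = b := Real.rpow_logb (by norm_num) (by norm_num) hb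
            conv_lhs => rw [← e1]
            conv_rhs => rw [← e2]
            rw [← Real.rpow_add (by norm_num)]
            congr 1; rw [hδ]; ring
          set t := min 1 δ with ht
          have ht0 : 0 ≤ t := le_min zero_le_one (by linarith)
          have ht1 : t ≤ 1 := min_le_left _ _
          have htδ : t ≤ δ := min_le_right _ _
          have h4 : (2 : ℝ) ^ (-δ) ≤ 2 ^ (-t) :=
            Real.rpow_le_rpow_of_exponent_le (by norm_num) (by linarith)
          have h5 : (2 : ℝ) ^ (-t) ≤ 1 - t / 2 := by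
            have := rpow_one_add_le_one_add_mul_self (s := -1 / 2) (by norm_num) ht0 ht1
            norm_num at this
            rw [Real.rpow_neg (by norm_num), ← Real.inv_rpow (by norm_num)]
            norm_num
            linarith
          rw [h3]
          nlinarith
        unfold dd
        rw [if_pos hs]
        rcases le_total |x| |y| with h | h
        · rw [max_eq_right h]
          refine (main _ _ hx' hy' h).trans ?_
          have : |y| - |x| ≤ |x - y| := by
            rw [abs_sub_comm] at hab; exact (le_abs_self _).trans hab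
          linarith
        · rw [max_eq_left h]
          have := main _ _ hy' hx' h
          rw [abs_sub_comm] at this
          refine this.trans ?_
          have : |x| - |y| ≤ |x - y| := (le_abs_self _).trans hab
          linarith
    · have h1 : |x| ≤ |x - y| ∧ |y| ≤ |x - y| := by
        rcases sg_cases x with ⟨c1, e1⟩ | ⟨c1, e1⟩ | ⟨c1, e1⟩ <;>
        rcases sg_cases y with ⟨c2, e2⟩ | ⟨c2, e2⟩ | ⟨c2, e2⟩ <;> rw [e1, e2] at hs
        · exact absurd rfl hs
        · subst c2; simp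
        · rw [abs_of_neg c1, abs_of_pos c2, abs_of_neg (by linarith)]
          constructor <;> linarith
        · subst c1; simp
        · exact absurd rfl hs
        · subst c1; simp
        · rw [abs_of_pos c1, abs_of_neg c2, abs_of_pos (by linarith)]
          constructor <;> linarith
        · subst c2; simp
        · exact absurd rfl hs
      have h2 : max |x| |y| ≤ |x - y| := max_le h1.1 h1.2
      have h3 : 0 ≤ max |x| |y| := le_max_of_le_left (abs_nonneg _)
      nlinarith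
  have hM0 : 0 ≤ max |x| |y| := le_max_of_le_left (abs_nonneg _)
  have e1 : |x| ^ q ≤ (max |x| |y|) ^ q :=
    Real.rpow_le_rpow (abs_nonneg _) (le_max_left _ _) hq0.le
  have e2 : |y| ^ q ≤ (max |x| |y|) ^ q :=
    Real.rpow_le_rpow (abs_nonneg _) (le_max_right _ _) hq0.le
  have e3 : (max |x| |y|) ^ q * (dd x y) ^ q ≤ 2 * |x - y| ^ q := by
    rw [← Real.mul_rpow hM0 hd0]
    refine (Real.rpow_le_rpow (by positivity) key hq0.le).trans ?_
    rw [Real.mul_rpow (by norm_num) (abs_nonneg _)]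
    have : (2 : ℝ) ^ q ≤ 2 := by
      calc (2 : ℝ) ^ q ≤ 2 ^ (1 : ℝ) := Real.rpow_le_rpow_of_exponent_le (by norm_num) hq1.le
        _ = 2 := Real.rpow_one _
    gcongr
  have e4 : 0 ≤ (dd x y) ^ q := Real.rpow_nonneg hd0 q
  nlinarith

lemma dd_le_rpow {q : ℝ} (hq1 : q < 1) (x y : ℝ) : dd x y ≤ (dd x y) ^ q := by
  rcases eq_or_lt_of_le (dd_nonneg x y) with h | h
  · rw [← h]; exact Real.rpow_nonneg le_rfl q
  · calc dd x y = (dd x y) ^ (1 : ℝ) := (Real.rpow_one _).symm
      _ ≤ (dd x y) ^ q := Real.rpow_le_rpow_of_exponent_ge h (dd_le_one x y) hq1.le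

section

variable {L : ℕ} (hL : 2 ≤ L)

include hL in
lemma hr_avg {q : ℝ} (hq0 : 0 < q) (x y : ℝ) :
    ∫⁻ θ, ENNReal.ofReal ((8 / q) * |hr L q θ x - hr L q θ y|) ∂leb ≤
      ENNReal.ofReal ((8 / q) * (|x| ^ q + |y| ^ q) * dd x y) := by
  have hz : ∀ θ z : ℝ, |hr L q θ z| ≤ |z| ^ q := by
    intro θ z
    by_cases hz : z = 0
    · unfold hr
      rw [sg_eq_zero.mpr hz, zero_mul, abs_zero]
      positivity
    · unfold hr
      have h1 := aa_le hL 0 θ hz
      have h2 := aa_pos L 0 θ z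
      have h3 : (aa L 0 θ z) ^ q ≤ |z| ^ q := Real.rpow_le_rpow h2.le h1 hq0.le
      have h4 := sg_le z
      have h5 : 0 ≤ (aa L 0 θ z) ^ q := by positivity
      rw [abs_mul, abs_of_nonneg h5]
      have := abs_nonneg (sg z)
      nlinarith
  have hb : ∀ θ, ENNReal.ofReal ((8 / q) * |hr L q θ x - hr L q θ y|) ≤
      ENNReal.ofReal ((8 / q) * (|x| ^ q + |y| ^ q)) * (Sm L 0 θ)ᶜ.indicator 1 (x, y) := by
    intro θ
    by_cases h : (x, y) ∈ Sm L 0 θ
    · have h0 : hr L q θ x = hr L q θ y := by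
        have hs := ((Hf_eq_iff hL 0 θ x y).mp h).1
        by_cases hx : x = 0
        · have hy : y = 0 := by rw [← sg_eq_zero, ← hs, sg_eq_zero]; exact hx
          rw [hx, hy]
        · unfold hr; rw [hs, aa0_eq hL h hx]
      rw [h0, sub_self, abs_zero, mul_zero, ENNReal.ofReal_zero]; exact zero_le
    · rw [indicator_of_mem (by exact h), Pi.one_apply, mul_one]
      apply ENNReal.ofReal_le_ofReal
      have h1 := abs_sub (hr L q θ x) (hr L q θ y)
      have h2 := hz θ x
      have h3 := hz θ y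
      have : 0 < 8 / q := by positivity
      apply mul_le_mul_of_nonneg_left _ this.le
      linarith
  refine (lintegral_mono hb).trans ?_
  rw [lintegral_const_mul' _ _ ENNReal.ofReal_ne_top]
  refine (mul_le_mul_right (sep_prob hL 0 x y) _).trans (le_of_eq ?_)
  rw [pow_zero, one_mul, min_eq_right (dd_le_one x y), ← ENNReal.ofReal_mul (by positivity)]

include hL in
/-- the average of the bound over the grids -/
theorem GG_avg {q : ℝ} (hq0 : 0 < q) (hq1 : q < 1) (hA2 : 2 ≤ (L : ℝ) ^ (1 - q))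
    (hA4 : (L : ℝ) ^ (1 - q) ≤ 4) (x y : ℝ) :
    ∫⁻ θ, GG L q θ (x, y) ∂leb ≤ ENNReal.ofReal ((1200 / q) * |x - y| ^ q) := by
  have hL2 : (2 : ℝ) ≤ L := by exact_mod_cast hL
  have hL0 : (0 : ℝ) < L := by linarith
  set A : ℝ := (L : ℝ) ^ (1 - q) with hA
  set B : ℝ := (L : ℝ) ^ q with hB
  set S : ℝ := |x| ^ q + |y| ^ q with hS
  set d : ℝ := dd x y with hd
  have hS0 : 0 ≤ S := by positivity
  have hd0 := dd_nonneg x y
  have hd1 := dd_le_one x y
  have hB0 : 0 < B := Real.rpow_pos_of_pos hL0 q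
  have hBinv : B⁻¹ ≤ 1 - q / 2 := by
    have h1 : (2 : ℝ) ^ q ≤ B := Real.rpow_le_rpow (by norm_num) hL2 hq0.le
    have h2 : B⁻¹ ≤ ((2 : ℝ) ^ q)⁻¹ := inv_anti₀ (by positivity) h1
    have h3 := rpow_one_add_le_one_add_mul_self (s := -1 / 2) (by norm_num) hq0.le hq1.le
    norm_num at h3
    have h4 : ((2 : ℝ) ^ q)⁻¹ = (1 / 2) ^ q := by
      rw [← Real.inv_rpow (by norm_num)]; norm_num
    rw [h4] at h2
    norm_num at h2 h3 ⊢
    linarith
  have hBc : 2 / q * (1 - B⁻¹) ≥ 1 := by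
    have : 2 / q * (q / 2) = 1 := by field_simp
    have h2 : 2 / q * (q / 2) ≤ 2 / q * (1 - B⁻¹) := by
      apply mul_le_mul_of_nonneg_left _ (by positivity); linarith
    linarith
  -- the terms
  have hpw : ∀ j : ℕ, ((L : ℝ) ^ (j + 1)) ^ (-q) * min (L : ℝ) ((L : ℝ) ^ (j + 1) * d) =
      A * min ((B⁻¹) ^ j) (A ^ j * d) := by
    intro j
    have hLj : (0 : ℝ) < (L : ℝ) ^ (j + 1) := by positivity
    rw [mul_min_of_nonneg _ _ (by positivity), mul_min_of_nonneg _ _ (by positivity)]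
    have hB' : ((L : ℝ) ^ j) ^ (-q) = (B⁻¹) ^ j := by
      rw [hB, ← Real.rpow_neg hL0.le, ← Real.rpow_natCast, ← Real.rpow_natCast,
        ← Real.rpow_mul hL0.le, ← Real.rpow_mul hL0.le, mul_comm]
    have hA' : ((L : ℝ) ^ j) ^ (1 - q) = A ^ j := by
      rw [hA, ← Real.rpow_natCast, ← Real.rpow_natCast,
        ← Real.rpow_mul hL0.le, ← Real.rpow_mul hL0.le, mul_comm]
    congr 1
    · rw [pow_succ, Real.mul_rpow (by positivity) hL0.le, hB', hA, mul_assoc, mul_comm]
      congr 1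
      rw [show (1 - q) = -q + 1 by ring, Real.rpow_add hL0, Real.rpow_one]
    · rw [← mul_assoc, ← mul_assoc]
      congr 1
      have e1 : ((L : ℝ) ^ (j + 1)) ^ (-q) * (L : ℝ) ^ (j + 1) = ((L : ℝ) ^ (j + 1)) ^ (1 - q) := by
        rw [show (1 - q) = -q + 1 by ring, Real.rpow_add hLj, Real.rpow_one]
      rw [e1, pow_succ, Real.mul_rpow (by positivity) hL0.le, hA', mul_comm]
  have hterm : ∀ j : ℕ, ∫⁻ θ, ((Sm L j θ).indicator (g1 L j q θ) (x, y) +
      (Sm L j θ)ᶜ.indicator (g2 L j q θ) (x, y)) ∂leb ≤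
      ENNReal.ofReal (12 * S * A * min ((B⁻¹) ^ j) (A ^ j * d)) := by
    intro j
    have m1 : Measurable fun θ : ℝ => (Sm L j θ).indicator (g1 L j q θ) (x, y) := by
      have hc : Measurable fun θ : ℝ => (θ, ((x, y) : ℝ × ℝ)) := by fun_prop
      have a := ((g1_joint L j q).indicator (SmJ L j)).comp hc
      have e : (fun θ : ℝ => (Sm L j θ).indicator (g1 L j q θ) (x, y)) =
          ({t : ℝ × (ℝ × ℝ) | t.2 ∈ Sm L j t.1}.indicator (fun t => g1 L j q t.1 t.2)) ∘
          (fun θ : ℝ => (θ, ((x, y) : ℝ × ℝ))) := by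
        funext θ
        simp only [Function.comp_apply]
        by_cases ht : (x, y) ∈ Sm L j θ
        · rw [indicator_of_mem ht, indicator_of_mem (by exact ht)]
        · rw [indicator_of_notMem ht, indicator_of_notMem (by exact ht)]
      rw [e]; exact a
    rw [lintegral_add_left m1]
    refine (add_le_add (g1_avg hL hq0 j x y) (g2_avg hL hq0 j x y)).trans ?_
    have hLj : (0 : ℝ) < (L : ℝ) ^ (j + 1) := by positivity
    have hmin0 : 0 ≤ min (L : ℝ) ((L : ℝ) ^ (j + 1) * d) := le_min hL0.le (by positivity)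
    have hx : ∀ z : ℝ, (|z| / (L : ℝ) ^ (j + 1)) ^ q = |z| ^ q * ((L : ℝ) ^ (j + 1)) ^ (-q) := by
      intro z
      rw [Real.div_rpow (abs_nonneg _) hLj.le, Real.rpow_neg hLj.le, div_eq_mul_inv]
    rw [← ENNReal.ofReal_add (by positivity) (by positivity)]
    apply ENNReal.ofReal_le_ofReal
    rw [hx x, hx y]
    have e1 : 12 * S * A * min ((B⁻¹) ^ j) (A ^ j * d) =
        12 * S * (((L : ℝ) ^ (j + 1)) ^ (-q) * min (L : ℝ) ((L : ℝ) ^ (j + 1) * d)) := by
      rw [hpw j]; ring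
    rw [e1, hS]
    have hy0 : 0 ≤ |y| ^ q := by positivity
    have hW : 0 ≤ ((L : ℝ) ^ (j + 1)) ^ (-q) * min (L : ℝ) ((L : ℝ) ^ (j + 1) * d) := by positivity
    nlinarith [mul_nonneg hy0 hW]
  -- the sum
  have hsum : ∑' j : ℕ, ENNReal.ofReal (12 * S * A * min ((B⁻¹) ^ j) (A ^ j * d)) ≤
      ENNReal.ofReal (12 * S * A * ((6 / q) * d ^ q)) := by
    have hC : 0 ≤ 12 * S * A := by positivity
    have hgeo : ∀ n, ∑ j ∈ Finset.range n, min ((B⁻¹) ^ j) (A ^ j * d) ≤ (6 / q) * d ^ q := by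
      intro n
      rcases eq_or_lt_of_le hd0 with h0 | hpos
      · have : ∀ j ∈ Finset.range n, min ((B⁻¹) ^ j) (A ^ j * d) = 0 := by
          intro j _
          rw [hd, ← h0, mul_zero]
          exact min_eq_right (by positivity)
        rw [Finset.sum_eq_zero this]
        positivity
      · -- choose `K`
        obtain ⟨K0, hK0⟩ := pow_unbounded_of_one_lt (1 / d) (show (1 : ℝ) < L by linarith)
        have hex : ∃ K : ℕ, 1 ≤ (L : ℝ) ^ K * d := by
          refine ⟨K0, ?_⟩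
          rw [div_lt_iff₀ hpos] at hK0; exact hK0.le
        classical
        obtain ⟨K, hK, hKmin⟩ : ∃ K : ℕ, 1 ≤ (L : ℝ) ^ K * d ∧
            ∀ k < K, (L : ℝ) ^ k * d < 1 := by
          refine ⟨Nat.find hex, Nat.find_spec hex, fun k hk => ?_⟩
          have := Nat.find_min hex hk
          push Not at this; exact this
        have hg := geom_bound hq0 hA2 hBc hB0 hd0 K n
        refine hg.trans ?_
        have hdq0 : 0 ≤ d ^ q := Real.rpow_nonneg hd0 q
        have f1 : d * A ^ K ≤ 4 * d ^ q := by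
          rcases Nat.eq_zero_or_pos K with hK0 | hKpos
          · rw [hK0, pow_zero, mul_one]
            have := dd_le_rpow hq1 x y
            linarith
          · obtain ⟨k, rfl⟩ : ∃ k, K = k + 1 := ⟨K - 1, by omega⟩
            have hk := hKmin k (by omega)
            have hLk : (0 : ℝ) < (L : ℝ) ^ k := by positivity
            have hA' : ((L : ℝ) ^ k) ^ (1 - q) = A ^ k := by
              rw [hA, ← Real.rpow_natCast, ← Real.rpow_natCast,
                ← Real.rpow_mul hL0.le, ← Real.rpow_mul hL0.le, mul_comm]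
            have h1 : ((L : ℝ) ^ k * d) ^ (1 - q) ≤ 1 :=
              Real.rpow_le_one (by positivity) hk.le (by linarith)
            rw [Real.mul_rpow hLk.le hd0, hA'] at h1
            have h2 : d = d ^ (1 - q) * d ^ q := by
              rw [← Real.rpow_add hpos, sub_add_cancel, Real.rpow_one]
            rw [pow_succ]
            calc d * (A ^ k * A) = (A ^ k * d ^ (1 - q)) * (A * d ^ q) := by
                  conv_lhs => rw [h2]
                  ring
              _ ≤ 1 * (4 * d ^ q) := by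
                  apply mul_le_mul h1 _ (by positivity) zero_le_one
                  gcongr
              _ = _ := one_mul _
        have f2 : (B⁻¹) ^ K ≤ d ^ q := by
          have hLk : (0 : ℝ) < (L : ℝ) ^ K := by positivity
          have hB' : ((L : ℝ) ^ K) ^ (-q) = (B⁻¹) ^ K := by
            rw [hB, ← Real.rpow_neg hL0.le, ← Real.rpow_natCast, ← Real.rpow_natCast,
              ← Real.rpow_mul hL0.le, ← Real.rpow_mul hL0.le, mul_comm]
          rw [← hB', Real.rpow_neg hLk.le, ← Real.inv_rpow hLk.le]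
          apply Real.rpow_le_rpow (by positivity) _ hq0.le
          rw [inv_le_comm₀ hLk hpos]
          rw [inv_eq_one_div, div_le_iff₀ hpos]; exact hK
        have f3 : 2 / q * (B⁻¹) ^ K ≤ 2 / q * d ^ q := by gcongr
        have f4 : 4 + 2 / q ≤ 6 / q := by
          have : (4 : ℝ) ≤ 4 / q := by rw [le_div_iff₀ hq0]; linarith
          have h6 : 6 / q = 4 / q + 2 / q := by ring
          linarith
        have f5 := mul_le_mul_of_nonneg_right f4 hdq0
        linarith [add_mul 4 (2 / q) (d ^ q)]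
    rw [ENNReal.tsum_eq_iSup_nat]
    apply iSup_le
    intro n
    rw [← ENNReal.ofReal_sum_of_nonneg (fun j _ => by positivity), ← Finset.mul_sum]
    apply ENNReal.ofReal_le_ofReal
    exact mul_le_mul_of_nonneg_left (hgeo n) hC
  -- assemble
  have mt : ∀ j, Measurable fun θ : ℝ => ((Sm L j θ).indicator (g1 L j q θ) (x, y) +
      (Sm L j θ)ᶜ.indicator (g2 L j q θ) (x, y)) := by
    intro j
    have hc : Measurable fun θ : ℝ => (θ, ((x, y) : ℝ × ℝ)) := by fun_prop
    have a := (term_joint L j q).comp hc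
    simpa only [Function.comp_def] using a
  unfold GG
  rw [lintegral_add_right _ (Measurable.tsum mt), lintegral_tsum fun j => (mt j).aemeasurable]
  refine (add_le_add (hr_avg hL hq0 x y) ((ENNReal.tsum_le_tsum hterm).trans hsum)).trans ?_
  rw [← ENNReal.ofReal_add (by positivity) (by positivity)]
  apply ENNReal.ofReal_le_ofReal
  have hdd := dist_dd hq0 hq1 x y
  have hdr := dd_le_rpow hq1 x y
  rw [← hS, ← hd] at hdd
  rw [← hd] at hdr
  have k1 : (8 / q) * S * d ≤ (8 / q) * (4 * |x - y| ^ q) := by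
    rw [mul_assoc]
    apply mul_le_mul_of_nonneg_left _ (by positivity)
    calc S * d ≤ S * d ^ q := by gcongr
      _ ≤ _ := hdd
  have k2 : 12 * S * A * ((6 / q) * d ^ q) ≤ 12 * 4 * (6 / q) * (4 * |x - y| ^ q) := by
    have h0 : 0 ≤ S * d ^ q := by positivity
    calc 12 * S * A * ((6 / q) * d ^ q) = (12 * (6 / q)) * (A * (S * d ^ q)) := by ring
      _ ≤ (12 * (6 / q)) * (4 * (4 * |x - y| ^ q)) := by gcongr
      _ = _ := by ring
  have k3 : 0 ≤ |x - y| ^ q / q := by positivity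
  calc _ ≤ (8 / q) * (4 * |x - y| ^ q) + 12 * 4 * (6 / q) * (4 * |x - y| ^ q) := add_le_add k1 k2
    _ = 1184 * (|x - y| ^ q / q) := by ring
    _ ≤ 1200 * (|x - y| ^ q / q) := by linarith
    _ = _ := by ring

end

/-! ### the coupling -/

/-- the coupling of all probability measures on the line -/
noncomputable def XX (L : ℕ) (P : ProbabilityMeasure ℝ) (u : ℝ) : ℝ :=
  Xl L (P : Measure ℝ) (DD u).1 (DD u).2

lemma XX_meas (L : ℕ) (P : ProbabilityMeasure ℝ) : Measurable (XX L P) := by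
  have h := (Xl_meas L (P : Measure ℝ)).comp DD_meas
  simp only [Function.comp_def] at h
  exact h

lemma XX_law {L : ℕ} (hL : 2 ≤ L) (P : ProbabilityMeasure ℝ) :
    leb.map (XX L P) = (P : Measure ℝ) := by
  have e : XX L P = (fun t : ℝ × ℝ => Xl L (P : Measure ℝ) t.1 t.2) ∘ DD := rfl
  have hm := Xl_meas L (P : Measure ℝ)
  rw [e, ← Measure.map_map hm DD_meas, DD_map]
  ext A hA
  rw [Measure.map_apply hm hA, Measure.prod_apply (hm hA)]
  have h1 : ∀ θ : ℝ, leb (Prod.mk θ ⁻¹' ((fun t : ℝ × ℝ => Xl L (P : Measure ℝ) t.1 t.2) ⁻¹' A)) =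
      (P : Measure ℝ) A := by
    intro θ
    have h2 := Xl_law hL (P : Measure ℝ) θ
    conv_rhs => rw [← h2, Measure.map_apply (Xl_meas1 L (P : Measure ℝ) θ) hA]
    rfl
  simp only [h1, lintegral_const, measure_univ, mul_one]

lemma XX_coupling {L : ℕ} (hL : 2 ≤ L) : Pool.Agent.R972.PC.IsCoupling (XX L) :=
  ⟨fun P => (XX_meas L P).aemeasurable, fun P => XX_law hL P⟩

/-- the cost of the coupling -/
theorem XX_cost {L : ℕ} (hL : 2 ≤ L) {q : ℝ} (hq0 : 0 < q) (hq1 : q < 1)
    (hA2 : 2 ≤ (L : ℝ) ^ (1 - q)) (hA4 : (L : ℝ) ^ (1 - q) ≤ 4) (P Q : ProbabilityMeasure ℝ)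
    (π : Measure (ℝ × ℝ)) (h1 : π.map Prod.fst = (P : Measure ℝ))
    (h2 : π.map Prod.snd = (Q : Measure ℝ)) :
    ∫⁻ u, ENNReal.ofReal (|XX L P u - XX L Q u| ^ q) ∂leb ≤
      ENNReal.ofReal (1200 / q) * ∫⁻ p, ENNReal.ofReal (|p.1 - p.2| ^ q) ∂π := by
  have : IsProbabilityMeasure π := by
    constructor
    have h : (π.map Prod.fst) univ = (P : Measure ℝ) univ := by rw [h1]
    rw [Measure.map_apply measurable_fst MeasurableSet.univ, preimage_univ] at h
    rw [h]; exact measure_univ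
  have hP := Xl_meas L (P : Measure ℝ)
  have hQ := Xl_meas L (Q : Measure ℝ)
  have hF : Measurable fun t : ℝ × ℝ =>
      ENNReal.ofReal (|Xl L (P : Measure ℝ) t.1 t.2 - Xl L (Q : Measure ℝ) t.1 t.2| ^ q) := by
    fun_prop
  calc ∫⁻ u, ENNReal.ofReal (|XX L P u - XX L Q u| ^ q) ∂leb
      = ∫⁻ t, ENNReal.ofReal (|Xl L (P : Measure ℝ) t.1 t.2 -
          Xl L (Q : Measure ℝ) t.1 t.2| ^ q) ∂(leb.map DD) := by
        rw [lintegral_map hF DD_meas]; rfl
    _ = ∫⁻ θ, ∫⁻ r, ENNReal.ofReal (|Xl L (P : Measure ℝ) θ r -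
          Xl L (Q : Measure ℝ) θ r| ^ q) ∂leb ∂leb := by
        rw [DD_map, lintegral_prod _ hF.aemeasurable]
    _ ≤ ∫⁻ θ, ∫⁻ p, GG L q θ p ∂π ∂leb :=
        lintegral_mono fun θ => fixed_bound hL _ _ π h1 h2 hq0 hq1 θ
    _ = ∫⁻ p, ∫⁻ θ, GG L q θ p ∂leb ∂π :=
        lintegral_lintegral_swap (GG_joint L q).aemeasurable
    _ ≤ ∫⁻ p, ENNReal.ofReal ((1200 / q) * |p.1 - p.2| ^ q) ∂π :=
        lintegral_mono fun p => GG_avg hL hq0 hq1 hA2 hA4 p.1 p.2
    _ = _ := by
        rw [← lintegral_const_mul' _ _ ENNReal.ofReal_ne_top]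
        apply lintegral_congr
        intro p
        rw [ENNReal.ofReal_mul (by positivity)]

lemma exists_L {q : ℝ} (hq0 : 0 < q) (hq1 : q < 1) :
    ∃ L : ℕ, 2 ≤ L ∧ 2 ≤ (L : ℝ) ^ (1 - q) ∧ (L : ℝ) ^ (1 - q) ≤ 4 := by
  have h1q : 0 < 1 - q := by linarith
  set t : ℝ := (2 : ℝ) ^ (1 / (1 - q)) with ht
  have ht2 : 2 ≤ t := by
    calc (2 : ℝ) = 2 ^ (1 : ℝ) := (Real.rpow_one _).symm
      _ ≤ t := by
        apply Real.rpow_le_rpow_of_exponent_le (by norm_num)
        rw [le_div_iff₀ h1q]; linarith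
  have htq : t ^ (1 - q) = 2 := by
    rw [ht, ← Real.rpow_mul (by norm_num), one_div, inv_mul_cancel₀ h1q.ne', Real.rpow_one]
  refine ⟨⌈t⌉₊, ?_, ?_, ?_⟩
  · have : (2 : ℝ) ≤ (⌈t⌉₊ : ℝ) := ht2.trans (Nat.le_ceil t)
    exact_mod_cast this
  · calc (2 : ℝ) = t ^ (1 - q) := htq.symm
      _ ≤ _ := Real.rpow_le_rpow (by linarith) (Nat.le_ceil t) h1q.le
  · have h2 : (⌈t⌉₊ : ℝ) ≤ 2 * t := by
      have := Nat.ceil_lt_add_one (show 0 ≤ t by linarith)
      linarith
    calc (⌈t⌉₊ : ℝ) ^ (1 - q) ≤ (2 * t) ^ (1 - q) := Real.rpow_le_rpow (by positivity) h2 h1q.le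
      _ = 2 ^ (1 - q) * 2 := by rw [Real.mul_rpow (by norm_num) (by linarith), htq]
      _ ≤ 2 ^ (1 : ℝ) * 2 := by
        gcongr
        · norm_num
        · linarith
      _ = 4 := by rw [Real.rpow_one]; norm_num

/-- the optimal pairwise coupling ratio of `𝒫(ℝ)` for `|x-y|^q` is at most `1200 / q` -/
theorem optRatio_le {q : ℝ} (hq0 : 0 < q) (hq1 : q < 1) :
    Pool.Agent.R972.PC.optRatio q ≤ ENNReal.ofReal (1200 / q) := by
  obtain ⟨L, hL, hA2, hA4⟩ := exists_L hq0 hq1
  unfold Pool.Agent.R972.PC.optRatio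
  refine (iInf₂_le (XX L) (XX_coupling hL)).trans ?_
  unfold Pool.Agent.R972.PC.ratio
  have h1 : (1 : ℝ≥0) ≤ (1200 / q).toNNReal := by
    rw [← Real.toNNReal_one]
    apply Real.toNNReal_le_toNNReal
    rw [le_div_iff₀ hq0]; linarith
  refine (iInf₂_le (1200 / q).toNNReal ⟨h1, fun P Q => ?_⟩).trans le_rfl
  unfold Pool.Agent.R972.PC.Cstar
  have hne : (((1200 / q).toNNReal : ℝ≥0) : ℝ≥0∞) ≠ 0 := by
    rw [ENNReal.coe_ne_zero]; exact (zero_lt_one.trans_le h1).ne'
  rw [ENNReal.mul_iInf_of_ne hne ENNReal.coe_ne_top]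
  apply le_iInf
  intro π
  rw [ENNReal.mul_iInf_of_ne hne ENNReal.coe_ne_top]
  apply le_iInf
  rintro ⟨p1, p2⟩
  exact XX_cost hL hq0 hq1 hA2 hA4 P Q π p1 p2

end Pool.Agent.J4H79.PC
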