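import Pool.Agent.J4H79.PC.Pair

/-!
# The coupling for a fixed grid
-/

set_option autoImplicit false

open MeasureTheory Set Filter Topology
open scoped ENNReal NNReal

namespace Pool.Agent.J4H79.PC

open Pool.Agent.R972.PC (leb)

section

variable {L : ℕ} (hL : 2 ≤ L)

lemma ae_cell_pos (P : Measure ℝ) [IsProbabilityMeasure P] (j : ℕ) (θ : ℝ) :
    ∀ᵐ z ∂P, 0 < P.real {x | Hf L j θ x = Hf L j θ z} := by
  rw [ae_iff]
  set N := {z | ¬ 0 < P.real {x | Hf L j θ x = Hf L j θ z}} with hN
  have hNm : MeasurableSet N := by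
    have h := (celR_meas L j P).comp (measurable_const (a := θ) |>.prodMk measurable_id)
    simp only [Function.comp_def, id] at h
    exact (measurableSet_lt measurable_const h).compl
  have h1 := lint_fib P (Hf_meas1 L j θ) (Hf_countable L j θ) (fun x => mem_range_self x)
      (N.indicator 1)
  rw [lintegral_indicator_one hNm] at h1
  rw [h1, ENNReal.tsum_eq_zero]
  rintro ⟨_, z, rfl⟩
  rw [lintegral_indicator_one hNm, Measure.restrict_apply hNm]
  by_cases h0 : P (Hf L j θ ⁻¹' {Hf L j θ z}) = 0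
  · exact measure_mono_null inter_subset_right h0
  · have : N ∩ Hf L j θ ⁻¹' {Hf L j θ z} = ∅ := by
      ext x
      simp only [mem_inter_iff, mem_preimage, mem_singleton_iff, mem_empty_iff_false, iff_false]
      rintro ⟨hx, hx2⟩
      apply hx
      rw [hx2]
      exact ENNReal.toReal_pos h0 (measure_ne_top _ _)
    rw [this]; exact measure_empty

/-- the next point lies in the cell of the previous one -/
lemma ae_chain (P : Measure ℝ) [IsProbabilityMeasure P] (θ : ℝ) :
    ∀ᵐ r ∂leb, ∀ j, Hf L j θ (zz L P (j + 1) θ r) = Hf L j θ (zz L P j θ r) := by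
  rw [ae_all_iff]
  intro j
  have hlaw := fresh_law (zz_meas1 L P θ j) (rr_meas (j + 1)) (zz_law L P θ j)
  have hm : Measurable fun r => (zz L P j θ r, (DD (rr (j + 1) r)).1) :=
    (zz_meas1 L P θ j).prodMk (measurable_fst.comp (DD_meas.comp (rr_meas (j + 1))))
  have hgood : ∀ᵐ p ∂(P.prod leb), Hf L j θ (st L j P θ p.1 p.2) = Hf L j θ p.1 := by
    have a1 : ∀ᵐ p ∂(P.prod leb), 0 < P.real {x | Hf L j θ x = Hf L j θ p.1} :=
      Measure.quasiMeasurePreserving_fst.ae (ae_cell_pos P j θ)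
    have a2 : ∀ᵐ p ∂(P.prod leb), p.2 ∈ Ioo (0 : ℝ) 1 :=
      Measure.quasiMeasurePreserving_snd.ae ae_Ioo
    filter_upwards [a1, a2] with p hp1 hp2
    have hc := Upt_diff L j θ p.1
    have k1 := rs_cell P (Bel_lower L j θ p.1) (Upt_lower L j θ p.1) (Bel_sub L j θ p.1) hp2.1 hp2.2
      (by rw [hc]; exact hp1)
    rw [hc] at k1
    exact k1
  rw [← hlaw] at hgood
  exact ae_of_ae_map hm.aemeasurable hgood

/-- the coupled variable for a fixed grid -/
noncomputable def Xl (L : ℕ) (P : Measure ℝ) (θ r : ℝ) : ℝ :=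
  limUnder atTop (fun j => zz L P j θ r)

lemma Xl_meas (L : ℕ) (P : Measure ℝ) [IsProbabilityMeasure P] :
    Measurable fun p : ℝ × ℝ => Xl L P p.1 p.2 :=
  (StronglyMeasurable.limUnder fun j => (zz_meas L P j).stronglyMeasurable).measurable

include hL in
lemma ae_tendsto (P : Measure ℝ) [IsProbabilityMeasure P] (θ : ℝ) :
    ∀ᵐ r ∂leb, Tendsto (fun j => zz L P j θ r) atTop (𝓝 (Xl L P θ r)) := by
  filter_upwards [ae_chain (L := L) P θ] with r hr
  exact tendsto_nhds_limUnder (chain_conv hL hr)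

lemma Xl_meas1 (L : ℕ) (P : Measure ℝ) [IsProbabilityMeasure P] (θ : ℝ) :
    Measurable (Xl L P θ) := by
  have h := (Xl_meas L P).comp (measurable_const (a := θ) |>.prodMk measurable_id)
  simpa only [Function.comp_def, id] using h

include hL in
lemma Xl_law (P : Measure ℝ) [IsProbabilityMeasure P] (θ : ℝ) : leb.map (Xl L P θ) = P := by
  have : IsProbabilityMeasure (leb.map (Xl L P θ)) :=
    Measure.isProbabilityMeasure_map (Xl_meas1 L P θ).aemeasurable
  apply ext_of_forall_integral_eq_of_IsFiniteMeasure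
  intro g
  rw [integral_map (Xl_meas1 L P θ).aemeasurable g.continuous.aestronglyMeasurable]
  have h1 : Tendsto (fun j => ∫ r, g (zz L P j θ r) ∂leb) atTop
      (𝓝 (∫ r, g (Xl L P θ r) ∂leb)) := by
    apply tendsto_integral_of_dominated_convergence (fun _ => ‖g‖)
    · intro j; exact (g.continuous.measurable.comp (zz_meas1 L P θ j)).aestronglyMeasurable
    · exact integrable_const _
    · intro j; exact Eventually.of_forall fun r => g.norm_coe_le_norm _
    · filter_upwards [ae_tendsto hL P θ] with r hr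
      exact (g.continuous.tendsto _).comp hr
  have h2 : ∀ j, ∫ r, g (zz L P j θ r) ∂leb = ∫ x, g x ∂P := by
    intro j
    conv_rhs => rw [← zz_marg L P θ j]
    rw [integral_map (zz_meas1 L P θ j).aemeasurable g.continuous.aestronglyMeasurable]
  simp only [h2] at h1
  exact tendsto_nhds_unique h1 tendsto_const_nhds

/-- the integrand at depth `j + 1` -/
noncomputable def g1 (L j : ℕ) (q θ : ℝ) (p : ℝ × ℝ) : ℝ≥0∞ :=
  ENNReal.ofReal (wt L (j + 1) q θ p.1 * |hh L (j + 1) θ p.1 - hh L (j + 1) θ p.2|)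

noncomputable def g2 (L j : ℕ) (q θ : ℝ) (p : ℝ × ℝ) : ℝ≥0∞ :=
  2 * ENNReal.ofReal (L * |sg p.1| * wt L (j + 1) q θ p.1) +
      2 * ENNReal.ofReal (L * |sg p.2| * wt L (j + 1) q θ p.2)

/-- the bound for a fixed grid -/
noncomputable def GG (L : ℕ) (q θ : ℝ) (p : ℝ × ℝ) : ℝ≥0∞ :=
  ENNReal.ofReal ((8 / q) * |hr L q θ p.1 - hr L q θ p.2|) +
    ∑' j, ((Sm L j θ).indicator (g1 L j q θ) p + (Sm L j θ)ᶜ.indicator (g2 L j q θ) p)

lemma hr_mono {q : ℝ} (hq : 0 < q) (θ : ℝ) : Monotone (hr L q θ) := by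
  intro x y hxy
  have ax := Real.rpow_pos_of_pos (aa_pos L 0 θ x) q
  have ay := Real.rpow_pos_of_pos (aa_pos L 0 θ y) q
  unfold hr
  rcases sg_cases x with ⟨h1, e1⟩ | ⟨h1, e1⟩ | ⟨h1, e1⟩ <;>
  rcases sg_cases y with ⟨h2, e2⟩ | ⟨h2, e2⟩ | ⟨h2, e2⟩ <;> rw [e1, e2]
  · have := aa_mono (L := L) 0 θ (x := y) (y := x) h2.ne
      (by rw [abs_of_neg h1, abs_of_neg h2]; linarith)
    have h3 := Real.rpow_le_rpow (aa_pos L 0 θ y).le this hq.le
    linarith
  · linarith
  · linarith
  · linarith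
  · linarith
  · linarith
  · linarith
  · linarith
  · have := aa_mono (L := L) 0 θ (x := x) (y := y) h1.ne'
      (by rw [abs_of_pos h1, abs_of_pos h2]; linarith)
    have h3 := Real.rpow_le_rpow (aa_pos L 0 θ x).le this hq.le
    linarith

lemma ff0_law : leb.map (ff 0) = leb := by
  have h : ff 0 = Prod.fst ∘ DD := rfl
  rw [h, ← Measure.map_map measurable_fst DD_meas, DD_map]
  simp

include hL in
/-- the main estimate for a fixed grid -/
theorem fixed_bound (P Q : Measure ℝ) [IsProbabilityMeasure P] [IsProbabilityMeasure Q]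
    (π : Measure (ℝ × ℝ)) [IsProbabilityMeasure π]
    (h1 : π.map Prod.fst = P) (h2 : π.map Prod.snd = Q) {q : ℝ} (hq0 : 0 < q) (hq1 : q < 1)
    (θ : ℝ) :
    ∫⁻ r, ENNReal.ofReal (|Xl L P θ r - Xl L Q θ r| ^ q) ∂leb ≤ ∫⁻ p, GG L q θ p ∂π := by
  have hhm := fun j => hh_meas1 (L := L) j θ
  have hwm := fun j => wt_meas1 (L := L) j q θ
  have hg1m : ∀ j, Measurable (g1 L j q θ) := by
    intro j; unfold g1
    have a := hhm (j + 1); have b := hwm (j + 1)
    fun_prop
  have hg2m : ∀ j, Measurable (g2 L j q θ) := by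
    intro j; unfold g2
    have a := sg_meas; have b := hwm (j + 1)
    fun_prop
  -- pathwise
  have hpath : ∀ᵐ r ∂leb, ENNReal.ofReal (|Xl L P θ r - Xl L Q θ r| ^ q) ≤
      ENNReal.ofReal ((8 / q) * |hr L q θ (zz L P 0 θ r) - hr L q θ (zz L Q 0 θ r)|) +
      ∑' j, {p : ℝ × ℝ | Hf L j θ p.1 = Hf L j θ p.2}.indicator 1 (zz L P j θ r, zz L Q j θ r) *
        ENNReal.ofReal (wt L (j + 1) q θ (zz L P (j + 1) θ r) *
          |hh L (j + 1) θ (zz L P (j + 1) θ r) - hh L (j + 1) θ (zz L Q (j + 1) θ r)|) := by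
    filter_upwards [ae_chain (L := L) P θ, ae_chain (L := L) Q θ, ae_tendsto hL P θ,
      ae_tendsto hL Q θ] with r a1 a2 a3 a4
    have hp := path_bound hL (z := fun j => zz L P j θ r) (z' := fun j => zz L Q j θ r)
      hq0 hq1 a1 a2 a3 a4
    simpa only using hp
  refine (lintegral_mono_ae hpath).trans ?_
  -- measurability
  have hrm : Measurable (hr L q θ) := (hr_mono hq0 θ).measurable
  have hz := fun j => zz_meas1 L P θ j
  have hz' := fun j => zz_meas1 L Q θ j
  rw [lintegral_add_left (by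
    have := hz 0; have := hz' 0
    fun_prop)]
  unfold GG
  rw [lintegral_add_left (by fun_prop)]
  refine add_le_add ?_ ?_
  · -- the root
    have hnode := node P Q π h1 h2 (B := ∅) (B' := univ) isLowerSet_empty isLowerSet_univ
      (empty_subset _) (by simp) (by simp) (h := fun x => (8 / q) * hr L q θ x)
      (hrm.const_mul _) (fun x _ y _ hxy => mul_le_mul_of_nonneg_left (hr_mono hq0 θ hxy)
        (by positivity)) (J := univ) MeasurableSet.univ (fun _ _ _ _ => subset_univ _)
    simp only [sdiff_empty, probReal_univ, min_self, ENNReal.ofReal_one, one_mul, compl_univ,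
      prod_empty, empty_prod, measure_empty, add_zero, mul_zero, univ_prod_univ,
      Measure.restrict_univ] at hnode
    have e : ∀ μ : Measure ℝ, IsProbabilityMeasure μ → rs μ ∅ univ = zq μ := by
      intro μ _
      funext f; unfold rs; simp
    rw [e P inferInstance, e Q inferInstance] at hnode
    have e2 : ∀ a b : ℝ, |8 / q * a - 8 / q * b| = 8 / q * |a - b| := by
      intro a b
      rw [← mul_sub, abs_mul, abs_of_pos (by positivity)]
    simp only [e2] at hnode
    refine le_trans (le_of_eq ?_) hnode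
    have e3 : ∫⁻ r, ENNReal.ofReal ((8 / q) *
        |hr L q θ (zz L P 0 θ r) - hr L q θ (zz L Q 0 θ r)|) ∂leb =
        ∫⁻ f, ENNReal.ofReal ((8 / q) * |hr L q θ (zq P f) - hr L q θ (zq Q f)|)
          ∂(leb.map (ff 0)) := by
      rw [lintegral_map _ (ff_meas 0)]
      · rfl
      · have a := zq_measurable P
        have b := zq_measurable Q
        fun_prop
    rw [e3, ff0_law, Pool.Agent.R972.PC.leb, setLIntegral_congr Ioo_ae_eq_Icc]
  · rw [lintegral_tsum, lintegral_tsum]
    · apply ENNReal.tsum_le_tsum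
      intro j
      have hStm : Measurable fun p : (ℝ × ℝ) × ℝ => (Sm L j θ).indicator (1 : ℝ × ℝ → ℝ≥0∞) p.1 *
          ENNReal.ofReal (wt L (j + 1) q θ (st L j P θ p.1.1 p.2) *
            |hh L (j + 1) θ (st L j P θ p.1.1 p.2) - hh L (j + 1) θ (st L j Q θ p.1.2 p.2)|) := by
        have a1 := (st_meas1' L j P θ).comp
          (((measurable_fst.comp measurable_fst).prodMk measurable_snd :
            Measurable fun p : (ℝ × ℝ) × ℝ => (p.1.1, p.2)))
        have a2 := (st_meas1' L j Q θ).comp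
          (((measurable_snd.comp measurable_fst).prodMk measurable_snd :
            Measurable fun p : (ℝ × ℝ) × ℝ => (p.1.2, p.2)))
        simp only [Function.comp_def] at a1 a2
        have a3 : Measurable fun p : (ℝ × ℝ) × ℝ => (Sm L j θ).indicator (1 : ℝ × ℝ → ℝ≥0∞) p.1 :=
          (measurable_one.indicator (Sm_meas L j θ)).comp measurable_fst
        have b1 := (hwm (j + 1)).comp a1
        have b2 := (hhm (j + 1)).comp a1
        have b3 := (hhm (j + 1)).comp a2
        simp only [Function.comp_def] at b1 b2 b3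
        fun_prop
      have e := pz_fresh L P Q θ j hStm
      have e1 : ∫⁻ r, {p : ℝ × ℝ | Hf L j θ p.1 = Hf L j θ p.2}.indicator 1
          (zz L P j θ r, zz L Q j θ r) *
        ENNReal.ofReal (wt L (j + 1) q θ (zz L P (j + 1) θ r) *
          |hh L (j + 1) θ (zz L P (j + 1) θ r) - hh L (j + 1) θ (zz L Q (j + 1) θ r)|) ∂leb =
          ∫⁻ p, ∫⁻ f, (Sm L j θ).indicator (1 : ℝ × ℝ → ℝ≥0∞) p *
          ENNReal.ofReal (wt L (j + 1) q θ (st L j P θ p.1 f) *
            |hh L (j + 1) θ (st L j P θ p.1 f) - hh L (j + 1) θ (st L j Q θ p.2 f)|) ∂leb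
            ∂(leb.map (pz L P Q j θ)) := e
      rw [e1]
      have e2 : ∀ p : ℝ × ℝ, ∫⁻ f, (Sm L j θ).indicator (1 : ℝ × ℝ → ℝ≥0∞) p *
          ENNReal.ofReal (wt L (j + 1) q θ (st L j P θ p.1 f) *
            |hh L (j + 1) θ (st L j P θ p.1 f) - hh L (j + 1) θ (st L j Q θ p.2 f)|) ∂leb =
          (Sm L j θ).indicator (fun p : ℝ × ℝ =>
            ∫⁻ f, ENNReal.ofReal (wt L (j + 1) q θ (st L j P θ p.1 f) *
            |hh L (j + 1) θ (st L j P θ p.1 f) - hh L (j + 1) θ (st L j Q θ p.2 f)|) ∂leb) p := by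
        intro p
        by_cases hp : p ∈ Sm L j θ
        · simp only [indicator_of_mem hp, Pi.one_apply, one_mul]
        · simp only [indicator_of_notMem hp, zero_mul, lintegral_zero]
      simp_rw [e2]
      rw [lintegral_indicator (Sm_meas L j θ)]
      refine (step_pair hL P Q π _ h1 h2 (pz_marg1 L P Q θ j) (pz_marg2 L P Q θ j) j q θ).trans ?_
      rw [lintegral_add_left ((hg1m j).indicator (Sm_meas L j θ)),
        lintegral_indicator (Sm_meas L j θ), lintegral_indicator (Sm_meas L j θ).compl]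
      exact le_rfl
    · intro j
      exact (((hg1m j).indicator (Sm_meas L j θ)).add
        ((hg2m j).indicator (Sm_meas L j θ).compl)).aemeasurable
    · intro j
      have a0 : Measurable fun r => {p : ℝ × ℝ | Hf L j θ p.1 = Hf L j θ p.2}.indicator
          (1 : ℝ × ℝ → ℝ≥0∞) (zz L P j θ r, zz L Q j θ r) :=
        (measurable_one.indicator (Sm_meas L j θ)).comp ((hz j).prodMk (hz' j))
      have b1 := (hwm (j + 1)).comp (hz (j + 1))
      have b2 := (hhm (j + 1)).comp (hz (j + 1))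
      have b3 := (hhm (j + 1)).comp (hz' (j + 1))
      simp only [Function.comp_def] at b1 b2 b3
      have : Measurable fun r => {p : ℝ × ℝ | Hf L j θ p.1 = Hf L j θ p.2}.indicator
          (1 : ℝ × ℝ → ℝ≥0∞) (zz L P j θ r, zz L Q j θ r) *
        ENNReal.ofReal (wt L (j + 1) q θ (zz L P (j + 1) θ r) *
          |hh L (j + 1) θ (zz L P (j + 1) θ r) - hh L (j + 1) θ (zz L Q (j + 1) θ r)|) := by
        fun_prop
      exact this.aemeasurable

end

end Pool.Agent.J4H79.PC
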