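import Pool.Agent.J4H79.PC.Quant

/-!
# One refinement step
-/

set_option autoImplicit false

open MeasureTheory Set Filter Topology
open scoped ENNReal NNReal

namespace Pool.Agent.J4H79.PC

open Pool.Agent.R972.PC (leb)

/-- resampling inside `B' \ B` -/
noncomputable def rs (P : Measure ℝ) (B B' : Set ℝ) (f : ℝ) : ℝ :=
  zq P (P.real B + f * P.real (B' \ B))

lemma lower_meas {L : Set ℝ} (hL : IsLowerSet L) : MeasurableSet L := hL.ordConnected.measurableSet

section

variable (P : Measure ℝ) [IsProbabilityMeasure P]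

lemma real_add {B B' : Set ℝ} (hB : IsLowerSet B) (hBB : B ⊆ B') :
    P.real B + P.real (B' \ B) = P.real B' := by
  have h := measureReal_inter_add_sdiff (μ := P) (s := B') (t := B) (lower_meas hB)
  rwa [inter_eq_self_of_subset_right hBB] at h

lemma rs_range {B B' : Set ℝ} (hB : IsLowerSet B) (hBB : B ⊆ B') {f : ℝ}
    (h0 : 0 < f) (h1 : f < 1) (hm : 0 < P.real (B' \ B)) :
    0 < P.real B + f * P.real (B' \ B) ∧ P.real B + f * P.real (B' \ B) < 1 := by
  have h2 := real_add P hB hBB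
  have h3 : P.real B' ≤ 1 := measureReal_le_one
  have h4 : 0 ≤ P.real B := measureReal_nonneg
  have h5 : 0 < f * P.real (B' \ B) := mul_pos h0 hm
  have h6 : f * P.real (B' \ B) < 1 * P.real (B' \ B) := mul_lt_mul_of_pos_right h1 hm
  constructor <;> linarith

lemma rs_mem {B B' : Set ℝ} (hB : IsLowerSet B) (hBB : B ⊆ B') {f : ℝ}
    (h0 : 0 < f) (h1 : f < 1) (hm : 0 < P.real (B' \ B)) {L : Set ℝ} (hL : IsLowerSet L)
    (h : f * P.real (B' \ B) < P.real (L ∩ (B' \ B))) : rs P B B' f ∈ L := by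
  have hr := rs_range P hB hBB h0 h1 hm
  apply zq_mem P hL hr.1 hr.2
  rcases hL.total hB with hLB | hBL
  · have : L ∩ (B' \ B) = ∅ := by
      ext x; simp only [mem_inter_iff, Set.mem_sdiff, mem_empty_iff_false, iff_false]
      rintro ⟨hx, -, hx2⟩; exact hx2 (hLB hx)
    rw [this, measureReal_empty] at h
    have := mul_pos h0 hm
    linarith
  · have h2 : P.real B + P.real (L ∩ (B' \ B)) ≤ P.real L := by
      have h3 := measureReal_mono (μ := P) (show L ∩ (B' \ B) ⊆ L \ B from
        fun x hx => ⟨hx.1, hx.2.2⟩)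
      have h4 := real_add P hB hBL
      linarith
    linarith

lemma rs_notMem {B B' : Set ℝ} (hB : IsLowerSet B) (hB' : IsLowerSet B') (hBB : B ⊆ B') {f : ℝ}
    (h0 : 0 < f) (h1 : f < 1) (hm : 0 < P.real (B' \ B)) {L : Set ℝ} (hL : IsLowerSet L)
    (h : P.real (L ∩ (B' \ B)) < f * P.real (B' \ B)) : rs P B B' f ∉ L := by
  have hr := rs_range P hB hBB h0 h1 hm
  apply zq_notMem P hL hr.1 hr.2
  rcases hL.total hB with hLB | hBL
  · have h2 : P.real L ≤ P.real B := measureReal_mono hLB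
    have := mul_pos h0 hm
    linarith
  · rcases hL.total hB' with hLB | hBL2
    · have h3 := real_add P hB hBL
      have : L ∩ (B' \ B) = L \ B := by
        ext x; simp only [mem_inter_iff, Set.mem_sdiff]
        constructor
        · rintro ⟨hx, -, hx2⟩; exact ⟨hx, hx2⟩
        · rintro ⟨hx, hx2⟩; exact ⟨hx, hLB hx, hx2⟩
      rw [this] at h
      linarith
    · have : L ∩ (B' \ B) = B' \ B := by
        ext x; simp only [mem_inter_iff, Set.mem_sdiff]
        constructor
        · rintro ⟨hx, hx2⟩; exact hx2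
        · rintro ⟨hx, hx2⟩; exact ⟨hBL2 hx, hx, hx2⟩
      rw [this] at h
      have h6 : f * P.real (B' \ B) < 1 * P.real (B' \ B) := mul_lt_mul_of_pos_right h1 hm
      linarith

lemma rs_cell {B B' : Set ℝ} (hB : IsLowerSet B) (hB' : IsLowerSet B') (hBB : B ⊆ B') {f : ℝ}
    (h0 : 0 < f) (h1 : f < 1) (hm : 0 < P.real (B' \ B)) : rs P B B' f ∈ B' \ B := by
  constructor
  · apply rs_mem P hB hBB h0 h1 hm hB'
    have h6 : f * P.real (B' \ B) < 1 * P.real (B' \ B) := mul_lt_mul_of_pos_right h1 hm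
    have : B' ∩ (B' \ B) = B' \ B := inter_eq_self_of_subset_right sdiff_subset
    rw [this]; linarith
  · apply rs_notMem P hB hB' hBB h0 h1 hm hB
    have : B ∩ (B' \ B) = ∅ := by
      ext x; simp only [mem_inter_iff, Set.mem_sdiff, mem_empty_iff_false, iff_false]
      rintro ⟨hx, -, hx2⟩; exact hx2 hx
    rw [this, measureReal_empty]
    exact mul_pos h0 hm

lemma rs_measurable (B B' : Set ℝ) : Measurable (rs P B B') :=
  (zq_measurable P).comp (by fun_prop)

end

/-- an elementary inequality -/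
lemma min_mul_le {a b m n : ℝ} (hb0 : 0 ≤ b) (hb : b ≤ n) (hm : 0 < m) (hn : 0 < n) :
    min m n * (a / m - b / n) ≤ max (a - b) 0 + max (n - m) 0 := by
  rcases le_total m n with h | h
  · rw [min_eq_left h]
    have h1 : m * (a / m - b / n) = a - b * (m / n) := by field_simp
    rw [h1]
    have h2 : b * (1 - m / n) ≤ n - m := by
      have h3 : 1 - m / n = (n - m) / n := by field_simp
      rw [h3]
      have h4 : b * ((n - m) / n) ≤ n * ((n - m) / n) := by
        apply mul_le_mul_of_nonneg_right hb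
        exact div_nonneg (by linarith) hn.le
      have h5 : n * ((n - m) / n) = n - m := by field_simp
      linarith
    have h6 := le_max_left (a - b) 0
    have h7 := le_max_left (n - m) 0
    nlinarith
  · rw [min_eq_right h]
    have h1 : n * (a / m - b / n) = a * (n / m) - b := by field_simp
    rw [h1]
    have h6 := le_max_left (a - b) 0
    have h7 := le_max_right (n - m) 0
    have h8 := le_max_right (a - b) 0
    rcases le_total a 0 with ha0 | ha0
    · have : a * (n / m) ≤ 0 := mul_nonpos_of_nonpos_of_nonneg ha0 (by positivity)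
      linarith
    · have : a * (n / m) ≤ a * 1 := by
        apply mul_le_mul_of_nonneg_left _ ha0
        rw [div_le_one hm]; exact h
      linarith

/-- one half of the estimate for one refinement step -/
lemma node_half (P Q : Measure ℝ) [IsProbabilityMeasure P] [IsProbabilityMeasure Q]
    (π : Measure (ℝ × ℝ)) [IsProbabilityMeasure π]
    (h1 : π.map Prod.fst = P) (h2 : π.map Prod.snd = Q)
    {B B' : Set ℝ} (hB : IsLowerSet B) (hB' : IsLowerSet B') (hBB : B ⊆ B')
    (hmP : 0 < P.real (B' \ B)) (hmQ : 0 < Q.real (B' \ B))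
    {h : ℝ → ℝ} (hh : Measurable h) (hmono : MonotoneOn h (B' \ B)) {J : Set ℝ}
    (hJ : MeasurableSet J) (hab : ∀ x ∈ B' \ B, ∀ y ∈ B' \ B, Ioc (h x) (h y) ⊆ J) :
    ENNReal.ofReal (min (P.real (B' \ B)) (Q.real (B' \ B))) *
        ∫⁻ f in Ioo 0 1, ENNReal.ofReal (h (rs Q B B' f) - h (rs P B B' f)) ≤
      ∫⁻ p in (B' \ B) ×ˢ (B' \ B), ENNReal.ofReal (h p.2 - h p.1) ∂π +
        volume J * (π ((B' \ B) ×ˢ (B' \ B)ᶜ) + π ((B' \ B)ᶜ ×ˢ (B' \ B))) := by
  set c : Set ℝ := B' \ B with hc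
  have hcm : MeasurableSet c := (lower_meas hB').diff (lower_meas hB)
  set mP := P.real c with hmPd
  set mQ := Q.real c with hmQd
  -- the level sets
  set at_ : ℝ → ℝ := fun t => P.real {x | x ∈ c ∧ h x < t} with hat
  set bt : ℝ → ℝ := fun t => Q.real {x | x ∈ c ∧ h x < t} with hbt
  have hlm : ∀ t, MeasurableSet {x | x ∈ c ∧ h x < t} := fun t =>
    hcm.inter (measurableSet_lt hh measurable_const)
  have hL : ∀ t, IsLowerSet (B ∪ {x | x ∈ c ∧ h x < t}) := by
    intro t x y hyx hx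
    rcases hx with hx | ⟨hx, hxt⟩
    · exact Or.inl (hB hyx hx)
    · by_cases hy : y ∈ B
      · exact Or.inl hy
      · have hyc : y ∈ c := ⟨hB' hyx hx.1, hy⟩
        exact Or.inr ⟨hyc, lt_of_le_of_lt (hmono hyc hx hyx) hxt⟩
  have hLc : ∀ t, (B ∪ {x | x ∈ c ∧ h x < t}) ∩ c = {x | x ∈ c ∧ h x < t} := by
    intro t
    ext x
    simp only [mem_inter_iff, mem_union, mem_ofPred_eq]
    constructor
    · rintro ⟨hx | hx, hxc⟩
      · exact absurd hx hxc.2
      · exact hx
    · intro hx; exact ⟨Or.inr hx, hx.1⟩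
  -- for each `t`
  have key1 : ∀ t, volume {f : ℝ | f ∈ Ioo 0 1 ∧ h (rs P B B' f) < t ∧ t ≤ h (rs Q B B' f)} ≤
      J.indicator (fun t => ENNReal.ofReal (at_ t / mP - bt t / mQ)) t := by
    intro t
    by_cases ht : t ∈ J
    · rw [indicator_of_mem ht]
      have hsub : {f : ℝ | f ∈ Ioo 0 1 ∧ h (rs P B B' f) < t ∧ t ≤ h (rs Q B B' f)} ⊆
          Icc (bt t / mQ) (at_ t / mP) := by
        rintro f ⟨hf, hf1, hf2⟩
        constructor
        · by_contra hlt
          push Not at hlt
          rw [lt_div_iff₀ hmQ] at hlt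
          have := rs_mem Q hB hBB hf.1 hf.2 hmQ (hL t) (by rw [hLc]; exact hlt)
          rcases this with h3 | ⟨-, h3⟩
          · exact (rs_cell Q hB hB' hBB hf.1 hf.2 hmQ).2 h3
          · linarith
        · by_contra hlt
          push Not at hlt
          rw [div_lt_iff₀ hmP] at hlt
          have := rs_notMem P hB hB' hBB hf.1 hf.2 hmP (hL t) (by rw [hLc]; exact hlt)
          exact this (Or.inr ⟨rs_cell P hB hB' hBB hf.1 hf.2 hmP, hf1⟩)
      calc _ ≤ volume (Icc (bt t / mQ) (at_ t / mP)) := measure_mono hsub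
        _ = _ := by rw [Real.volume_Icc]
    · rw [indicator_of_notMem ht]
      have hsub : {f : ℝ | f ∈ Ioo 0 1 ∧ h (rs P B B' f) < t ∧ t ≤ h (rs Q B B' f)} = ∅ := by
        ext f
        simp only [mem_ofPred_eq, mem_empty_iff_false, iff_false]
        rintro ⟨hf, hf1, hf2⟩
        exact ht (hab _ (rs_cell P hB hB' hBB hf.1 hf.2 hmP) _
          (rs_cell Q hB hB' hBB hf.1 hf.2 hmQ) ⟨hf1, hf2⟩)
      rw [hsub]; simp
  have key2 : ∀ t, ENNReal.ofReal (min mP mQ) * ENNReal.ofReal (at_ t / mP - bt t / mQ) ≤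
      π {p | p ∈ c ×ˢ c ∧ h p.1 < t ∧ t ≤ h p.2} + (π (c ×ˢ cᶜ) + π (cᶜ ×ˢ c)) := by
    intro t
    have hmin : 0 ≤ min mP mQ := le_min hmP.le hmQ.le
    rw [← ENNReal.ofReal_mul hmin]
    have e1 : at_ t ≤ mP := measureReal_mono fun x hx => hx.1
    have e2 : bt t ≤ mQ := measureReal_mono fun x hx => hx.1
    have e3 : 0 ≤ bt t := measureReal_nonneg
    have e4 := min_mul_le (a := at_ t) e3 e2 hmP hmQ
    have p1 : at_ t = π.real {p | p.1 ∈ c ∧ h p.1 < t} := by
      rw [hat, ← h1]; simp only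
      rw [map_measureReal_apply measurable_fst (hlm t)]; rfl
    have p2 : bt t = π.real {p | p.2 ∈ c ∧ h p.2 < t} := by
      rw [hbt, ← h2]; simp only
      rw [map_measureReal_apply measurable_snd (hlm t)]; rfl
    have p3 : mP = π.real {p | p.1 ∈ c} := by
      rw [hmPd, ← h1, map_measureReal_apply measurable_fst hcm]; rfl
    have p4 : mQ = π.real {p | p.2 ∈ c} := by
      rw [hmQd, ← h2, map_measureReal_apply measurable_snd hcm]; rfl
    have q1 : at_ t - bt t ≤ π.real {p | p ∈ c ×ˢ c ∧ h p.1 < t ∧ t ≤ h p.2} +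
        π.real (c ×ˢ cᶜ) := by
      have hsub : {p : ℝ × ℝ | p.1 ∈ c ∧ h p.1 < t} ⊆
          ({p | p.2 ∈ c ∧ h p.2 < t} ∪ {p | p ∈ c ×ˢ c ∧ h p.1 < t ∧ t ≤ h p.2}) ∪
            (c ×ˢ cᶜ) := by
        rintro p ⟨hp, hpt⟩
        by_cases hp2 : p.2 ∈ c
        · by_cases hlt : h p.2 < t
          · exact Or.inl (Or.inl ⟨hp2, hlt⟩)
          · exact Or.inl (Or.inr ⟨⟨hp, hp2⟩, hpt, not_lt.mp hlt⟩)
        · exact Or.inr ⟨hp, hp2⟩
      have q := (measureReal_mono (μ := π) hsub).trans ((measureReal_union_le _ _).trans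
        (add_le_add_left (measureReal_union_le _ _) _))
      rw [p1, p2]; linarith
    have q2 : mQ - mP ≤ π.real (cᶜ ×ˢ c) := by
      have hsub : {p : ℝ × ℝ | p.2 ∈ c} ⊆ {p | p.1 ∈ c} ∪ (cᶜ ×ˢ c) := by
        intro p hp
        by_cases hp1 : p.1 ∈ c
        · exact Or.inl hp1
        · exact Or.inr ⟨hp1, hp⟩
      have q := (measureReal_mono (μ := π) hsub).trans (measureReal_union_le _ _)
      rw [p3, p4]; linarith
    have q3 : min mP mQ * (at_ t / mP - bt t / mQ) ≤
        π.real {p | p ∈ c ×ˢ c ∧ h p.1 < t ∧ t ≤ h p.2} + (π.real (c ×ˢ cᶜ) +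
          π.real (cᶜ ×ˢ c)) := by
      have n1 : 0 ≤ π.real {p | p ∈ c ×ˢ c ∧ h p.1 < t ∧ t ≤ h p.2} := measureReal_nonneg
      have n2 : 0 ≤ π.real (c ×ˢ cᶜ) := measureReal_nonneg
      have n3 : 0 ≤ π.real (cᶜ ×ˢ c) := measureReal_nonneg
      have m1 := max_le q1 (add_nonneg n1 n2)
      have m2 := max_le q2 n3
      linarith
    refine (ENNReal.ofReal_le_ofReal q3).trans ?_
    rw [ENNReal.ofReal_add measureReal_nonneg (by positivity),
      ENNReal.ofReal_add measureReal_nonneg measureReal_nonneg]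
    simp only [ofReal_measureReal (measure_ne_top _ _), le_refl]
  -- layer cake
  have hPm := hh.comp (rs_measurable P B B')
  have hQm := hh.comp (rs_measurable Q B B')
  have cake : ∫⁻ f in Ioo 0 1, ENNReal.ofReal (h (rs Q B B' f) - h (rs P B B' f)) =
      ∫⁻ t, volume {f : ℝ | f ∈ Ioo 0 1 ∧ h (rs P B B' f) < t ∧ t ≤ h (rs Q B B' f)} := by
    have e1 : ∀ f, ENNReal.ofReal (h (rs Q B B' f) - h (rs P B B' f)) =
        ∫⁻ t, (Ioc (h (rs P B B' f)) (h (rs Q B B' f))).indicator 1 t := by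
      intro f
      rw [lintegral_indicator_one measurableSet_Ioc, Real.volume_Ioc]
    simp_rw [e1]
    have hjm : MeasurableSet {p : ℝ × ℝ | h (rs P B B' p.1) < p.2 ∧ p.2 ≤ h (rs Q B B' p.1)} :=
      (measurableSet_lt (hPm.comp measurable_fst) measurable_snd).inter
        (measurableSet_le measurable_snd (hQm.comp measurable_fst))
    rw [lintegral_lintegral_swap]
    · apply lintegral_congr
      intro t
      have e2 : ∀ f, (Ioc (h (rs P B B' f)) (h (rs Q B B' f))).indicator (1 : ℝ → ℝ≥0∞) t =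
          {f | h (rs P B B' f) < t ∧ t ≤ h (rs Q B B' f)}.indicator 1 f := by
        intro f
        simp only [indicator, mem_Ioc, mem_ofPred_eq, Pi.one_apply]
      simp_rw [e2]
      rw [lintegral_indicator_one]
      · rw [Measure.restrict_apply' measurableSet_Ioo]
        congr 1
        ext f
        simp only [mem_inter_iff, mem_ofPred_eq, mem_Ioo]
        tauto
      · exact (measurableSet_lt hPm measurable_const).inter (measurableSet_le measurable_const hQm)
    · have : (Function.uncurry fun f t =>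
          (Ioc (h (rs P B B' f)) (h (rs Q B B' f))).indicator (1 : ℝ → ℝ≥0∞) t) =
          {p : ℝ × ℝ | h (rs P B B' p.1) < p.2 ∧ p.2 ≤ h (rs Q B B' p.1)}.indicator 1 := by
        ext ⟨f, t⟩
        simp only [Function.uncurry, indicator, mem_Ioc, mem_ofPred_eq, Pi.one_apply]
      rw [this]
      exact ((measurable_one).indicator hjm).aemeasurable
  have cake2 : ∫⁻ p in c ×ˢ c, ENNReal.ofReal (h p.2 - h p.1) ∂π =
      ∫⁻ t, π {p | p ∈ c ×ˢ c ∧ h p.1 < t ∧ t ≤ h p.2} := by
    have e1 : ∀ p : ℝ × ℝ, ENNReal.ofReal (h p.2 - h p.1) =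
        ∫⁻ t, (Ioc (h p.1) (h p.2)).indicator 1 t := by
      intro p
      rw [lintegral_indicator_one measurableSet_Ioc, Real.volume_Ioc]
    simp_rw [e1]
    have hjm : MeasurableSet {p : (ℝ × ℝ) × ℝ | h p.1.1 < p.2 ∧ p.2 ≤ h p.1.2} :=
      (measurableSet_lt (by fun_prop) measurable_snd).inter
        (measurableSet_le measurable_snd (by fun_prop))
    rw [lintegral_lintegral_swap]
    · apply lintegral_congr
      intro t
      have e2 : ∀ p : ℝ × ℝ, (Ioc (h p.1) (h p.2)).indicator (1 : ℝ → ℝ≥0∞) t =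
          {p : ℝ × ℝ | h p.1 < t ∧ t ≤ h p.2}.indicator 1 p := by
        intro f
        simp only [indicator, mem_Ioc, mem_ofPred_eq, Pi.one_apply]
      simp_rw [e2]
      rw [lintegral_indicator_one]
      · rw [Measure.restrict_apply' (hcm.prod hcm)]
        congr 1
        ext f
        simp only [mem_inter_iff, mem_ofPred_eq]
        tauto
      · exact (measurableSet_lt (hh.comp measurable_fst) measurable_const).inter
          (measurableSet_le measurable_const (hh.comp measurable_snd))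
    · have : (Function.uncurry fun (p : ℝ × ℝ) t =>
          (Ioc (h p.1) (h p.2)).indicator (1 : ℝ → ℝ≥0∞) t) =
          {p : (ℝ × ℝ) × ℝ | h p.1.1 < p.2 ∧ p.2 ≤ h p.1.2}.indicator 1 := by
        ext ⟨f, t⟩
        simp only [Function.uncurry, indicator, mem_Ioc, mem_ofPred_eq, Pi.one_apply]
      rw [this]
      exact ((measurable_one).indicator hjm).aemeasurable
  rw [cake, cake2, ← lintegral_const_mul' _ _ ENNReal.ofReal_ne_top]
  calc ∫⁻ t, ENNReal.ofReal (min mP mQ) *
        volume {f : ℝ | f ∈ Ioo 0 1 ∧ h (rs P B B' f) < t ∧ t ≤ h (rs Q B B' f)}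
      ≤ ∫⁻ t, (π {p | p ∈ c ×ˢ c ∧ h p.1 < t ∧ t ≤ h p.2} +
          J.indicator (fun _ => π (c ×ˢ cᶜ) + π (cᶜ ×ˢ c)) t) := by
        apply lintegral_mono
        intro t
        refine (mul_le_mul_right (key1 t) _).trans ?_
        by_cases ht : t ∈ J
        · simp only [indicator_of_mem ht]
          exact key2 t
        · rw [indicator_of_notMem ht, mul_zero]; exact zero_le
    _ = _ := by
        rw [lintegral_add_right _ (measurable_const.indicator hJ),
          lintegral_indicator hJ, lintegral_const, Measure.restrict_apply_univ,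
          mul_comm (π (c ×ˢ cᶜ) + π (cᶜ ×ˢ c))]

lemma ofReal_abs_eq (a : ℝ) : ENNReal.ofReal |a| = ENNReal.ofReal a + ENNReal.ofReal (-a) := by
  rcases le_total 0 a with h | h
  · rw [abs_of_nonneg h, ENNReal.ofReal_of_nonpos (by linarith : -a ≤ 0), add_zero]
  · rw [abs_of_nonpos h, ENNReal.ofReal_of_nonpos h, zero_add]

/-- the estimate for one refinement step -/
lemma node (P Q : Measure ℝ) [IsProbabilityMeasure P] [IsProbabilityMeasure Q]
    (π : Measure (ℝ × ℝ)) [IsProbabilityMeasure π]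
    (h1 : π.map Prod.fst = P) (h2 : π.map Prod.snd = Q)
    {B B' : Set ℝ} (hB : IsLowerSet B) (hB' : IsLowerSet B') (hBB : B ⊆ B')
    (hmP : 0 < P.real (B' \ B)) (hmQ : 0 < Q.real (B' \ B))
    {h : ℝ → ℝ} (hh : Measurable h) (hmono : MonotoneOn h (B' \ B)) {J : Set ℝ}
    (hJ : MeasurableSet J) (hab : ∀ x ∈ B' \ B, ∀ y ∈ B' \ B, Ioc (h x) (h y) ⊆ J) :
    ENNReal.ofReal (min (P.real (B' \ B)) (Q.real (B' \ B))) *
        ∫⁻ f in Ioo 0 1, ENNReal.ofReal |h (rs P B B' f) - h (rs Q B B' f)| ≤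
      ∫⁻ p in (B' \ B) ×ˢ (B' \ B), ENNReal.ofReal |h p.1 - h p.2| ∂π +
        2 * volume J * (π ((B' \ B) ×ˢ (B' \ B)ᶜ) + π ((B' \ B)ᶜ ×ˢ (B' \ B))) := by
  have hcm : MeasurableSet (B' \ B) := (lower_meas hB').diff (lower_meas hB)
  have n1 := node_half P Q π h1 h2 hB hB' hBB hmP hmQ hh hmono hJ hab
  have hs1 : (π.map Prod.swap).map Prod.fst = Q := by
    rw [Measure.map_map measurable_fst measurable_swap]; exact h2
  have hs2 : (π.map Prod.swap).map Prod.snd = P := by
    rw [Measure.map_map measurable_snd measurable_swap]; exact h1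
  haveI : IsProbabilityMeasure (π.map Prod.swap) :=
    Measure.isProbabilityMeasure_map measurable_swap.aemeasurable
  have n2 := node_half Q P (π.map Prod.swap) hs1 hs2 hB hB' hBB hmQ hmP hh hmono hJ hab
  have hmeas : Measurable fun p : ℝ × ℝ => ENNReal.ofReal (h p.2 - h p.1) := by fun_prop
  rw [Measure.map_apply measurable_swap (hcm.prod hcm.compl),
    Measure.map_apply measurable_swap (hcm.compl.prod hcm),
    setLIntegral_map (hcm.prod hcm) hmeas measurable_swap] at n2
  simp only [preimage_swap_prod, Prod.fst_swap, Prod.snd_swap] at n2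
  rw [min_comm] at n2
  have e1 : ∀ f, ENNReal.ofReal |h (rs P B B' f) - h (rs Q B B' f)| =
      ENNReal.ofReal (h (rs P B B' f) - h (rs Q B B' f)) +
        ENNReal.ofReal (h (rs Q B B' f) - h (rs P B B' f)) := by
    intro f; rw [ofReal_abs_eq, neg_sub]
  have e2 : ∀ p : ℝ × ℝ, ENNReal.ofReal |h p.1 - h p.2| =
      ENNReal.ofReal (h p.1 - h p.2) + ENNReal.ofReal (h p.2 - h p.1) := by
    intro f; rw [ofReal_abs_eq, neg_sub]
  have hPm := hh.comp (rs_measurable P B B')
  have hQm := hh.comp (rs_measurable Q B B')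
  simp_rw [e1, e2]
  rw [lintegral_add_left (by exact (hPm.sub hQm).ennreal_ofReal),
    lintegral_add_left (by fun_prop), mul_add]
  refine (add_le_add n2 n1).trans (le_of_eq ?_)
  ring

end Pool.Agent.J4H79.PC
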