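import Pool.Agent.J4H79.PC.Cell2

/-!
# The chains of a pair
-/

set_option autoImplicit false

open MeasureTheory Set Filter Topology
open scoped ENNReal NNReal

namespace Pool.Agent.J4H79.PC

open Pool.Agent.R972.PC (leb)

/-- same label -/
def Sm (L j : ℕ) (θ : ℝ) : Set (ℝ × ℝ) := {p | Hf L j θ p.1 = Hf L j θ p.2}

lemma Sm_meas (L j : ℕ) (θ : ℝ) : MeasurableSet (Sm L j θ) :=
  measurableSet_eq_fun ((Hf_meas1 L j θ).comp measurable_fst)
    ((Hf_meas1 L j θ).comp measurable_snd)

section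

variable {L : ℕ} (hL : 2 ≤ L)

include hL in
/-- the estimate for one step, summed over the cells -/
lemma step_pair (P Q : Measure ℝ) [IsProbabilityMeasure P] [IsProbabilityMeasure Q]
    (π ν : Measure (ℝ × ℝ)) [IsProbabilityMeasure π]
    (h1 : π.map Prod.fst = P) (h2 : π.map Prod.snd = Q)
    (n1 : ν.map Prod.fst = P) (n2 : ν.map Prod.snd = Q) (j : ℕ) (q θ : ℝ) :
    ∫⁻ p in Sm L j θ,
      (∫⁻ f, ENNReal.ofReal (wt L (j + 1) q θ (st L j P θ p.1 f) *
        |hh L (j + 1) θ (st L j P θ p.1 f) - hh L (j + 1) θ (st L j Q θ p.2 f)|) ∂leb) ∂ν ≤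
    ∫⁻ p in Sm L j θ, ENNReal.ofReal (wt L (j + 1) q θ p.1 *
        |hh L (j + 1) θ p.1 - hh L (j + 1) θ p.2|) ∂π +
    ∫⁻ p in (Sm L j θ)ᶜ, (2 * ENNReal.ofReal (L * |sg p.1| * wt L (j + 1) q θ p.1) +
      2 * ENNReal.ofReal (L * |sg p.2| * wt L (j + 1) q θ p.2)) ∂π := by
  have hH1 : Measurable (fun p : ℝ × ℝ => Hf L j θ p.1) := (Hf_meas1 L j θ).comp measurable_fst
  have hH2 : Measurable (fun p : ℝ × ℝ => Hf L j θ p.2) := (Hf_meas1 L j θ).comp measurable_snd
  have hV := Hf_countable L j θ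
  have hS := Sm_meas L j θ
  have hg : Measurable fun x : ℝ => 2 * ENNReal.ofReal (L * |sg x| * wt L (j + 1) q θ x) := by
    have h1 := wt_meas1 (L := L) (j + 1) q θ
    have h2 := sg_meas
    fun_prop
  rw [lintegral_add_left (by exact hg.comp measurable_fst)]
  rw [lint_fib (ν.restrict (Sm L j θ)) hH1 hV (fun p => mem_range_self _),
    lint_fib (π.restrict (Sm L j θ)) hH1 hV (fun p => mem_range_self _),
    lint_fib (π.restrict (Sm L j θ)ᶜ) hH1 hV (fun p => mem_range_self _),
    lint_fib (π.restrict (Sm L j θ)ᶜ) hH2 hV (fun p => mem_range_self _),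
    ← ENNReal.tsum_add, ← ENNReal.tsum_add]
  apply ENNReal.tsum_le_tsum
  rintro ⟨_, z, rfl⟩
  simp only
  rw [Measure.restrict_restrict (hH1 (measurableSet_singleton _)),
    Measure.restrict_restrict (hH1 (measurableSet_singleton _)),
    Measure.restrict_restrict (hH1 (measurableSet_singleton _)),
    Measure.restrict_restrict (hH2 (measurableSet_singleton _))]
  have hcm : MeasurableSet {x | Hf L j θ x = Hf L j θ z} :=
    Hf_meas1 L j θ (measurableSet_singleton _)
  have s1 : (fun p : ℝ × ℝ => Hf L j θ p.1) ⁻¹' {Hf L j θ z} ∩ Sm L j θ =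
      {x | Hf L j θ x = Hf L j θ z} ×ˢ {x | Hf L j θ x = Hf L j θ z} := by
    ext p
    simp only [mem_inter_iff, mem_preimage, mem_singleton_iff, Sm, mem_ofPred_eq, mem_prod]
    constructor
    · rintro ⟨a, b⟩; exact ⟨a, b ▸ a⟩
    · rintro ⟨a, b⟩; exact ⟨a, a.trans b.symm⟩
  have s2 : (fun p : ℝ × ℝ => Hf L j θ p.1) ⁻¹' {Hf L j θ z} ∩ (Sm L j θ)ᶜ =
      {x | Hf L j θ x = Hf L j θ z} ×ˢ {x | Hf L j θ x = Hf L j θ z}ᶜ := by
    ext p
    simp only [mem_inter_iff, mem_preimage, mem_singleton_iff, Sm, mem_ofPred_eq, mem_prod,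
      mem_compl_iff]
    constructor
    · rintro ⟨a, b⟩; exact ⟨a, fun c => b (a.trans c.symm)⟩
    · rintro ⟨a, b⟩; exact ⟨a, fun c => b (c.symm.trans a)⟩
  have s3 : (fun p : ℝ × ℝ => Hf L j θ p.2) ⁻¹' {Hf L j θ z} ∩ (Sm L j θ)ᶜ =
      {x | Hf L j θ x = Hf L j θ z}ᶜ ×ˢ {x | Hf L j θ x = Hf L j θ z} := by
    ext p
    simp only [mem_inter_iff, mem_preimage, mem_singleton_iff, Sm, mem_ofPred_eq, mem_prod,
      mem_compl_iff]
    constructor
    · rintro ⟨a, b⟩; exact ⟨fun c => b (c.trans a.symm), a⟩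
    · rintro ⟨a, b⟩; exact ⟨b, fun c => a (c.trans b)⟩
  rw [s1, s2, s3]
  refine (cell_step hL P Q π ν h1 h2 n1 n2 j q θ z).trans ?_
  rw [mul_add, ← add_assoc, add_assoc]
  gcongr
  · rw [← lintegral_indicator_one (hcm.prod hcm.compl), ← lintegral_const_mul' _ _ (by finiteness),
      ← lintegral_indicator (hcm.prod hcm.compl)]
    apply lintegral_mono
    intro p
    by_cases hp : p ∈ {x | Hf L j θ x = Hf L j θ z} ×ˢ {x | Hf L j θ x = Hf L j θ z}ᶜ
    · simp only [indicator_of_mem hp, Pi.one_apply, mul_one]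
      rw [cell_wt hL (j + 1) (show Hf L j θ p.1 = Hf L j θ z from hp.1),
        ((Hf_eq_iff hL _ _ _ _).mp (show Hf L j θ p.1 = Hf L j θ z from hp.1)).1]
    · simp only [indicator_of_notMem hp, mul_zero, zero_le]
  · rw [← lintegral_indicator_one (hcm.compl.prod hcm), ← lintegral_const_mul' _ _ (by finiteness),
      ← lintegral_indicator (hcm.compl.prod hcm)]
    apply lintegral_mono
    intro p
    by_cases hp : p ∈ {x | Hf L j θ x = Hf L j θ z}ᶜ ×ˢ {x | Hf L j θ x = Hf L j θ z}
    · simp only [indicator_of_mem hp, Pi.one_apply, mul_one]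
      rw [cell_wt hL (j + 1) (show Hf L j θ p.2 = Hf L j θ z from hp.2),
        ((Hf_eq_iff hL _ _ _ _).mp (show Hf L j θ p.2 = Hf L j θ z from hp.2)).1]
    · simp only [indicator_of_notMem hp, mul_zero, zero_le]

end

/-! ### the laws along the chain -/

lemma zq_law (P : Measure ℝ) [IsProbabilityMeasure P] : leb.map (zq P) = P := by
  have h := rs_law P (B := ∅) (B' := univ) isLowerSet_empty isLowerSet_univ (empty_subset _)
    (by simp)
  have e : rs P ∅ univ = zq P := by
    funext f; unfold rs; simp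
  rw [e] at h
  rw [h]; simp

lemma zz_law (L : ℕ) (P : Measure ℝ) [IsProbabilityMeasure P] (θ : ℝ) (j : ℕ) :
    leb.map (fun r => (zz L P j θ r, rr (j + 1) r)) = P.prod leb := by
  have hzm : ∀ j, Measurable (zz L P j θ) := fun j => by
    have := (zz_meas L P j).comp (measurable_const (a := θ) |>.prodMk measurable_id)
    simpa only [Function.comp_def, id] using this
  induction j with
  | zero =>
    have e : (fun r => (zz L P 0 θ r, rr (0 + 1) r)) = Prod.map (zq P) id ∘ DD := rfl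
    rw [e, ← Measure.map_map ((zq_measurable P).prodMap measurable_id) DD_meas, DD_map,
      ← Measure.map_prod_map _ _ (zq_measurable P) measurable_id, Measure.map_id, zq_law]
  | succ j ih =>
    have h := step_law (T := fun p : ℝ × ℝ => st L j P θ p.1 p.2) (hzm j) (rr_meas (j + 1)) ih
      (st_meas1' L j P θ)
    rw [st_law] at h
    exact h

lemma zz_marg (L : ℕ) (P : Measure ℝ) [IsProbabilityMeasure P] (θ : ℝ) (j : ℕ) :
    leb.map (zz L P j θ) = P := by
  have hzm : Measurable (zz L P j θ) := by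
    have := (zz_meas L P j).comp (measurable_const (a := θ) |>.prodMk measurable_id)
    simpa only [Function.comp_def, id] using this
  have h := zz_law L P θ j
  have h2 := congrArg (Measure.map Prod.fst) h
  rw [Measure.map_map measurable_fst (hzm.prodMk (rr_meas _))] at h2
  simp only [Measure.map_fst_prod, measure_univ, one_smul] at h2
  exact h2

/-- the pair -/
noncomputable def pz (L : ℕ) (P Q : Measure ℝ) (j : ℕ) (θ r : ℝ) : ℝ × ℝ :=
  (zz L P j θ r, zz L Q j θ r)

lemma zz_meas1 (L : ℕ) (P : Measure ℝ) [IsProbabilityMeasure P] (θ : ℝ) (j : ℕ) :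
    Measurable (zz L P j θ) := by
  have := (zz_meas L P j).comp (measurable_const (a := θ) |>.prodMk measurable_id)
  simpa only [Function.comp_def, id] using this

lemma pz_meas1 (L : ℕ) (P Q : Measure ℝ) [IsProbabilityMeasure P] [IsProbabilityMeasure Q]
    (θ : ℝ) (j : ℕ) : Measurable (pz L P Q j θ) :=
  (zz_meas1 L P θ j).prodMk (zz_meas1 L Q θ j)

lemma pz_law (L : ℕ) (P Q : Measure ℝ) [IsProbabilityMeasure P] [IsProbabilityMeasure Q]
    (θ : ℝ) (j : ℕ) :
    leb.map (fun r => (pz L P Q j θ r, rr (j + 1) r)) = (leb.map (pz L P Q j θ)).prod leb := by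
  have fstlaw : ∀ (j : ℕ) (μ : Measure (ℝ × ℝ)),
      leb.map (fun r => (pz L P Q j θ r, rr (j + 1) r)) = μ.prod leb →
      leb.map (pz L P Q j θ) = μ := by
    intro j μ h
    have h2 := congrArg (Measure.map Prod.fst) h
    rw [Measure.map_map measurable_fst ((pz_meas1 L P Q θ j).prodMk (rr_meas _))] at h2
    simp only [Measure.map_fst_prod, measure_univ, one_smul] at h2
    exact h2
  induction j with
  | zero =>
    have hT : Measurable fun f : ℝ => (zq P f, zq Q f) := (zq_measurable P).prodMk (zq_measurable Q)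
    have e : (fun r => (pz L P Q 0 θ r, rr (0 + 1) r)) =
      Prod.map (fun f : ℝ => (zq P f, zq Q f)) id ∘ DD := rfl
    have h : leb.map (fun r => (pz L P Q 0 θ r, rr (0 + 1) r)) =
        (leb.map fun f : ℝ => (zq P f, zq Q f)).prod leb := by
      rw [e, ← Measure.map_map (hT.prodMap measurable_id) DD_meas, DD_map,
        ← Measure.map_prod_map _ _ hT measurable_id, Measure.map_id]
    rw [fstlaw 0 _ h]; exact h
  | succ j ih =>
    have : IsProbabilityMeasure (leb.map (pz L P Q j θ)) :=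
      Measure.isProbabilityMeasure_map (pz_meas1 L P Q θ j).aemeasurable
    have hT : Measurable fun p : (ℝ × ℝ) × ℝ => (st L j P θ p.1.1 p.2, st L j Q θ p.1.2 p.2) := by
      have a1 := (st_meas1' L j P θ).comp
        (((measurable_fst.comp measurable_fst).prodMk measurable_snd :
          Measurable fun p : (ℝ × ℝ) × ℝ => (p.1.1, p.2)))
      have a2 := (st_meas1' L j Q θ).comp
        (((measurable_snd.comp measurable_fst).prodMk measurable_snd :
          Measurable fun p : (ℝ × ℝ) × ℝ => (p.1.2, p.2)))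
      simp only [Function.comp_def] at a1 a2
      exact a1.prodMk a2
    have h := step_law (T := fun p : (ℝ × ℝ) × ℝ => (st L j P θ p.1.1 p.2, st L j Q θ p.1.2 p.2))
      (pz_meas1 L P Q θ j) (rr_meas (j + 1)) ih hT
    have h2 : leb.map (fun r => (pz L P Q (j + 1) θ r, rr (j + 1 + 1) r)) =
        (((leb.map (pz L P Q j θ)).prod leb).map
          fun p : (ℝ × ℝ) × ℝ => (st L j P θ p.1.1 p.2, st L j Q θ p.1.2 p.2)).prod leb := h
    rw [fstlaw (j + 1) _ h2]; exact h2

lemma pz_marg1 (L : ℕ) (P Q : Measure ℝ) [IsProbabilityMeasure P] [IsProbabilityMeasure Q]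
    (θ : ℝ) (j : ℕ) : (leb.map (pz L P Q j θ)).map Prod.fst = P := by
  rw [Measure.map_map measurable_fst (pz_meas1 L P Q θ j)]
  exact zz_marg L P θ j

lemma pz_marg2 (L : ℕ) (P Q : Measure ℝ) [IsProbabilityMeasure P] [IsProbabilityMeasure Q]
    (θ : ℝ) (j : ℕ) : (leb.map (pz L P Q j θ)).map Prod.snd = Q := by
  rw [Measure.map_map measurable_snd (pz_meas1 L P Q θ j)]
  exact zz_marg L Q θ j

/-- the expectation of a function of the pair and of the next fresh variable -/
lemma pz_fresh (L : ℕ) (P Q : Measure ℝ) [IsProbabilityMeasure P] [IsProbabilityMeasure Q]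
    (θ : ℝ) (j : ℕ) {F : (ℝ × ℝ) × ℝ → ℝ≥0∞} (hF : Measurable F) :
    ∫⁻ r, F (pz L P Q j θ r, ff (j + 1) r) ∂leb =
      ∫⁻ p, ∫⁻ f, F (p, f) ∂leb ∂(leb.map (pz L P Q j θ)) := by
  have : IsProbabilityMeasure (leb.map (pz L P Q j θ)) :=
    Measure.isProbabilityMeasure_map (pz_meas1 L P Q θ j).aemeasurable
  have h := fresh_law (pz_meas1 L P Q θ j) (rr_meas (j + 1)) (pz_law L P Q θ j)
  have hm : Measurable fun r => (pz L P Q j θ r, (DD (rr (j + 1) r)).1) :=
    (pz_meas1 L P Q θ j).prodMk (measurable_fst.comp (DD_meas.comp (rr_meas (j + 1))))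
  rw [← lintegral_prod _ hF.aemeasurable, ← h, lintegral_map hF hm]
  rfl

end Pool.Agent.J4H79.PC
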