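import Pool.Agent.J4H79.PC.Cells

/-!
# Pathwise bounds
-/

set_option autoImplicit false

open MeasureTheory Set Filter Topology
open scoped ENNReal NNReal

namespace Pool.Agent.J4H79.PC

/-- signed index -/
noncomputable def hh (L j : ℕ) (θ x : ℝ) : ℝ := sg x * nn L j θ x

/-- the weight of the cell of `x` -/
noncomputable def wt (L j : ℕ) (q θ x : ℝ) : ℝ := 4 * (aa L 0 θ x / (L : ℝ) ^ j) ^ q

/-- the potential at the root -/
noncomputable def hr (L : ℕ) (q θ x : ℝ) : ℝ := sg x * (aa L 0 θ x) ^ q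

section

variable {L : ℕ} (hL : 2 ≤ L)

include hL in
/-- the limit lies in the closed cell -/
lemma lim_cell (j : ℕ) (θ : ℝ) {z : ℕ → ℝ} {X : ℝ} (hz : Tendsto z atTop (𝓝 X))
    (hc : ∀ i, j ≤ i → Hf L j θ (z i) = Hf L j θ (z j)) (h0 : z j ≠ 0) :
    X = sg (z j) * |X| ∧ aa L j θ (z j) ≤ |X| ∧
      |X| ≤ (2 : ℝ) ^ (((nn L j θ (z j) : ℝ) + 1) / (L : ℝ) ^ j + θ) := by
  have e : ∀ i, j ≤ i → sg (z i) = sg (z j) ∧ z i ≠ 0 ∧ nn L j θ (z i) = nn L j θ (z j) := by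
    intro i hi
    have h := hc i hi
    rw [Hf_eq_iff hL] at h
    have hz0 : z i ≠ 0 := by
      intro hy; apply h0; rw [← sg_eq_zero, ← h.1, sg_eq_zero]; exact hy
    refine ⟨h.1, hz0, ?_⟩
    rcases h.2 with h2 | h2
    · exact absurd h2 hz0
    · exact h2
  have habs : Tendsto (fun i => |z i|) atTop (𝓝 |X|) := hz.abs
  refine ⟨?_, ?_, ?_⟩
  · have h1 : Tendsto (fun i => sg (z j) * |z i|) atTop (𝓝 (sg (z j) * |X|)) :=
      habs.const_mul _
    have h2 : z =ᶠ[atTop] fun i => sg (z j) * |z i| := by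
      filter_upwards [eventually_ge_atTop j] with i hi
      rw [← (e i hi).1, sg_abs]
    exact tendsto_nhds_unique hz (h1.congr' h2.symm)
  · apply ge_of_tendsto habs
    filter_upwards [eventually_ge_atTop j] with i hi
    have := aa_le hL j θ (e i hi).2.1
    unfold aa at this ⊢
    rwa [(e i hi).2.2] at this
  · apply le_of_tendsto habs
    filter_upwards [eventually_ge_atTop j] with i hi
    have := lt_aa hL j θ (e i hi).2.1
    rw [(e i hi).2.2] at this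
    exact this.le

lemma lim_zero {z : ℕ → ℝ} {X : ℝ} {j : ℕ} (hz : Tendsto z atTop (𝓝 X))
    (hc : ∀ i, j ≤ i → sg (z i) = sg (z j)) (h0 : z j = 0) : X = 0 := by
  have h2 : z =ᶠ[atTop] fun _ => 0 := by
    filter_upwards [eventually_ge_atTop j] with i hi
    rw [← sg_eq_zero, hc i hi, sg_eq_zero]; exact h0
  exact tendsto_nhds_unique hz (tendsto_const_nhds.congr' h2.symm)

include hL in
lemma chain_cell {θ : ℝ} {z : ℕ → ℝ} (hc : ∀ j, Hf L j θ (z (j + 1)) = Hf L j θ (z j)) (j : ℕ) :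
    ∀ i, j ≤ i → Hf L j θ (z i) = Hf L j θ (z j) := by
  intro i hi
  induction i, hi using Nat.le_induction with
  | base => rfl
  | succ i hi ih => rw [← ih]; exact Hf_nest_le hL hi θ (hc i)

include hL in
lemma chain_conv {θ : ℝ} {z : ℕ → ℝ} (hc : ∀ j, Hf L j θ (z (j + 1)) = Hf L j θ (z j)) :
    ∃ X, Tendsto z atTop (𝓝 X) := by
  apply cauchySeq_tendsto_of_complete
  apply cauchySeq_of_le_geometric (1 / 2) (2 * |z 0|) (by norm_num)
  intro n
  rw [Real.dist_eq]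
  have h1 := same_cell hL n θ (hc n).symm
  have h2 := zero_cell hL θ (chain_cell hL hc 0 n (Nat.zero_le _)).symm
  have h3 : (2 : ℝ) ^ n ≤ (L : ℝ) ^ n := by
    have : (2 : ℝ) ≤ L := by exact_mod_cast hL
    gcongr
  calc |z n - z (n + 1)| ≤ |z n| / (L : ℝ) ^ n := h1
    _ ≤ (2 * |z 0|) / (L : ℝ) ^ n := by gcongr
    _ ≤ (2 * |z 0|) / (2 : ℝ) ^ n := by gcongr
    _ = 2 * |z 0| * (1 / 2) ^ n := by rw [one_div, inv_pow]; rfl

include hL in
/-- the first separation at positive depth -/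
lemma sep_succ (j : ℕ) {q θ : ℝ} (hq0 : 0 < q) (hq1 : q < 1) {w w' X X' : ℝ}
    (h0 : Hf L j θ w = Hf L j θ w') (hw : w ≠ 0) (hw' : w' ≠ 0)
    (hX : X = sg w * |X|) (hX' : X' = sg w' * |X'|)
    (a1 : aa L (j + 1) θ w ≤ |X|)
    (a2 : |X| ≤ (2 : ℝ) ^ (((nn L (j + 1) θ w : ℝ) + 1) / (L : ℝ) ^ (j + 1) + θ))
    (b1 : aa L (j + 1) θ w' ≤ |X'|)
    (b2 : |X'| ≤ (2 : ℝ) ^ (((nn L (j + 1) θ w' : ℝ) + 1) / (L : ℝ) ^ (j + 1) + θ))
    (hlt : nn L (j + 1) θ w < nn L (j + 1) θ w') :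
    |X - X'| ^ q ≤ wt L (j + 1) q θ w * |hh L (j + 1) θ w - hh L (j + 1) θ w'| := by
  have hN := Lj_pos hL (j + 1)
  set N : ℝ := (L : ℝ) ^ (j + 1) with hNd
  set n := nn L (j + 1) θ w with hn
  set n' := nn L (j + 1) θ w' with hn'
  rw [Hf_eq_iff hL] at h0
  have hs := h0.1
  have hnn : nn L j θ w = nn L j θ w' := by
    rcases h0.2 with h2 | h2
    · exact absurd h2 hw
    · exact h2
  have hLZ : (0 : ℤ) < L := by exact_mod_cast (show 0 < L by omega)
  have hdiff : n' - n ≤ L - 1 := by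
    have e1 := nn_nest hL j θ w
    have e2 := nn_nest hL j θ w'
    rw [← hn] at e1; rw [← hn'] at e2
    have e3 : n / (L : ℤ) = n' / (L : ℤ) := by rw [← e1, ← e2, hnn]
    have f1 := Int.emod_nonneg n hLZ.ne'
    have f2 := Int.emod_lt_of_pos n' hLZ
    have f3 := Int.mul_ediv_add_emod n (L : ℤ)
    have f4 := Int.mul_ediv_add_emod n' (L : ℤ)
    rw [e3] at f3
    omega
  have hdR : (n' : ℝ) - n ≤ L - 1 := by exact_mod_cast hdiff
  have hd1 : (1 : ℝ) ≤ (n' : ℝ) - n := by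
    have : (n : ℝ) + 1 ≤ n' := by exact_mod_cast hlt
    linarith
  have hLN : (L : ℝ) ≤ N := by
    rw [hNd]
    have : (1 : ℝ) ≤ L := by exact_mod_cast (show 1 ≤ L by omega)
    exact le_self_pow₀ this (by omega)
  -- distance
  have ha := aa_pos L (j + 1) θ w
  have t0 : 0 ≤ ((n' : ℝ) + 1 - n) / N := by
    apply div_nonneg _ hN.le; linarith
  have t1 : ((n' : ℝ) + 1 - n) / N ≤ 1 := by
    rw [div_le_one hN]; linarith
  have e1 : (2 : ℝ) ^ (((n' : ℝ) + 1) / N + θ) = aa L (j + 1) θ w * 2 ^ (((n' : ℝ) + 1 - n) / N) := by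
    unfold aa
    rw [← Real.rpow_add (by norm_num), ← hn, ← hNd]
    congr 1; ring
  have e2 := two_rpow_le t0 t1
  have e3 : aa L (j + 1) θ w * 2 ^ (((n' : ℝ) + 1 - n) / N) ≤
      aa L (j + 1) θ w * (1 + ((n' : ℝ) + 1 - n) / N) := mul_le_mul_of_nonneg_left e2 ha.le
  have e4 : |X| ≤ |X'| := by
    refine a2.trans (le_trans ?_ b1)
    unfold aa
    apply Real.rpow_le_rpow_of_exponent_le (by norm_num)
    rw [← hn', ← hNd]
    have : ((n : ℝ) + 1) / N ≤ (n' : ℝ) / N := by gcongr; linarith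
    linarith
  have e5 : aa L (j + 1) θ w ≤ 2 * aa L 0 θ w := (aa_le hL (j + 1) θ hw).trans (lt_two_aa hL θ hw).le
  have e6 : |X - X'| ≤ |X'| - |X| := by
    have : X - X' = sg w * (|X| - |X'|) := by rw [mul_sub, ← hX, hs, ← hX']
    rw [this, abs_mul, abs_sub_comm, abs_of_nonneg (by linarith : 0 ≤ |X'| - |X|)]
    have := sg_le w
    nlinarith
  have e7 : ((n' : ℝ) + 1 - n) / N ≤ 2 * ((n' : ℝ) - n) / N := by gcongr; linarith
  have a0 := aa_pos L 0 θ w
  have e8 : |X - X'| ≤ 4 * (aa L 0 θ w / N) * ((n' : ℝ) - n) := by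
    have f1 : |X - X'| ≤ aa L (j + 1) θ w * (((n' : ℝ) + 1 - n) / N) := by
      rw [e1] at b2; nlinarith
    have f2 : aa L (j + 1) θ w * (((n' : ℝ) + 1 - n) / N) ≤
        (2 * aa L 0 θ w) * (2 * ((n' : ℝ) - n) / N) := mul_le_mul e5 e7 t0 (by positivity)
    calc _ ≤ _ := f1
      _ ≤ _ := f2
      _ = _ := by ring
  -- powers
  have g1 : |X - X'| ^ q ≤ (4 * (aa L 0 θ w / N) * ((n' : ℝ) - n)) ^ q :=
    Real.rpow_le_rpow (abs_nonneg _) e8 hq0.le
  have hdn : 0 ≤ (n' : ℝ) - n := by linarith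
  have g2 : (4 * (aa L 0 θ w / N) * ((n' : ℝ) - n)) ^ q =
      4 ^ q * (aa L 0 θ w / N) ^ q * ((n' : ℝ) - n) ^ q := by
    rw [Real.mul_rpow (by positivity) hdn, Real.mul_rpow (by norm_num) (by positivity)]
  have g3 : (4 : ℝ) ^ q ≤ 4 := by
    calc (4 : ℝ) ^ q ≤ 4 ^ (1 : ℝ) := Real.rpow_le_rpow_of_exponent_le (by norm_num) hq1.le
      _ = 4 := Real.rpow_one _
  have g4 : ((n' : ℝ) - n) ^ q ≤ (n' : ℝ) - n := by
    calc ((n' : ℝ) - n) ^ q ≤ ((n' : ℝ) - n) ^ (1 : ℝ) :=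
        Real.rpow_le_rpow_of_exponent_le hd1 hq1.le
      _ = _ := Real.rpow_one _
  have g5 : |hh L (j + 1) θ w - hh L (j + 1) θ w'| = (n' : ℝ) - n := by
    unfold hh
    rw [← hs, ← mul_sub, abs_mul, ← hn, ← hn', abs_sub_comm, abs_of_nonneg hdn]
    have : |sg w| = 1 := by
      rcases sg_cases w with ⟨h1, e1⟩ | ⟨h1, e1⟩ | ⟨h1, e1⟩ <;> rw [e1]
      · norm_num
      · exact absurd h1 hw
      · norm_num
    rw [this, one_mul]
  rw [g5]
  calc _ ≤ _ := g1
    _ = _ := g2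
    _ ≤ 4 * (aa L 0 θ w / N) ^ q * ((n' : ℝ) - n) := by gcongr
    _ = _ := by unfold wt; rfl

include hL in
/-- separation at the root -/
lemma sep_zero {q θ : ℝ} (hq0 : 0 < q) (hq1 : q < 1) {w w' X X' : ℝ}
    (hne : Hf L 0 θ w ≠ Hf L 0 θ w')
    (hX : |X| ≤ 2 * (|sg w| * aa L 0 θ w)) (hX' : |X'| ≤ 2 * (|sg w'| * aa L 0 θ w')) :
    |X - X'| ^ q ≤ (8 / q) * |hr L q θ w - hr L q θ w'| := by
  have a0 := aa_pos L 0 θ w
  have a0' := aa_pos L 0 θ w'
  -- it suffices to bound the maximum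
  have key : ∀ M : ℝ, 0 ≤ M → |sg w| * aa L 0 θ w ≤ M → |sg w'| * aa L 0 θ w' ≤ M →
      (q / 2) * M ^ q ≤ |hr L q θ w - hr L q θ w'| →
      |X - X'| ^ q ≤ (8 / q) * |hr L q θ w - hr L q θ w'| := by
    intro M hM h1 h2 h3
    have e1 : |X - X'| ≤ 4 * M := by
      have := abs_sub X X'
      linarith
    have e2 : |X - X'| ^ q ≤ (4 * M) ^ q := Real.rpow_le_rpow (abs_nonneg _) e1 hq0.le
    rw [Real.mul_rpow (by norm_num) hM] at e2
    have g3 : (4 : ℝ) ^ q ≤ 4 := by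
      calc (4 : ℝ) ^ q ≤ 4 ^ (1 : ℝ) := Real.rpow_le_rpow_of_exponent_le (by norm_num) hq1.le
        _ = 4 := Real.rpow_one _
    have e3 : 0 ≤ M ^ q := Real.rpow_nonneg hM q
    have e4 : (8 / q) * ((q / 2) * M ^ q) ≤ (8 / q) * |hr L q θ w - hr L q θ w'| :=
      mul_le_mul_of_nonneg_left h3 (by positivity)
    have e5 : (8 / q) * ((q / 2) * M ^ q) = 4 * M ^ q := by field_simp; ring
    nlinarith
  have hq2 : q / 2 ≤ 1 := by linarith
  have half : ∀ {r r' : ℝ}, 0 < r → 2 * r ≤ r' → (q / 2) * r' ^ q ≤ r' ^ q - r ^ q := by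
    intro r r' hr hrr
    have h1 : r ≤ r' * (1 / 2) := by linarith
    have h2 : r ^ q ≤ (r' * (1 / 2)) ^ q := Real.rpow_le_rpow hr.le h1 hq0.le
    rw [Real.mul_rpow (by linarith) (by norm_num)] at h2
    have h3 : (1 / 2 : ℝ) ^ q ≤ 1 - q / 2 := by
      have := rpow_one_add_le_one_add_mul_self (s := -1 / 2) (by norm_num) hq0.le hq1.le
      norm_num at this
      norm_num
      linarith
    have h4 : 0 ≤ r' ^ q := Real.rpow_nonneg (by linarith) q
    nlinarith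
  have same : sg w = sg w' → w ≠ 0 → nn L 0 θ w ≠ nn L 0 θ w' := by
    intro h1 h2 h3
    exact hne ((Hf_eq_iff hL 0 θ w w').mpr ⟨h1, Or.inr h3⟩)
  have dbl : ∀ {x y : ℝ}, nn L 0 θ x < nn L 0 θ y → 2 * aa L 0 θ x ≤ aa L 0 θ y := by
    intro x y hxy
    have h1 : (nn L 0 θ x : ℝ) + 1 ≤ nn L 0 θ y := by exact_mod_cast hxy
    have h2 : 2 * aa L 0 θ x = (2 : ℝ) ^ (1 + ((nn L 0 θ x : ℝ) / (L : ℝ) ^ 0 + θ)) := by
      unfold aa
      rw [Real.rpow_add (by norm_num) 1, Real.rpow_one]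
    rw [h2]; unfold aa
    apply Real.rpow_le_rpow_of_exponent_le (by norm_num)
    rw [pow_zero, div_one, div_one]; linarith
  have pw : 0 < (aa L 0 θ w) ^ q := Real.rpow_pos_of_pos a0 q
  have pw' : 0 < (aa L 0 θ w') ^ q := Real.rpow_pos_of_pos a0' q
  -- opposite signs or one zero
  have opp : sg w * sg w' ≤ 0 → (sg w ≠ 0 ∨ sg w' ≠ 0) → 
      |hr L q θ w - hr L q θ w'| = |sg w| * (aa L 0 θ w) ^ q + |sg w'| * (aa L 0 θ w') ^ q := by
    intro h1 h2
    unfold hr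
    rcases sg_cases w with ⟨c1, e1⟩ | ⟨c1, e1⟩ | ⟨c1, e1⟩ <;>
    rcases sg_cases w' with ⟨c2, e2⟩ | ⟨c2, e2⟩ | ⟨c2, e2⟩ <;> rw [e1, e2] at h1 h2 ⊢
    · exfalso; linarith
    · rw [abs_of_neg (by linarith)]; norm_num
    · rw [abs_of_neg (by linarith)]; norm_num; ring
    · rw [abs_of_pos (by linarith)]; norm_num
    · exfalso; simp at h2
    · rw [abs_of_neg (by linarith)]; norm_num
    · rw [abs_of_pos (by linarith)]; norm_num
    · rw [abs_of_pos (by linarith)]; norm_num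
    · exfalso; linarith
  rcases le_or_gt (sg w * sg w') 0 with hop | hop
  · have hne0 : sg w ≠ 0 ∨ sg w' ≠ 0 := by
      by_contra hcon
      push Not at hcon
      apply hne
      unfold Hf
      rw [hcon.1, hcon.2]; simp
    have ho := opp hop hne0
    set r := |sg w| * aa L 0 θ w with hr1
    set r' := |sg w'| * aa L 0 θ w' with hr2
    have hr0 : 0 ≤ r := by positivity
    have hr0' : 0 ≤ r' := by positivity
    have pr : ∀ x : ℝ, (|sg x| * aa L 0 θ x) ^ q = |sg x| * (aa L 0 θ x) ^ q := by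
      intro x
      rcases sg_cases x with ⟨c1, e1⟩ | ⟨c1, e1⟩ | ⟨c1, e1⟩ <;> rw [e1]
      · norm_num
      · norm_num
        exact Real.zero_rpow hq0.ne'
      · norm_num
    apply key (max r r') (le_max_of_le_left hr0) (le_max_left _ _) (le_max_right _ _)
    rw [ho, ← pr w, ← pr w', ← hr1, ← hr2]
    have h5 : (max r r') ^ q ≤ r ^ q + r' ^ q := by
      have i1 : 0 ≤ r ^ q := Real.rpow_nonneg hr0 q
      have i2 : 0 ≤ r' ^ q := Real.rpow_nonneg hr0' q
      rcases max_cases r r' with ⟨h, -⟩ | ⟨h, -⟩ <;> rw [h] <;> linarith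
    have h6 : 0 ≤ (max r r') ^ q := Real.rpow_nonneg (le_max_of_le_left hr0) q
    nlinarith
  · have hs : sg w = sg w' ∧ w ≠ 0 ∧ |sg w| = 1 := by
      rcases sg_cases w with ⟨c1, e1⟩ | ⟨c1, e1⟩ | ⟨c1, e1⟩ <;>
      rcases sg_cases w' with ⟨c2, e2⟩ | ⟨c2, e2⟩ | ⟨c2, e2⟩ <;> rw [e1, e2] at hop ⊢
      · exact ⟨rfl, c1.ne, by norm_num⟩
      all_goals first
        | exact ⟨rfl, c1.ne', by norm_num⟩
        | (exfalso; linarith)
    have hn := same hs.1 hs.2.1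
    have hs1 : |sg w'| = 1 := by rw [← hs.1]; exact hs.2.2
    have hd : |hr L q θ w - hr L q θ w'| = |(aa L 0 θ w) ^ q - (aa L 0 θ w') ^ q| := by
      unfold hr
      rw [← hs.1, ← mul_sub, abs_mul, hs.2.2, one_mul]
    rcases lt_or_gt_of_ne hn with hlt | hlt
    · have h2 := dbl hlt
      have h3 := half a0 h2
      apply key (aa L 0 θ w') a0'.le (by rw [hs.2.2]; linarith) (by rw [hs1]; linarith)
      rw [hd, abs_sub_comm]
      exact h3.trans (le_abs_self _)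
    · have h2 := dbl hlt
      have h3 := half a0' h2
      apply key (aa L 0 θ w) a0.le (by rw [hs.2.2]; linarith) (by rw [hs1]; linarith)
      rw [hd]
      exact h3.trans (le_abs_self _)

include hL in
lemma aa0_eq {j : ℕ} {θ w w' : ℝ} (h0 : Hf L j θ w = Hf L j θ w') (hw : w ≠ 0) :
    aa L 0 θ w = aa L 0 θ w' := by
  have h1 := Hf_nest_le hL (Nat.zero_le j) θ h0
  rw [Hf_eq_iff hL] at h1
  rcases h1.2 with h2 | h2
  · exact absurd h2 hw
  · unfold aa; rw [h2]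

include hL in
/-- the pathwise bound -/
theorem path_bound {q θ : ℝ} (hq0 : 0 < q) (hq1 : q < 1) {z z' : ℕ → ℝ} {X X' : ℝ}
    (hc : ∀ j, Hf L j θ (z (j + 1)) = Hf L j θ (z j))
    (hc' : ∀ j, Hf L j θ (z' (j + 1)) = Hf L j θ (z' j))
    (hz : Tendsto z atTop (𝓝 X)) (hz' : Tendsto z' atTop (𝓝 X')) :
    ENNReal.ofReal (|X - X'| ^ q) ≤ ENNReal.ofReal ((8 / q) * |hr L q θ (z 0) - hr L q θ (z' 0)|) +
      ∑' j, {p : ℝ × ℝ | Hf L j θ p.1 = Hf L j θ p.2}.indicator 1 (z j, z' j) *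
        ENNReal.ofReal (wt L (j + 1) q θ (z (j + 1)) *
          |hh L (j + 1) θ (z (j + 1)) - hh L (j + 1) θ (z' (j + 1))|) := by
  by_cases hall : ∀ j, Hf L j θ (z j) = Hf L j θ (z' j)
  · -- never separated
    have h1 : X = X' := by
      have h2 : Tendsto (fun j => z j - z' j) atTop (𝓝 0) := by
        have h3 : Tendsto (fun j => |z j| / (L : ℝ) ^ j) atTop (𝓝 0) := by
          have hL1 : (1 : ℝ) < L := by exact_mod_cast (show 1 < L by omega)
          have h4 : Tendsto (fun j : ℕ => ((L : ℝ) ^ j)⁻¹) atTop (𝓝 0) :=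
            (tendsto_pow_atTop_atTop_of_one_lt hL1).inv_tendsto_atTop
          have h5 := hz.abs.mul h4
          rw [mul_zero] at h5
          exact h5
        apply squeeze_zero_norm _ h3
        intro j
        rw [Real.norm_eq_abs]
        exact same_cell hL j θ (hall j)
      have h6 := hz.sub hz'
      have := tendsto_nhds_unique h2 h6
      linarith
    rw [h1, sub_self, abs_zero, Real.zero_rpow hq0.ne', ENNReal.ofReal_zero]
    exact zero_le
  · push Not at hall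
    classical
    obtain ⟨j0, hj0⟩ : ∃ j0, Hf L j0 θ (z j0) ≠ Hf L j0 θ (z' j0) ∧
        ∀ i < j0, Hf L i θ (z i) = Hf L i θ (z' i) := by
      refine ⟨Nat.find hall, Nat.find_spec hall, fun i hi => ?_⟩
      by_contra hcon
      exact Nat.find_min hall hi hcon
    have hsg : ∀ {y : ℕ → ℝ}, (∀ j, Hf L j θ (y (j + 1)) = Hf L j θ (y j)) → ∀ j i, j ≤ i →
        sg (y i) = sg (y j) := fun hy j i hi =>
      ((Hf_eq_iff hL _ _ _ _).mp (chain_cell hL hy j i hi)).1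
    rcases Nat.eq_zero_or_pos j0 with h0 | hpos
    · subst h0
      refine le_trans ?_ le_self_add
      apply ENNReal.ofReal_le_ofReal
      have hb : ∀ {y : ℕ → ℝ} {Y : ℝ}, (∀ j, Hf L j θ (y (j + 1)) = Hf L j θ (y j)) →
          Tendsto y atTop (𝓝 Y) → |Y| ≤ 2 * (|sg (y 0)| * aa L 0 θ (y 0)) := by
        intro y Y hy hY
        by_cases hy0 : y 0 = 0
        · have := lim_zero hY (fun i hi => hsg hy 0 i hi) hy0
          have hs : sg (y 0) = 0 := sg_eq_zero.mpr hy0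
          rw [this, hs]; simp
        · have h3 := (lim_cell hL 0 θ hY (chain_cell hL hy 0) hy0).2.2
          have h4 : |sg (y 0)| = 1 := by
            rcases sg_cases (y 0) with ⟨h1, e1⟩ | ⟨h1, e1⟩ | ⟨h1, e1⟩ <;> rw [e1]
            · norm_num
            · exact absurd h1 hy0
            · norm_num
          rw [h4, one_mul]
          refine h3.trans (le_of_eq ?_)
          unfold aa
          rw [show (2 : ℝ) * 2 ^ ((nn L 0 θ (y 0) : ℝ) / (L : ℝ) ^ 0 + θ) =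
            2 ^ (1 : ℝ) * 2 ^ ((nn L 0 θ (y 0) : ℝ) / (L : ℝ) ^ 0 + θ) by rw [Real.rpow_one],
            ← Real.rpow_add (by norm_num)]
          congr 1
          rw [pow_zero]; ring
      exact sep_zero hL hq0 hq1 hj0.1 (hb hc hz) (hb hc' hz')
    · obtain ⟨j, rfl⟩ : ∃ j, j0 = j + 1 := ⟨j0 - 1, by omega⟩
      have hj := hj0.2 j (by omega)
      -- labels at depth `j` of the next points
      have hjw : Hf L j θ (z (j + 1)) = Hf L j θ (z' (j + 1)) := by rw [hc j, hc' j, hj]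
      have hsw := ((Hf_eq_iff hL _ _ _ _).mp hjw).1
      have hw : z (j + 1) ≠ 0 := by
        intro h
        apply hj0.1
        have h2 : z' (j + 1) = 0 := by rw [← sg_eq_zero, ← hsw, sg_eq_zero]; exact h
        rw [h, h2]
      have hw' : z' (j + 1) ≠ 0 := by
        intro h
        apply hw
        rw [← sg_eq_zero, hsw, sg_eq_zero]; exact h
      obtain ⟨c1, c2, c3⟩ := lim_cell hL (j + 1) θ hz (chain_cell hL hc (j + 1)) hw
      obtain ⟨d1, d2, d3⟩ := lim_cell hL (j + 1) θ hz' (chain_cell hL hc' (j + 1)) hw'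
      have hnn : nn L (j + 1) θ (z (j + 1)) ≠ nn L (j + 1) θ (z' (j + 1)) := by
        intro h
        exact hj0.1 ((Hf_eq_iff hL _ _ _ _).mpr ⟨hsw, Or.inr h⟩)
      have hmain : |X - X'| ^ q ≤ wt L (j + 1) q θ (z (j + 1)) *
          |hh L (j + 1) θ (z (j + 1)) - hh L (j + 1) θ (z' (j + 1))| := by
        rcases lt_or_gt_of_ne hnn with hlt | hlt
        · exact sep_succ hL j hq0 hq1 hjw hw hw' c1 d1 c2 c3 d2 d3 hlt
        · have := sep_succ hL j hq0 hq1 hjw.symm hw' hw d1 c1 d2 d3 c2 c3 hlt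
          rw [abs_sub_comm X' X, abs_sub_comm (hh L (j + 1) θ (z' (j + 1)))] at this
          have e : wt L (j + 1) q θ (z' (j + 1)) = wt L (j + 1) q θ (z (j + 1)) := by
            unfold wt; rw [aa0_eq hL hjw hw]
          rwa [e] at this
      refine le_trans ?_ le_add_self
      refine le_trans ?_ (ENNReal.le_tsum j)
      rw [indicator_of_mem (by exact hj), Pi.one_apply, one_mul]
      exact ENNReal.ofReal_le_ofReal hmain

end

end Pool.Agent.J4H79.PC
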