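import Mathlib
import Pool.Agent.R972.PC.Defs

/-!
# The quantile function of a probability measure on `ℝ`
-/

set_option autoImplicit false

open MeasureTheory Set Filter Topology
open scoped ENNReal NNReal

namespace Pool.Agent.J4H79.PC

open Pool.Agent.R972.PC (leb)

/-- the quantile function -/
noncomputable def zq (P : Measure ℝ) (y : ℝ) : ℝ :=
  open Classical in if 0 < y ∧ y < 1 then sSup {t | P.real (Iio t) ≤ y} else 0

section

variable (P : Measure ℝ) [IsProbabilityMeasure P]

lemma iio_mono {s t : ℝ} (h : s ≤ t) : P.real (Iio s) ≤ P.real (Iio t) :=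
  measureReal_mono (Iio_subset_Iio h)

lemma tendsto_iio_top : Tendsto (fun t : ℝ => P.real (Iio t)) atTop (𝓝 1) := by
  have h : Tendsto (fun t : ℝ => P (Iio t)) atTop (𝓝 (P (⋃ t : ℝ, Iio t))) :=
    tendsto_measure_iUnion_atTop fun s t h => Iio_subset_Iio h
  have h2 : (⋃ t : ℝ, Iio t) = univ := iUnion_Iio
  rw [h2, measure_univ] at h
  have := (ENNReal.tendsto_toReal ENNReal.one_ne_top).comp h
  simpa [Measure.real, Function.comp_def] using this

lemma tendsto_iio_bot : Tendsto (fun t : ℝ => P.real (Iio t)) atBot (𝓝 0) := by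
  have h : Tendsto (fun t : ℝ => P (Iio t)) atBot (𝓝 (P (⋂ t : ℝ, Iio t))) :=
    tendsto_measure_iInter_atBot (fun t => measurableSet_Iio.nullMeasurableSet)
      (fun s t h => Iio_subset_Iio h) ⟨0, measure_ne_top _ _⟩
  have h2 : (⋂ t : ℝ, Iio t) = ∅ := by
    ext x; simp only [mem_iInter, mem_Iio, mem_empty_iff_false, iff_false, not_forall, not_lt]
    exact ⟨x, le_refl x⟩
  rw [h2, measure_empty] at h
  have := (ENNReal.tendsto_toReal ENNReal.zero_ne_top).comp h
  simpa [Measure.real, Function.comp_def] using this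

lemma iio_leftCts (t : ℝ) {y : ℝ} (h : y < P.real (Iio t)) : ∃ t' < t, y < P.real (Iio t') := by
  have h1 : Tendsto (fun n : ℕ => P (Iio (t - 1 / ((n : ℝ) + 1)))) atTop
      (𝓝 (P (⋃ n : ℕ, Iio (t - 1 / ((n : ℝ) + 1))))) := by
    apply tendsto_measure_iUnion_atTop
    intro a b hab
    apply Iio_subset_Iio
    have : 1 / ((b : ℝ) + 1) ≤ 1 / ((a : ℝ) + 1) :=
      one_div_le_one_div_of_le (by positivity) (by exact_mod_cast Nat.succ_le_succ hab)
    linarith
  have h2 : (⋃ n : ℕ, Iio (t - 1 / ((n : ℝ) + 1))) = Iio t := by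
    ext x
    simp only [mem_iUnion, mem_Iio]
    constructor
    · rintro ⟨n, hn⟩
      have : 0 < 1 / ((n : ℝ) + 1) := by positivity
      linarith
    · intro hx
      obtain ⟨n, hn⟩ := exists_nat_one_div_lt (show (0 : ℝ) < t - x by linarith)
      exact ⟨n, by linarith⟩
  rw [h2] at h1
  have h3 : Tendsto (fun n : ℕ => P.real (Iio (t - 1 / ((n : ℝ) + 1)))) atTop
      (𝓝 (P.real (Iio t))) := (ENNReal.tendsto_toReal (measure_ne_top _ _)).comp h1
  obtain ⟨n, hn⟩ := (h3.eventually (lt_mem_nhds h)).exists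
  refine ⟨t - 1 / ((n : ℝ) + 1), ?_, hn⟩
  have : 0 < 1 / ((n : ℝ) + 1) := by positivity
  linarith

lemma le_zq_iff {y : ℝ} (h0 : 0 < y) (h1 : y < 1) (t : ℝ) :
    t ≤ zq P y ↔ P.real (Iio t) ≤ y := by
  have hbdd : BddAbove {t | P.real (Iio t) ≤ y} := by
    obtain ⟨s, hs⟩ := ((tendsto_iio_top P).eventually (lt_mem_nhds h1)).exists
    refine ⟨s, fun t ht => ?_⟩
    by_contra hlt
    push Not at hlt
    exact absurd (lt_of_lt_of_le hs (iio_mono P hlt.le)) (not_lt.mpr ht)
  have hne : {t | P.real (Iio t) ≤ y}.Nonempty := by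
    obtain ⟨s, hs⟩ := ((tendsto_iio_bot P).eventually (gt_mem_nhds h0)).exists
    exact ⟨s, le_of_lt hs⟩
  rw [zq, if_pos ⟨h0, h1⟩]
  constructor
  · intro h
    by_contra hlt
    push Not at hlt
    obtain ⟨t', ht', hy⟩ := iio_leftCts P t hlt
    have : sSup {t | P.real (Iio t) ≤ y} ≤ t' := by
      apply csSup_le hne
      intro s hs
      by_contra hst
      push Not at hst
      exact absurd (lt_of_lt_of_le hy (iio_mono P hst.le)) (not_lt.mpr hs)
    linarith
  · intro h
    exact le_csSup hbdd h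

lemma zq_measurable : Measurable (zq P) := by
  apply measurable_of_Ici
  intro t
  have h : zq P ⁻¹' Ici t = (Ioo 0 1 ∩ {y | P.real (Iio t) ≤ y}) ∪ ((Ioo 0 1)ᶜ ∩ {_y | t ≤ 0}) := by
    ext y
    by_cases hy : 0 < y ∧ y < 1
    · have := le_zq_iff P hy.1 hy.2 t
      simp only [mem_preimage, mem_Ici, mem_union, mem_inter_iff, mem_Ioo, mem_compl_iff,
        mem_ofPred_eq]
      tauto
    · have : zq P y = 0 := by rw [zq, if_neg hy]
      simp only [mem_preimage, mem_Ici, mem_union, mem_inter_iff, mem_Ioo, mem_compl_iff,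
        mem_ofPred_eq, this]
      tauto
  rw [h]
  refine (measurableSet_Ioo.inter ?_).union (measurableSet_Ioo.compl.inter (MeasurableSet.const _))
  exact measurableSet_Ici

/-- lower sets below and above the quantile -/
lemma zq_mem {L : Set ℝ} (hL : IsLowerSet L) {y : ℝ} (h0 : 0 < y) (h1 : y < 1)
    (h : y < P.real L) : zq P y ∈ L := by
  by_contra hz
  have h2 : L ⊆ Iio (zq P y) := by
    intro x hx
    by_contra hlt
    rw [mem_Iio, not_lt] at hlt
    exact hz (hL hlt hx)
  have h3 := measureReal_mono (μ := P) h2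
  have h4 := (le_zq_iff P h0 h1 (zq P y)).mp le_rfl
  linarith

lemma zq_notMem {L : Set ℝ} (hL : IsLowerSet L) {y : ℝ} (h0 : 0 < y) (h1 : y < 1)
    (h : P.real L < y) : zq P y ∉ L := by
  intro hz
  have h2 : Iic (zq P y) ⊆ L := fun x hx => hL hx hz
  have h3 := measureReal_mono (μ := P) h2
  have h5 : Tendsto (fun n : ℕ => P (Iio (zq P y + 1 / ((n : ℝ) + 1)))) atTop
      (𝓝 (P (⋂ n : ℕ, Iio (zq P y + 1 / ((n : ℝ) + 1))))) := by
    apply tendsto_measure_iInter_atTop (fun n => measurableSet_Iio.nullMeasurableSet)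
    · intro a b hab
      apply Iio_subset_Iio
      have : 1 / ((b : ℝ) + 1) ≤ 1 / ((a : ℝ) + 1) :=
        one_div_le_one_div_of_le (by positivity) (by exact_mod_cast Nat.succ_le_succ hab)
      linarith
    · exact ⟨0, measure_ne_top _ _⟩
  have h6 : (⋂ n : ℕ, Iio (zq P y + 1 / ((n : ℝ) + 1))) = Iic (zq P y) := by
    ext x
    simp only [mem_iInter, mem_Iio, mem_Iic]
    constructor
    · intro hx
      by_contra hlt
      push Not at hlt
      obtain ⟨n, hn⟩ := exists_nat_one_div_lt (show (0 : ℝ) < x - zq P y by linarith)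
      have := hx n
      linarith
    · intro hx n
      have : 0 < 1 / ((n : ℝ) + 1) := by positivity
      linarith
  rw [h6] at h5
  have h7 : Tendsto (fun n : ℕ => P.real (Iio (zq P y + 1 / ((n : ℝ) + 1)))) atTop
      (𝓝 (P.real (Iic (zq P y)))) := (ENNReal.tendsto_toReal (measure_ne_top _ _)).comp h5
  have h8 : y ≤ P.real (Iic (zq P y)) := by
    apply ge_of_tendsto' h7
    intro n
    by_contra hlt
    push Not at hlt
    have := (le_zq_iff P h0 h1 (zq P y + 1 / ((n : ℝ) + 1))).mpr hlt.le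
    have h9 : 0 < 1 / ((n : ℝ) + 1) := by positivity
    linarith
  linarith

end

end Pool.Agent.J4H79.PC
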