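import Pool.Agent.J4H79.PC.Chain

/-!
# The laws of the chain
-/

set_option autoImplicit false

open MeasureTheory Set Filter Topology
open scoped ENNReal NNReal

namespace Pool.Agent.J4H79.PC

open Pool.Agent.R972.PC (leb)

lemma leb_apply (s : Set ℝ) : leb s = volume (s ∩ Icc 0 1) := by
  rw [Pool.Agent.R972.PC.leb, Measure.restrict_apply' measurableSet_Icc]

lemma ae_Ioo : ∀ᵐ f ∂leb, f ∈ Ioo (0 : ℝ) 1 := by
  rw [ae_iff, leb_apply]
  apply measure_mono_null (t := {0, 1})
  · rintro x ⟨hx, hx2⟩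
    simp only [mem_ofPred_eq, mem_Ioo, not_and, not_lt] at hx
    rcases eq_or_lt_of_le hx2.1 with h | h
    · left; exact h.symm
    · right; exact le_antisymm hx2.2 (hx h)
  · exact (Set.toFinite _).measure_zero _

lemma rs_law (P : Measure ℝ) [IsProbabilityMeasure P] {B B' : Set ℝ} (hB : IsLowerSet B)
    (hB' : IsLowerSet B') (hBB : B ⊆ B') (hm : 0 < P.real (B' \ B)) :
    leb.map (rs P B B') = ProbabilityTheory.cond P (B' \ B) := by
  have hcm : MeasurableSet (B' \ B) := (lower_meas hB').diff (lower_meas hB)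
  have hP0 : P (B' \ B) ≠ 0 := by
    intro h; rw [Measure.real, h] at hm; simp at hm
  have : IsProbabilityMeasure (leb.map (rs P B B')) :=
    Measure.isProbabilityMeasure_map (rs_measurable P B B').aemeasurable
  have := ProbabilityTheory.cond_isProbabilityMeasure hP0
  apply Measure.ext_of_Iic
  intro t
  rw [Measure.map_apply (rs_measurable P B B') measurableSet_Iic, leb_apply,
    ProbabilityTheory.cond_apply hcm]
  set p := P.real (Iic t ∩ (B' \ B)) / P.real (B' \ B) with hp
  have hp0 : 0 ≤ p := by positivity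
  have hp1 : p ≤ 1 := by
    rw [hp, div_le_one hm]; exact measureReal_mono inter_subset_right
  have hR : (P (B' \ B))⁻¹ * P (B' \ B ∩ Iic t) = ENNReal.ofReal p := by
    rw [hp, ENNReal.ofReal_div_of_pos hm, ofReal_measureReal, ofReal_measureReal, mul_comm,
      inter_comm, ENNReal.div_eq_inv_mul, mul_comm]
  rw [hR]
  apply le_antisymm
  · calc volume (rs P B B' ⁻¹' Iic t ∩ Icc 0 1) ≤ volume (Icc 0 p ∪ {0, 1}) := by
          apply measure_mono
          rintro f ⟨hf, hf2⟩
          by_cases h0 : 0 < f ∧ f < 1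
          · left
            refine ⟨h0.1.le, ?_⟩
            by_contra hlt
            push Not at hlt
            rw [hp, div_lt_iff₀ hm] at hlt
            exact rs_notMem P hB hB' hBB h0.1 h0.2 hm (isLowerSet_Iic t) hlt hf
          · right
            rcases eq_or_lt_of_le hf2.1 with h | h
            · left; exact h.symm
            · right
              by_contra h1
              exact h0 ⟨h, lt_of_le_of_ne hf2.2 h1⟩
      _ ≤ volume (Icc 0 p) + volume {(0 : ℝ), 1} := measure_union_le _ _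
      _ = ENNReal.ofReal p := by
          rw [(Set.toFinite {(0 : ℝ), 1}).measure_zero, Real.volume_Icc, sub_zero, add_zero]
  · calc ENNReal.ofReal p = volume (Ioo 0 p) := by rw [Real.volume_Ioo, sub_zero]
      _ ≤ _ := by
          apply measure_mono
          rintro f ⟨h0, h1⟩
          refine ⟨?_, h0.le, (h1.le.trans hp1)⟩
          apply rs_mem P hB hBB h0 (h1.trans_le hp1) hm (isLowerSet_Iic t)
          rw [← lt_div_iff₀ hm]; exact h1

/-! ### countable partitions -/

lemma Hf_countable (L j : ℕ) (θ : ℝ) : (range (Hf L j θ)).Countable := by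
  have h : range (Hf L j θ) ⊆ range (fun p : ℤ × ℤ =>
      (p.1 : ℝ) * (2 : ℝ) ^ ((p.2 : ℝ) / (L : ℝ) ^ j + θ)) := by
    rintro _ ⟨x, rfl⟩
    rcases sg_cases x with ⟨h1, e1⟩ | ⟨h1, e1⟩ | ⟨h1, e1⟩
    · exact ⟨(-1, nn L j θ x), by simp [Hf, e1, aa]⟩
    · exact ⟨(0, nn L j θ x), by simp [Hf, e1, aa]⟩
    · exact ⟨(1, nn L j θ x), by simp [Hf, e1, aa]⟩
  exact (countable_range _).mono h

lemma Hf_meas1 (L j : ℕ) (θ : ℝ) : Measurable (Hf L j θ) := by
  have h := (Hf_meas L j).comp (measurable_const (a := θ) |>.prodMk measurable_id)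
  simpa only [Function.comp_def, id] using h

lemma lint_fib {α : Type*} [MeasurableSpace α] (μ : Measure α) {H : α → ℝ} (hH : Measurable H)
    {V : Set ℝ} (hV : V.Countable) (hr : ∀ x, H x ∈ V) (g : α → ℝ≥0∞) :
    ∫⁻ x, g x ∂μ = ∑' v : V, ∫⁻ x in H ⁻¹' {v.1}, g x ∂μ := by
  have := hV.to_subtype
  have hU : (⋃ v : V, H ⁻¹' {v.1}) = univ := by
    ext x
    simp only [mem_iUnion, mem_preimage, mem_singleton_iff, mem_univ, iff_true]
    exact ⟨⟨H x, hr x⟩, rfl⟩
  rw [← lintegral_iUnion (fun v => hH (measurableSet_singleton _)), hU, Measure.restrict_univ]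
  intro v w hvw
  simp only [Function.onFun]
  rw [Set.disjoint_left]
  intro x hx hx2
  simp only [mem_preimage, mem_singleton_iff] at hx hx2
  exact hvw (Subtype.ext (hx.symm.trans hx2))

lemma st_meas1' (L j : ℕ) (P : Measure ℝ) [IsProbabilityMeasure P] (θ : ℝ) :
    Measurable fun p : ℝ × ℝ => st L j P θ p.1 p.2 := by
  have h := (st_meas L j P).comp (measurable_const (a := θ) |>.prodMk measurable_id)
  simpa only [Function.comp_def, id] using h

lemma st_congr (L j : ℕ) (P : Measure ℝ) {θ z z' : ℝ} (h : Hf L j θ z = Hf L j θ z') :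
    st L j P θ z = st L j P θ z' := by
  funext f
  unfold st Bel Upt
  rw [h]

lemma st_law (L j : ℕ) (P : Measure ℝ) [IsProbabilityMeasure P] (θ : ℝ) :
    (P.prod leb).map (fun p : ℝ × ℝ => st L j P θ p.1 p.2) = P := by
  ext A hA
  have hm := st_meas1' L j P θ
  rw [Measure.map_apply hm hA, Measure.prod_apply (hm hA)]
  rw [lint_fib P (Hf_meas1 L j θ) (Hf_countable L j θ) (fun x => mem_range_self x)]
  have hA2 : P A = ∑' v : range (Hf L j θ), P (Hf L j θ ⁻¹' {v.1} ∩ A) := by
    have h1 := lint_fib P (Hf_meas1 L j θ) (Hf_countable L j θ) (fun x => mem_range_self x)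
      (A.indicator 1)
    rw [lintegral_indicator_one hA] at h1
    rw [h1]
    congr 1; ext v
    rw [lintegral_indicator_one hA, Measure.restrict_apply hA, inter_comm]
  rw [hA2]
  congr 1; ext v
  obtain ⟨v, z, rfl⟩ := v
  simp only
  have hc : Hf L j θ ⁻¹' {Hf L j θ z} = Upt L j θ z \ Bel L j θ z := by
    rw [Upt_diff]; rfl
  have hcm : MeasurableSet (Hf L j θ ⁻¹' {Hf L j θ z}) := Hf_meas1 L j θ (measurableSet_singleton _)
  by_cases h0 : P (Hf L j θ ⁻¹' {Hf L j θ z}) = 0
  · rw [Measure.restrict_eq_zero.mpr h0, lintegral_zero_measure,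
      measure_mono_null inter_subset_left h0]
  · have hpos : 0 < P.real (Upt L j θ z \ Bel L j θ z) := by
      rw [← hc]; exact ENNReal.toReal_pos h0 (measure_ne_top _ _)
    have e1 : ∀ x ∈ Hf L j θ ⁻¹' {Hf L j θ z},
        leb (Prod.mk x ⁻¹' ((fun p : ℝ × ℝ => st L j P θ p.1 p.2) ⁻¹' A)) =
        (P (Hf L j θ ⁻¹' {Hf L j θ z}))⁻¹ * P (Hf L j θ ⁻¹' {Hf L j θ z} ∩ A) := by
      intro x hx
      have e2 : Prod.mk x ⁻¹' ((fun p : ℝ × ℝ => st L j P θ p.1 p.2) ⁻¹' A) =
          st L j P θ z ⁻¹' A := by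
        rw [← st_congr L j P (show Hf L j θ x = Hf L j θ z from hx)]; rfl
      have e3 := rs_law P (Bel_lower L j θ z) (Upt_lower L j θ z) (Bel_sub L j θ z) hpos
      have e4 : st L j P θ z = rs P (Bel L j θ z) (Upt L j θ z) := rfl
      rw [e2, e4, ← Measure.map_apply (rs_measurable P _ _) hA, e3, ← hc,
        ProbabilityTheory.cond_apply hcm]
    rw [setLIntegral_congr_fun hcm e1, lintegral_const, Measure.restrict_apply_univ, mul_comm,
      ← mul_assoc, ENNReal.mul_inv_cancel h0 (measure_ne_top _ _), one_mul]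

end Pool.Agent.J4H79.PC
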